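import Mathlib

/-!
Definitions for the measure rigidity question for higher rank class-`𝒜` actions on `S`-arithmetic
quotients (MP_67388f_an), for the `ℚ`-group `SL₃` and the set of places `S = {∞, p}`.
-/

set_option autoImplicit false

namespace Pool.Agent.Y319.MR

open Matrix Filter Topology MeasureTheory
open scoped ENNReal

section actions

/-- A topological group `B` is of higher rank if some homomorphism `ℤ² → B` is proper, `ℤ²` being
discrete: preimages of compact sets are compact, that is, finite. -/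
def IsHigherRank (B : Type) [Group B] [TopologicalSpace B] : Prop :=
  ∃ φ : Multiplicative (ℤ × ℤ) →* B, ∀ C : Set B, IsCompact C → (φ ⁻¹' C).Finite

/-- The subgroup `A` of the topological group `Q` is closed and of higher rank. -/
def IsClosedHigherRank {Q : Type} [Group Q] [TopologicalSpace Q] (A : Subgroup Q) : Prop :=
  IsClosed (A : Set Q) ∧ IsHigherRank A

/-- For subgroups `B`, `L` of a group and a normal subgroup `N` of `L`, the image of `B ∩ L`
in `L/N`. -/
def imageMod {Q : Type} [Group Q] (B L N : Subgroup Q) [(N.subgroupOf L).Normal] :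
    Subgroup (L ⧸ N.subgroupOf L) :=
  (B.subgroupOf L).map (QuotientGroup.mk' (N.subgroupOf L))

/-- The image of `B ∩ L` in `L/N` is of higher rank. -/
def HigherRankMod {Q : Type} [Group Q] [TopologicalSpace Q] (B L N : Subgroup Q)
    [(N.subgroupOf L).Normal] : Prop :=
  IsHigherRank (imageMod B L N)

/-- The conjugate `g B g⁻¹` of a subgroup. -/
def conjBy {Q : Type} [Group Q] (g : Q) (B : Subgroup Q) : Subgroup Q :=
  B.map (MulAut.conj g).toMonoidHom

variable (Q : Type) {Y : Type} [Group Q] [MulAction Q Y] [MeasurableSpace Y]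

section
variable [MeasurableConstSMul Q Y]

/-- The stabilizer `{g ∈ Q : g.μ = μ}` of a measure `μ` on a space `Y` on which a group `Q` acts,
where `g.μ` is the image of `μ` under `y ↦ g • y`. -/
def stab (μ : Measure Y) : Subgroup Q where
  carrier := {g | μ.map (fun y => g • y) = μ}
  mul_mem' := by
    intro a b ha hb
    show μ.map (fun y => (a * b) • y) = μ
    have h1 : (fun y : Y => (a * b) • y) = (fun y => a • y) ∘ fun y => b • y := by
      funext y; exact mul_smul a b y
    have ha' : μ.map (fun y => a • y) = μ := ha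
    have hb' : μ.map (fun y => b • y) = μ := hb
    rw [h1, ← Measure.map_map (measurable_const_smul a) (measurable_const_smul b), hb', ha']
  one_mem' := by
    show μ.map (fun y => (1 : Q) • y) = μ
    have h1 : (fun y : Y => (1 : Q) • y) = id := by funext y; exact one_smul _ y
    rw [h1, Measure.map_id]
  inv_mem' := by
    intro a ha
    show μ.map (fun y => a⁻¹ • y) = μ
    have ha' : μ.map (fun y => a • y) = μ := ha
    conv_lhs => rw [← ha']
    rw [Measure.map_map (measurable_const_smul a⁻¹) (measurable_const_smul a)]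
    have h1 : ((fun y : Y => a⁻¹ • y) ∘ fun y => a • y) = id := by
      funext y; exact inv_smul_smul a y
    rw [h1, Measure.map_id]

/-- A measure is homogeneous if it is supported on a single orbit of its stabilizer. -/
def IsHomogeneous (μ : Measure Y) : Prop :=
  ∃ y : Y, μ (MulAction.orbit (stab Q μ) y)ᶜ = 0

/-- `μ` is virtually homogeneous: there are a homogeneous measure `m₀` with stabilizer `H₀` and a
closed subgroup `L` of `Q` with `L/(L ∩ H₀)` finite such that `μ` is the average of the measures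
`ℓ.m₀`, for `ℓ ∈ L/(L ∩ H₀)`. -/
def IsVirtuallyHomogeneous [TopologicalSpace Q] (μ : Measure Y) : Prop :=
  ∃ (m₀ : Measure Y) (L : Subgroup Q), IsHomogeneous Q m₀ ∧ IsClosed (L : Set Q) ∧
    ∃ _ : Fintype (L ⧸ (stab Q m₀).subgroupOf L),
      μ = (Fintype.card (L ⧸ (stab Q m₀).subgroupOf L) : ℝ≥0∞)⁻¹ •
        ∑ q : L ⧸ (stab Q m₀).subgroupOf L, m₀.map (fun y => (q.out : Q) • y)

end

variable {Q}

/-- `μ` is a probability measure which is invariant and ergodic under the subgroup `A`. -/
def IsErgodicProb (A : Subgroup Q) (μ : Measure Y) : Prop :=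
  IsProbabilityMeasure μ ∧ ErgodicSMul A Y μ

end actions

section groups

/-- `SL(3, K)`, the `K`-points of the `ℚ`-group `SL₃`. -/
abbrev SL3 (K : Type) [CommRing K] : Type := Matrix.SpecialLinearGroup (Fin 3) K

/-- `G = SL(3, ℝ) × SL(3, ℚ_p)`, the product of the groups of points of `SL₃` over the places of
`S = {∞, p}`. -/
abbrev G (p : ℕ) [Fact p.Prime] : Type := SL3 ℝ × SL3 ℚ_[p]

/-- The ring `ℤ[1/p]`. -/
def ZInv (p : ℕ) : Subring ℚ := Subring.closure {(p : ℚ)⁻¹}

/-- `Γ = SL(3, ℤ[1/p])`, embedded diagonally in `G`. -/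
noncomputable def Gam (p : ℕ) [Fact p.Prime] : Subgroup (G p) :=
  ((Matrix.SpecialLinearGroup.map ((algebraMap ℚ ℝ).comp (ZInv p).subtype)).prod
    (Matrix.SpecialLinearGroup.map ((algebraMap ℚ ℚ_[p]).comp (ZInv p).subtype))).range

/-- The space `G/Γ`, with the quotient topology. -/
abbrev X (p : ℕ) [Fact p.Prime] : Type := G p ⧸ Gam p

/-- The Borel `σ`-algebra of `G/Γ`. -/
noncomputable instance (p : ℕ) [Fact p.Prime] : MeasurableSpace (X p) := borel (X p)

instance (p : ℕ) [Fact p.Prime] : BorelSpace (X p) := ⟨rfl⟩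

instance (p : ℕ) [Fact p.Prime] : MeasurableConstSMul (G p) (X p) :=
  ⟨fun g => (continuous_const_smul g).measurable⟩

/-- The value at the matrix `g` of a polynomial with rational coefficients in the nine entries. -/
noncomputable def polyVal {K : Type} [Field K] [Algebra ℚ K]
    (f : MvPolynomial (Fin 3 × Fin 3) ℚ) (g : SL3 K) : K :=
  MvPolynomial.aeval (fun ij : Fin 3 × Fin 3 => (g : Matrix (Fin 3) (Fin 3) K) ij.1 ij.2) f

/-- A `ℚ`-subgroup `𝕃` of the algebraic group `SL₃`: a set of polynomial equations with rational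
coefficients in the nine matrix entries whose solutions in `SL(3, K)` form a group, for each field
`K` containing `ℚ`. -/
structure QSubgroup where
  /-- the defining equations -/
  eqs : Set (MvPolynomial (Fin 3 × Fin 3) ℚ)
  /-- the group `𝕃(K)` of the `K`-points -/
  pts : ∀ (K : Type) [Field K] [Algebra ℚ K], Subgroup (SL3 K)
  mem_pts : ∀ (K : Type) [Field K] [Algebra ℚ K] (g : SL3 K),
    g ∈ pts K ↔ ∀ f ∈ eqs, polyVal f g = 0

/-- The group `L = 𝕃(ℝ) × 𝕃(ℚ_p)`. -/
noncomputable def QSubgroup.adic (L : QSubgroup) (p : ℕ) [Fact p.Prime] : Subgroup (G p) :=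
  (L.pts ℝ).prod (L.pts ℚ_[p])

/-- `ℍ` is a normal `ℚ`-subgroup of `𝕃`. -/
structure QSubgroup.IsNormalIn (H L : QSubgroup) : Prop where
  le : ∀ (K : Type) [Field K] [Algebra ℚ K], H.pts K ≤ L.pts K
  conj_mem : ∀ (K : Type) [Field K] [Algebra ℚ K], ∀ l ∈ L.pts K, ∀ h ∈ H.pts K,
    l * h * l⁻¹ ∈ H.pts K

lemma QSubgroup.IsNormalIn.normal {H L : QSubgroup} (h : H.IsNormalIn L) (p : ℕ) [Fact p.Prime] :
    ((H.adic p).subgroupOf (L.adic p)).Normal :=
  ⟨fun _ hx y => ⟨h.conj_mem ℝ _ y.2.1 _ hx.1, h.conj_mem ℚ_[p] _ y.2.2 _ hx.2⟩⟩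

/-- For a subgroup `B` of `G` and `ℚ`-subgroups `ℍ ◁ 𝕃`, the image of `B ∩ L` in `L/H` is of higher
rank. -/
def HigherRankImage {p : ℕ} [Fact p.Prime] (B : Subgroup (G p)) {H L : QSubgroup}
    (h : H.IsNormalIn L) : Prop :=
  haveI := h.normal p
  HigherRankMod B (L.adic p) (H.adic p)

/-- The set `g[𝕃]_Γ = g L Γ / Γ` in `G/Γ`. -/
def coset {p : ℕ} [Fact p.Prime] (g : G p) (L : QSubgroup) : Set (X p) :=
  {y | ∃ l ∈ L.adic p, y = (QuotientGroup.mk (g * l) : X p)}

end groups

section classA

/-- A representation of `SL(3, K)` on `K^m` is algebraic if its matrix coefficients are polynomials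
in the matrix entries of the group element. -/
def IsAlgebraicRep {K : Type} [Field K] {m : ℕ} (ρ : SL3 K →* GL (Fin m) K) : Prop :=
  ∀ i j, ∃ f : MvPolynomial (Fin 3 × Fin 3) K, ∀ g : SL3 K,
    (ρ g : Matrix (Fin m) (Fin m) K) i j =
      MvPolynomial.eval (fun kl : Fin 3 × Fin 3 => (g : Matrix (Fin 3) (Fin 3) K) kl.1 kl.2) f

/-- The point `ρ(g) v` of `K^m`. -/
def repAct {K : Type} [Field K] {m : ℕ} (ρ : SL3 K →* GL (Fin m) K) (g : SL3 K) (v : Fin m → K) :
    Fin m → K :=
  (ρ g : Matrix (Fin m) (Fin m) K) *ᵥ v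

/-- `g` is diagonalizable over `K`. -/
def IsDiagonalizable {K : Type} [Field K] (g : SL3 K) : Prop :=
  ∃ (P : GL (Fin 3) K) (d : Fin 3 → K),
    (g : Matrix (Fin 3) (Fin 3) K) = (P : Matrix (Fin 3) (Fin 3) K) * Matrix.diagonal d *
      ((P⁻¹ : GL (Fin 3) K) : Matrix (Fin 3) (Fin 3) K)

/-- For the action on a projective space `ℙV(K)` given by an algebraic representation `ρ`
on `V = K^m` and every point `[v]` of it, every limit point `[w]` of `{gⁿ.[v] : n ∈ ℤ}` is fixed
by `g`. Here `[w]` is a limit point of `{gⁿ.[v]}` when suitable multiples `c k • ρ(g^(n k)) v`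
converge to `w`, for integers `n k` that tend to infinity in absolute value. -/
def LimitsFixed {K : Type} [Field K] [TopologicalSpace K] (g : SL3 K) : Prop :=
  ∀ (m : ℕ) (ρ : SL3 K →* GL (Fin m) K), IsAlgebraicRep ρ →
    ∀ (v w : Fin m → K) (n : ℕ → ℤ) (c : ℕ → K), v ≠ 0 → w ≠ 0 → Tendsto n atTop cofinite →
      Tendsto (fun k => c k • repAct ρ (g ^ n k) v) atTop (𝓝 w) → ∃ r : K, repAct ρ g w = r • w

/-- `g ∈ SL(3, K)` is of class-`𝒜`: it is diagonalizable over `K`, it generates an unbounded
subgroup, and the limit points of its orbits in projective spaces are fixed points. -/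
structure IsClassA {K : Type} [Field K] [TopologicalSpace K] (g : SL3 K) : Prop where
  diagonalizable : IsDiagonalizable g
  unbounded : ¬ ∃ C : Set (SL3 K), IsCompact C ∧ ∀ n : ℤ, g ^ n ∈ C
  limit_fixed : LimitsFixed g

/-- The nontrivial elements of the subgroup `A` of `G` are of class-`𝒜`. -/
def ConsistsOfClassA {p : ℕ} [Fact p.Prime] (A : Subgroup (G p)) : Prop :=
  ∀ a ∈ A, a ≠ 1 → IsClassA a.1 ∧ IsClassA a.2

end classA

lemma measurable_smul' {p : ℕ} [Fact p.Prime] (g : G p) : Measurable fun x : X p => g • x :=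
  (continuous_const_smul g).measurable

end Pool.Agent.Y319.MR
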