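import Mathlib
import Pool.Agent.Y319.MR.Defs

/-! Elementary matrices, words in elementary matrices -/

set_option autoImplicit false

namespace Pool.Agent.Y319.MR

open Matrix Filter Topology

/-- the roots: pairs of different indices -/
abbrev Root : Type := {ij : Fin 3 × Fin 3 // ij.1 ≠ ij.2}

/-- the elementary matrix `1 + t E_{ij}` -/
def U {R : Type} [CommRing R] (β : Root) (t : R) : SL3 R :=
  Matrix.SpecialLinearGroup.transvection β.2 t

section basic

variable {R : Type} [CommRing R]

lemma U_coe (β : Root) (t : R) : (U β t : Matrix (Fin 3) (Fin 3) R) = 1 + single β.1.1 β.1.2 t := rfl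

lemma U_apply (β : Root) (t : R) (i j : Fin 3) :
    (U β t : Matrix (Fin 3) (Fin 3) R) i j = (if i = j then 1 else 0) +
      (if β.1.1 = i ∧ β.1.2 = j then t else 0) := by
  rw [U_coe, Matrix.add_apply, one_apply, single_apply]

lemma U_zero (β : Root) : U β (0 : R) = 1 := Matrix.SpecialLinearGroup.transvection_coeff_zero _

lemma U_neg (β : Root) (t : R) : U β (-t) = (U β t)⁻¹ :=
  (Matrix.SpecialLinearGroup.transvection_inv _ _).symm

lemma U_add (β : Root) (s t : R) : U β (s + t) = U β s * U β t :=
  Matrix.SpecialLinearGroup.transvection_add _ _ _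

lemma map_U {S : Type} [CommRing S] (f : R →+* S) (β : Root) (t : R) :
    Matrix.SpecialLinearGroup.map f (U β t) = U β (f t) := by
  ext i j
  show f ((U β t : Matrix (Fin 3) (Fin 3) R) i j) = (U β (f t) : Matrix (Fin 3) (Fin 3) S) i j
  rw [U_apply, U_apply, map_add]
  congr 1
  · split_ifs <;> simp
  · split_ifs <;> simp

/-- row operation -/
lemma U_mul_apply (β : Root) (t : R) (g : Matrix (Fin 3) (Fin 3) R) (i j : Fin 3) :
    ((U β t : Matrix (Fin 3) (Fin 3) R) * g) i j = g i j + (if β.1.1 = i then t * g β.1.2 j else 0) := by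
  rw [U_coe, add_mul, one_mul, Matrix.add_apply]
  congr 1
  split_ifs with h
  · subst h
    simp
  · exact Matrix.single_mul_apply_of_ne _ _ _ _ _ (Ne.symm h) _

/-- product of the `U (β j) (t j)` for `k ≤ j < k + n`, the factor with the largest index being on
the left -/
def pr (β : ℕ → Root) (t : ℕ → R) (k : ℕ) : ℕ → SL3 R
  | 0 => 1
  | n + 1 => U (β (k + n)) (t (k + n)) * pr β t k n

@[simp] lemma pr_zero (β : ℕ → Root) (t : ℕ → R) (k : ℕ) : pr β t k 0 = 1 := rfl

lemma pr_succ (β : ℕ → Root) (t : ℕ → R) (k n : ℕ) :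
    pr β t k (n + 1) = U (β (k + n)) (t (k + n)) * pr β t k n := rfl

lemma pr_add (β : ℕ → Root) (t : ℕ → R) (k m n : ℕ) :
    pr β t k (m + n) = pr β t (k + m) n * pr β t k m := by
  induction n with
  | zero => simp
  | succ n ih =>
    rw [← add_assoc, pr_succ, ih, pr_succ, mul_assoc, add_assoc k m n]

lemma pr_congr (β : ℕ → Root) {t t' : ℕ → R} {k n : ℕ} (h : ∀ j, k ≤ j → j < k + n → t j = t' j) :
    pr β t k n = pr β t' k n := by
  induction n with
  | zero => rfl
  | succ n ih =>
    rw [pr_succ, pr_succ, ih fun j h1 h2 => h j h1 (by omega), h (k + n) (by omega) (by omega)]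

lemma map_pr {S : Type} [CommRing S] (f : R →+* S) (β : ℕ → Root) (t : ℕ → R) (k n : ℕ) :
    Matrix.SpecialLinearGroup.map f (pr β t k n) = pr β (fun j => f (t j)) k n := by
  induction n with
  | zero => simp
  | succ n ih => rw [pr_succ, pr_succ, map_mul, ih, map_U]

end basic

section induction

variable {F : Type} [Field F]

lemma mat_decomp {i j : Fin 3} (hij : i ≠ j) {c : F} (hc : c ≠ 0) :
    (1 + single i j c) * (1 + single j i (-c⁻¹)) * (1 + single i j c) * (1 + single i j (-1)) *
      (1 + single j i 1) * (1 + single i j (-1)) = 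
      (diagonal (fun k ↦ if k = i then c else if k = j then c⁻¹ else 1) :
        Matrix (Fin 3) (Fin 3) F) := by
  have hji := hij.symm
  simp only [mul_add, add_mul, one_mul,
    mul_one, single_mul_single_same, single_mul_single_of_ne, hij, hji, ne_eq, not_false_eq_true]
  ext k l
  simp only [diagonal_apply, Matrix.add_apply, single_apply, one_apply]
  by_cases h1 : k = l
  · subst h1
    by_cases h2 : i = k
    · subst h2
      simp [hij, hji, hc]
    · by_cases h3 : j = k
      · subst h3
        simp [hij, hji, hc]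
      · simp [h2, h3, Ne.symm h2, Ne.symm h3]
  · by_cases h2 : i = k <;> by_cases h3 : j = k <;> by_cases h4 : i = l <;> by_cases h5 : j = l <;>
      simp_all

abbrev tv {i j : Fin 3} (hij : i ≠ j) (b : F) : SL3 F := SpecialLinearGroup.transvection hij b

lemma diag_decomp {i j : Fin 3} (hij : i ≠ j) {c : F} (hc : c ≠ 0) :
    SpecialLinearGroup.diag2n hij c hc = tv hij c * tv hij.symm (-c⁻¹) * tv hij c * tv hij (-1) *
      tv hij.symm 1 * tv hij (-1) := by
  apply Subtype.ext
  exact (mat_decomp hij hc).symm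

/-- generation by transvections -/
lemma sl_induction (P : SL3 F → Prop) (h1 : ∀ (i j : Fin 3) (hij : i ≠ j) (a : F), P (tv hij a))
    (h2 : ∀ A B, P A → P B → P (A * B)) (M : SL3 F) : P M := by
  refine SpecialLinearGroup.diagonal_transvection_induction' P M (fun i j hij c hc => ?_) h1 h2
  rw [diag_decomp hij hc]
  refine h2 _ _ (h2 _ _ (h2 _ _ (h2 _ _ (h2 _ _ ?_ ?_) ?_) ?_) ?_) ?_
  all_goals exact h1 _ _ _ _

/-- generation by elementary matrices -/
lemma U_induction (P : SL3 F → Prop) (h1 : ∀ (β : Root) (a : F), P (U β a))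
    (h2 : ∀ A B, P A → P B → P (A * B)) (M : SL3 F) : P M :=
  sl_induction P (fun i j hij a => h1 ⟨(i, j), hij⟩ a) h2 M

end induction

end Pool.Agent.Y319.MR
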