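import Mathlib
import Pool.Agent.Y319.MR.Elem

/-! Normal subgroups of `SL(3, F)`, Zariski density of `SL(3, ℚ)` -/

set_option autoImplicit false
set_option linter.unusedSectionVars false
set_option linter.unusedSimpArgs false

namespace Pool.Agent.Y319.MR

open Matrix Matrix.SpecialLinearGroup
open scoped MatrixGroups commutatorElement LinearAlgebra.Projectivization

section normal

variable {F : Type} [Field F]

lemma tv_comm {i j k : Fin 3} (hij : i ≠ j) (hik : i ≠ k) (hkj : k ≠ j) (a : F) :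
    ⁅tv hik a, tv hkj 1⁆ = tv hij a := by
  rw [commutatorElement_def, SpecialLinearGroup.transvection_inv, SpecialLinearGroup.transvection_inv]
  apply Subtype.ext
  show (1 + single i k a) * (1 + single k j 1) * (1 + single i k (-a)) * (1 + single k j (-1)) =
    (1 + single i j a : Matrix (Fin 3) (Fin 3) F)
  have hki := hik.symm
  have hjk := hkj.symm
  have hji := hij.symm
  simp only [mul_add, add_mul, one_mul,
    mul_one, single_mul_single_same, single_mul_single_of_ne, hij, hji, hik, hki, hkj, hjk, ne_eq,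
    not_false_eq_true, zero_mul, add_zero, mul_neg]
  ext p q
  simp only [Matrix.add_apply, single_apply, one_apply]
  by_cases h1 : i = p <;> by_cases h2 : k = q <;> by_cases h3 : j = q <;> by_cases h4 : k = p <;>
    simp_all

lemma sl_perfect : commutator (SL3 F) = ⊤ := by
  refine le_antisymm le_top (fun A _ => ?_)
  refine sl_induction (fun A => A ∈ commutator (SL3 F)) ?_ (fun A B => mul_mem) A
  intro i j hij a
  obtain ⟨k, hik, hkj⟩ : ∃ k : Fin 3, i ≠ k ∧ k ≠ j := by
    revert i j
    decide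
  rw [← tv_comm hij hik hkj a]
  exact Subgroup.commutator_mem_commutator (Subgroup.mem_top _) (Subgroup.mem_top _)

lemma iSup_lineStab : (⨆ p : ℙ F (Fin 3 → F), lineStab p.submodule) = (⊤ : Subgroup (SL3 F)) := by
  refine le_antisymm le_top (fun A _ => ?_)
  refine sl_induction (fun A => A ∈ (⨆ p : ℙ F (Fin 3 → F), lineStab p.submodule)) ?_
    (fun A B => mul_mem) A
  intro i j hij a
  have h0 : (Pi.single i (1 : F) : Fin 3 → F) ≠ 0 := Pi.single_ne_zero_iff.2 one_ne_zero
  refine Subgroup.mem_iSup_of_mem (Projectivization.mk F _ h0) ?_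
  rw [Projectivization.submodule_mk]
  exact SL2Gen.transvection_mem_lineStab hij a

/-- The Iwasawa structure on SL. -/
noncomputable def slIwa : MulAction.IwasawaStructure (SL3 F) (ℙ F (Fin 3 → F)) where
  T p := lineStab p.submodule
  is_comm p := by
    rw [← Projectivization.mk_rep p, Projectivization.submodule_mk]
    exact lineStab_isMulCommutative_of_span p.rep p.rep_nonzero
  is_conj g p := by
    rw [PSL.smul_submodule, Matrix.SpecialLinearGroup.lineStab_smul]
  is_generator := iSup_lineStab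

/-- normal subgroups of SL(3) are central or everything -/
theorem sl_normal (N : Subgroup (SL3 F)) (hN : N.Normal) :
    N = ⊤ ∨ N ≤ Subgroup.center (SL3 F) := by
  by_cases h : MulAction.fixedPoints N (ℙ F (Fin 3 → F)) = .univ
  · right
    rw [← Projectivization.SL_mulAction_ker]
    intro n hn
    rw [MonoidHom.mem_ker]
    ext x
    have h1 : x ∈ MulAction.fixedPoints N (ℙ F (Fin 3 → F)) := by rw [h]; trivial
    exact h1 ⟨n, hn⟩
  · left
    have h1 := (slIwa (F := F)).commutator_le N h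
    rw [sl_perfect] at h1
    exact top_le_iff.1 h1

end normal

section poly

variable {K : Type} [Field K]

/-- the entries of a matrix -/
def ent (g : Matrix (Fin 3) (Fin 3) K) : Fin 3 × Fin 3 → K := fun ij => g ij.1 ij.2

/-- translation of a polynomial function by matrices -/
lemma exists_translate (f : MvPolynomial (Fin 3 × Fin 3) K) (a b : Matrix (Fin 3) (Fin 3) K) :
    ∃ f' : MvPolynomial (Fin 3 × Fin 3) K, ∀ x : Matrix (Fin 3) (Fin 3) K,
      MvPolynomial.eval (ent x) f' = MvPolynomial.eval (ent (a * x * b)) f := by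
  refine ⟨MvPolynomial.bind₁ (fun ij : Fin 3 × Fin 3 => ∑ l, (∑ k,
    MvPolynomial.C (a ij.1 k) * MvPolynomial.X (k, l)) * MvPolynomial.C (b l ij.2)) f, fun x => ?_⟩
  rw [← MvPolynomial.coe_aeval_eq_eval, RingHom.coe_coe, MvPolynomial.aeval_bind₁,
    ← MvPolynomial.coe_aeval_eq_eval, RingHom.coe_coe]
  congr 2
  funext ij
  simp only [map_sum, map_mul, MvPolynomial.aeval_X]
  simp only [← MvPolynomial.algebraMap_eq, AlgHom.commutes, Algebra.algebraMap_self, RingHom.id_apply]
  show _ = (a * x * b) ij.1 ij.2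
  rw [Matrix.mul_apply]
  refine Finset.sum_congr rfl fun l _ => ?_
  rw [Matrix.mul_apply]
  rfl

/-- a polynomial function along an elementary one-parameter group -/
lemma exists_univ (f : MvPolynomial (Fin 3 × Fin 3) K) (a b : Matrix (Fin 3) (Fin 3) K) (β : Root) :
    ∃ q : Polynomial K, q.natDegree ≤ f.totalDegree ∧ ∀ t : K,
      q.eval t = MvPolynomial.eval (ent (a * (U β t : Matrix (Fin 3) (Fin 3) K) * b)) f := by
  set c : Matrix (Fin 3) (Fin 3) K := a * b with hc
  set d : Matrix (Fin 3) (Fin 3) K := a * single β.1.1 β.1.2 1 * b with hd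
  refine ⟨MvPolynomial.aeval (fun ij : Fin 3 × Fin 3 => Polynomial.C (c ij.1 ij.2) +
    Polynomial.C (d ij.1 ij.2) * Polynomial.X) f, ?_, fun t => ?_⟩
  · have h := MvPolynomial.aeval_natDegree_le f le_rfl (fun ij : Fin 3 × Fin 3 =>
      Polynomial.C (c ij.1 ij.2) +
        Polynomial.C (d ij.1 ij.2) * Polynomial.X) (n := 1) ?_
    · simpa using h
    · intro ij
      compute_degree
  · have h1 : (a * (U β t : Matrix (Fin 3) (Fin 3) K) * b) = c + t • d := by
      rw [U_coe, mul_add, mul_one, add_mul, hc, hd]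
      congr 1
      rw [← Matrix.smul_mul, ← Matrix.mul_smul, Matrix.smul_single, smul_eq_mul, mul_one]
    rw [h1, ← MvPolynomial.coe_aeval_eq_eval, RingHom.coe_coe, ← Polynomial.coe_evalRingHom,
      MvPolynomial.aeval_def, MvPolynomial.aeval_def, MvPolynomial.hom_eval₂]
    congr 1
    · ext c; simp
    · funext ij
      show Polynomial.eval t _ = (c + t • d) ij.1 ij.2
      rw [Matrix.add_apply, Matrix.smul_apply, smul_eq_mul]
      simp
      ring

lemma eval_U_eq_zero (f : MvPolynomial (Fin 3 × Fin 3) K)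
    (a b : Matrix (Fin 3) (Fin 3) K) (β : Root) (S : Set K) (hS : S.Infinite)
    (h : ∀ t ∈ S, MvPolynomial.eval (ent (a * (U β t : Matrix (Fin 3) (Fin 3) K) * b)) f = 0) (t : K) :
    MvPolynomial.eval (ent (a * (U β t : Matrix (Fin 3) (Fin 3) K) * b)) f = 0 := by
  obtain ⟨q, -, hq⟩ := exists_univ f a b β
  have h0 : q = 0 := by
    refine Polynomial.eq_zero_of_infinite_isRoot q (hS.mono ?_)
    intro t ht
    show q.eval t = 0
    rw [hq, h t ht]
  rw [← hq, h0, Polynomial.eval_zero]

lemma eval_U_eq_zero' (f : MvPolynomial (Fin 3 × Fin 3) K) (β : Root) (S : Set K) (hS : S.Infinite)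
    (h : ∀ t ∈ S, MvPolynomial.eval (ent (U β t : Matrix (Fin 3) (Fin 3) K)) f = 0) (t : K) :
    MvPolynomial.eval (ent (U β t : Matrix (Fin 3) (Fin 3) K)) f = 0 := by
  have h1 := eval_U_eq_zero f 1 1 β S hS
  simp only [one_mul, mul_one] at h1
  exact h1 h t

/-- the image of a rational matrix -/
noncomputable def rat (K : Type) [Field K] [Algebra ℚ K] (q : SL3 ℚ) : SL3 K :=
  SpecialLinearGroup.map (algebraMap ℚ K) q

lemma rat_mul [Algebra ℚ K] (q r : SL3 ℚ) : rat K (q * r) = rat K q * rat K r := map_mul _ _ _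

lemma rat_U [Algebra ℚ K] (β : Root) (t : ℚ) : rat K (U β t) = U β (algebraMap ℚ K t) := map_U _ _ _

lemma inf_range (K : Type) [Field K] [Algebra ℚ K] : (Set.range (algebraMap ℚ K)).Infinite :=
  Set.infinite_range_of_injective (algebraMap ℚ K).injective

/-- an element at which all polynomials vanish that vanish on the rational points -/
def InZar (K : Type) [Field K] [Algebra ℚ K] (x : SL3 K) : Prop :=
  ∀ f : MvPolynomial (Fin 3 × Fin 3) K,
    (∀ q : SL3 ℚ, MvPolynomial.eval (ent (rat K q : Matrix (Fin 3) (Fin 3) K)) f = 0) →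
    MvPolynomial.eval (ent (x : Matrix (Fin 3) (Fin 3) K)) f = 0

lemma inZar_U [Algebra ℚ K] (β : Root) (a : K) : InZar K (U β a) := by
  intro f hf
  refine eval_U_eq_zero' f β (Set.range (algebraMap ℚ K)) (inf_range K) ?_ a
  rintro _ ⟨s, rfl⟩
  rw [← rat_U]
  exact hf (U β s)

lemma inZar_mul [Algebra ℚ K] (A B : SL3 K) (hA : InZar K A) (hB : InZar K B) :
    InZar K (A * B) := by
  intro f hf
  obtain ⟨f1, hf1⟩ := exists_translate f 1 (B : Matrix (Fin 3) (Fin 3) K)
  have h3 := hA f1 ?_
  · rw [hf1, one_mul] at h3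
    exact h3
  · intro q
    rw [hf1, one_mul]
    obtain ⟨f2, hf2⟩ := exists_translate f (rat K q : Matrix (Fin 3) (Fin 3) K) 1
    have h4 := hB f2 ?_
    · rw [hf2, mul_one] at h4
      exact h4
    · intro r
      rw [hf2, mul_one]
      have h5 := hf (q * r)
      rw [rat_mul] at h5
      exact h5

lemma inZar_all [Algebra ℚ K] (x : SL3 K) : InZar K x :=
  U_induction (InZar K) inZar_U inZar_mul x

/-- Zariski density of `SL(3, ℚ)` in `SL(3, K)`. -/
lemma zariski_dense [Algebra ℚ K] (f : MvPolynomial (Fin 3 × Fin 3) K)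
    (h : ∀ q : SL3 ℚ, MvPolynomial.eval (ent (rat K q : Matrix (Fin 3) (Fin 3) K)) f = 0)
    (x : SL3 K) : MvPolynomial.eval (ent (x : Matrix (Fin 3) (Fin 3) K)) f = 0 :=
  inZar_all x f h

lemma aeval_rat [Algebra ℚ K] (f : MvPolynomial (Fin 3 × Fin 3) ℚ) (q : SL3 ℚ) :
    MvPolynomial.aeval (ent (rat K q : Matrix (Fin 3) (Fin 3) K)) f =
      algebraMap ℚ K (MvPolynomial.eval (ent (q : Matrix (Fin 3) (Fin 3) ℚ)) f) := by
  rw [MvPolynomial.aeval_def, ← MvPolynomial.eval₂_id, MvPolynomial.hom_eval₂]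
  rfl

/-- the same for polynomials with rational coefficients -/
lemma aeval_eq_zero_of_rat [Algebra ℚ K] (f : MvPolynomial (Fin 3 × Fin 3) ℚ)
    (h : ∀ q : SL3 ℚ, MvPolynomial.eval (ent (q : Matrix (Fin 3) (Fin 3) ℚ)) f = 0) (x : SL3 K) :
    MvPolynomial.aeval (ent (x : Matrix (Fin 3) (Fin 3) K)) f = 0 := by
  have h1 := zariski_dense (MvPolynomial.map (algebraMap ℚ K) f) ?_ x
  · rw [MvPolynomial.eval_map] at h1
    rw [MvPolynomial.aeval_def]
    exact h1
  · intro q
    rw [MvPolynomial.eval_map, ← MvPolynomial.aeval_def, aeval_rat, h q, map_zero]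

lemma eval_rat_of_aeval [Algebra ℚ K] (f : MvPolynomial (Fin 3 × Fin 3) ℚ)
    (h : ∀ x : SL3 K, MvPolynomial.aeval (ent (x : Matrix (Fin 3) (Fin 3) K)) f = 0) (q : SL3 ℚ) :
    MvPolynomial.eval (ent (q : Matrix (Fin 3) (Fin 3) ℚ)) f = 0 := by
  have h1 := h (rat K q)
  rw [aeval_rat] at h1
  exact (algebraMap ℚ K).injective (by rw [h1, map_zero])

end poly

end Pool.Agent.Y319.MR
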