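import Mathlib
import Pool.Agent.Y319.MR.Elem

/-! The sequences `M j`, `D j` and the numbers `θ j` -/

set_option autoImplicit false
set_option linter.unusedSectionVars false

namespace Pool.Agent.Y319.MR

/-- the pairs `(P j, D j)` -/
def PD (p : ℕ) : ℕ → ℕ × ℕ
  | 0 => (1, 1)
  | j + 1 =>
    ((PD p j).1 * (1 + (PD p j).1 * (2 ^ (j + 2) * (2 ^ (j + 16) * (PD p j).2 ^ 4))),
      (PD p j).2 * (p ^ (1 + (PD p j).1 * (2 ^ (j + 2) * (2 ^ (j + 16) * (PD p j).2 ^ 4))) - 1))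

/-- the product of the `M i`, `i < j` -/
def sP (p j : ℕ) : ℕ := (PD p j).1

/-- the denominators -/
def sD (p j : ℕ) : ℕ := (PD p j).2

/-- the width of the bad region -/
def sK (p j : ℕ) : ℕ := 2 ^ (j + 16) * sD p j ^ 4

/-- the moduli -/
def sM (p j : ℕ) : ℕ := 1 + sP p j * (2 ^ (j + 2) * sK p j)

/-- `p ^ M j - 1` -/
def sN (p j : ℕ) : ℕ := p ^ sM p j - 1

lemma sP_zero (p : ℕ) : sP p 0 = 1 := rfl
lemma sD_zero (p : ℕ) : sD p 0 = 1 := rfl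
lemma sP_succ (p j : ℕ) : sP p (j + 1) = sP p j * sM p j := rfl
lemma sD_succ (p j : ℕ) : sD p (j + 1) = sD p j * sN p j := rfl

variable {p : ℕ}

lemma sM_pos (p j : ℕ) : 0 < sM p j := by unfold sM; omega

instance (j : ℕ) : NeZero (sM p j) := ⟨(sM_pos p j).ne'⟩

lemma sP_pos (p j : ℕ) : 0 < sP p j := by
  induction j with
  | zero => rw [sP_zero]; norm_num
  | succ j ih => rw [sP_succ]; exact Nat.mul_pos ih (sM_pos p j)

variable [hp : Fact p.Prime]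

lemma two_le_p : 2 ≤ p := hp.out.two_le

lemma sN_pos (j : ℕ) : 0 < sN p j := by
  have h1 : 1 < p ^ sM p j := Nat.one_lt_pow (sM_pos p j).ne' hp.out.one_lt
  unfold sN
  omega

lemma sN_cast (j : ℕ) : ((sN p j : ℕ) : ℚ) = (p : ℚ) ^ sM p j - 1 := by
  have h1 : 1 ≤ p ^ sM p j := Nat.one_le_pow _ _ hp.out.pos
  unfold sN
  push_cast [h1]
  ring

lemma sD_pos (j : ℕ) : 0 < sD p j := by
  induction j with
  | zero => rw [sD_zero]; norm_num
  | succ j ih => rw [sD_succ]; exact Nat.mul_pos ih (sN_pos j)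

lemma sK_pos (j : ℕ) : 0 < sK p j := by
  unfold sK
  have := sD_pos (p := p) j
  positivity

lemma sN_coprime (j : ℕ) : Nat.Coprime p (sN p j) := by
  have h1 : 1 ≤ p ^ sM p j := Nat.one_le_pow _ _ hp.out.pos
  rw [Nat.Prime.coprime_iff_not_dvd hp.out]
  intro h
  have h2 : p ∣ p ^ sM p j := dvd_pow_self p (sM_pos p j).ne'
  have h3 : p ∣ p ^ sM p j - sN p j := Nat.dvd_sub h2 h
  unfold sN at h3
  rw [Nat.sub_sub_self h1] at h3
  exact hp.out.one_lt.ne' (Nat.dvd_one.1 h3)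

lemma sD_coprime (j : ℕ) : Nat.Coprime p (sD p j) := by
  induction j with
  | zero => rw [sD_zero]; exact Nat.coprime_one_right p
  | succ j ih => rw [sD_succ]; exact Nat.Coprime.mul_right ih (sN_coprime j)

lemma sD_dvd {i j : ℕ} (h : i ≤ j) : sD p i ∣ sD p j := by
  induction j, h using Nat.le_induction with
  | base => exact dvd_rfl
  | succ j _ ih => rw [sD_succ]; exact ih.mul_right _

lemma sD_le {i j : ℕ} (h : i ≤ j) : sD p i ≤ sD p j :=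
  Nat.le_of_dvd (sD_pos j) (sD_dvd h)

omit hp in
lemma sM_dvd {i j : ℕ} (h : i < j) : sM p i ∣ sP p j := by
  induction j, h using Nat.le_induction with
  | base => rw [sP_succ]; exact Dvd.intro_left _ rfl
  | succ j _ ih => rw [sP_succ]; exact ih.mul_right _

omit hp in
lemma sM_coprime {i j : ℕ} (h : i ≠ j) : Nat.Coprime (sM p i) (sM p j) := by
  wlog hij : i < j generalizing i j
  · exact (this h.symm (by omega)).symm
  refine Nat.Coprime.coprime_dvd_left (sM_dvd hij) ?_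
  unfold sM
  rw [Nat.coprime_add_mul_left_right]
  exact Nat.coprime_one_right _

lemma K_le_M (j : ℕ) : 2 ^ (j + 2) * sK p j ≤ sM p j := by
  have h1 := sP_pos p j
  have h2 : 1 * (2 ^ (j + 2) * sK p j) ≤ sP p j * (2 ^ (j + 2) * sK p j) :=
    Nat.mul_le_mul_right _ h1
  unfold sM
  omega

/-- `θ j = D j ^ 2 / N j` -/
noncomputable def th (p j : ℕ) : ℚ := (sD p j : ℚ) ^ 2 / (sN p j : ℚ)

lemma th_pos (j : ℕ) : 0 < th p j := by
  have h1 := sD_pos (p := p) j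
  have h2 := sN_pos (p := p) j
  unfold th
  positivity

/-- the translation lengths, for a sequence of integer exponents -/
noncomputable def tau (p : ℕ) (n : ℕ → ℤ) (j : ℕ) : ℚ := (p : ℚ) ^ (n j) * th p j

lemma tau_pos (n : ℕ → ℤ) (j : ℕ) : 0 < tau p n j := by
  have h1 := th_pos (p := p) j
  have h2 : (0 : ℚ) < p := by exact_mod_cast hp.out.pos
  unfold tau
  positivity

/-- the bounds for the translation lengths -/
noncomputable def ep (p j : ℕ) : ℝ := (1 / 2) ^ (j + 15) / (sD p j : ℝ) ^ 2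

lemma ep_pos (j : ℕ) : 0 < ep p j := by
  have h1 : (0 : ℝ) < (sD p j : ℝ) := by exact_mod_cast sD_pos (p := p) j
  unfold ep
  positivity

/-- a good exponent -/
def good (p j : ℕ) (i : ℤ) : Prop := (sK p j : ℤ) ≤ i ∧ i + sK p j ≤ sM p j

lemma pow_K_bound (j : ℕ) : ((p : ℝ) ^ (sK p j))⁻¹ ≤ 1 / 2 * ((1 / 2) ^ (j + 15) / (sD p j : ℝ) ^ 4) := by
  have h0 : (0 : ℝ) < (sD p j : ℝ) := by exact_mod_cast sD_pos (p := p) j
  have h1 : (sK p j : ℝ) ≤ (p : ℝ) ^ (sK p j) := by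
    have h2 : sK p j ≤ p ^ sK p j :=
      (Nat.lt_two_pow_self (n := sK p j)).le.trans (Nat.pow_le_pow_left two_le_p _)
    exact_mod_cast h2
  have h3 : (0 : ℝ) < (sK p j : ℝ) := by exact_mod_cast sK_pos (p := p) j
  calc ((p : ℝ) ^ (sK p j))⁻¹ ≤ ((sK p j : ℝ))⁻¹ := inv_anti₀ h3 h1
    _ = 1 / 2 * ((1 / 2) ^ (j + 15) / (sD p j : ℝ) ^ 4) := by
      unfold sK
      push_cast
      rw [pow_succ' (2 : ℝ) (j + 15), one_div_pow]
      field_simp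

lemma tau_real {n : ℕ → ℤ} {j : ℕ} (h : good p j (n j)) : ‖((tau p n j : ℚ) : ℝ)‖ ≤ ep p j := by
  have hp2 : (2 : ℝ) ≤ p := by exact_mod_cast two_le_p (p := p)
  have hp0 : (0 : ℝ) < p := by linarith
  have hD : (0 : ℝ) < (sD p j : ℝ) := by exact_mod_cast sD_pos (p := p) j
  have hN : (0 : ℝ) < (sN p j : ℝ) := by exact_mod_cast sN_pos (p := p) j
  have hN2 : (p : ℝ) ^ sM p j ≤ 2 * (sN p j : ℝ) := by
    have h1 : ((sN p j : ℕ) : ℝ) = (p : ℝ) ^ sM p j - 1 := by exact_mod_cast sN_cast (p := p) j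
    have h2 : (p : ℝ) ^ 1 ≤ (p : ℝ) ^ sM p j := pow_le_pow_right₀ (by linarith) (sM_pos p j)
    rw [h1]
    linarith
  have hpos := tau_pos (p := p) n j
  rw [Real.norm_of_nonneg (by exact_mod_cast hpos.le)]
  have e1 : ((tau p n j : ℚ) : ℝ) = (p : ℝ) ^ (n j) * ((sD p j : ℝ) ^ 2 / (sN p j : ℝ)) := by
    unfold tau th
    push_cast
    ring
  rw [e1]
  have h3 : (p : ℝ) ^ (n j) ≤ (p : ℝ) ^ sM p j * ((p : ℝ) ^ (sK p j))⁻¹ := by
    have h4 : n j ≤ (sM p j : ℤ) + (-(sK p j : ℤ)) := by have := h.2; omega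
    calc (p : ℝ) ^ (n j) ≤ (p : ℝ) ^ ((sM p j : ℤ) + (-(sK p j : ℤ))) :=
          zpow_le_zpow_right₀ (by linarith) h4
      _ = (p : ℝ) ^ sM p j * ((p : ℝ) ^ (sK p j))⁻¹ := by
          rw [zpow_add₀ hp0.ne', zpow_neg, zpow_natCast, zpow_natCast]
  have h5 := pow_K_bound (p := p) j
  calc (p : ℝ) ^ (n j) * ((sD p j : ℝ) ^ 2 / (sN p j : ℝ))
      ≤ ((p : ℝ) ^ sM p j * ((p : ℝ) ^ (sK p j))⁻¹) * ((sD p j : ℝ) ^ 2 / (sN p j : ℝ)) := by
        gcongr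
    _ ≤ ((2 * (sN p j : ℝ)) * (1 / 2 * ((1 / 2) ^ (j + 15) / (sD p j : ℝ) ^ 4))) *
        ((sD p j : ℝ) ^ 2 / (sN p j : ℝ)) := by
        gcongr
    _ = ep p j := by
        unfold ep
        field_simp

lemma padic_norm_sD (j : ℕ) : ‖((sD p j : ℕ) : ℚ_[p])‖ = 1 := by
  rw [Padic.norm_natCast_eq_one_iff]
  exact (sD_coprime j)

lemma padic_norm_sN (j : ℕ) : ‖((sN p j : ℕ) : ℚ_[p])‖ = 1 := by
  rw [Padic.norm_natCast_eq_one_iff]
  exact (sN_coprime j)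

lemma tau_padic {n : ℕ → ℤ} {j : ℕ} (h : good p j (n j)) : ‖((tau p n j : ℚ) : ℚ_[p])‖ ≤ ep p j := by
  have hp2 : (2 : ℝ) ≤ p := by exact_mod_cast two_le_p (p := p)
  have hp0 : (0 : ℝ) < p := by linarith
  have hD : (1 : ℝ) ≤ (sD p j : ℝ) := by exact_mod_cast sD_pos (p := p) j
  have e1 : ((tau p n j : ℚ) : ℚ_[p]) =
      (p : ℚ_[p]) ^ (n j) * (((sD p j : ℕ) : ℚ_[p]) ^ 2 / ((sN p j : ℕ) : ℚ_[p])) := by
    unfold tau th
    push_cast
    ring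
  rw [e1, norm_mul, norm_div, norm_pow, padic_norm_sD, padic_norm_sN, Padic.norm_p_zpow]
  have h5 := pow_K_bound (p := p) j
  calc (p : ℝ) ^ (-(n j)) * (1 ^ 2 / 1) = (p : ℝ) ^ (-(n j)) := by ring
    _ ≤ (p : ℝ) ^ (-(sK p j : ℤ)) := zpow_le_zpow_right₀ (by linarith) (by have := h.1; omega)
    _ = ((p : ℝ) ^ (sK p j))⁻¹ := by rw [zpow_neg, zpow_natCast]
    _ ≤ 1 / 2 * ((1 / 2) ^ (j + 15) / (sD p j : ℝ) ^ 4) := h5
    _ ≤ ep p j := by
        unfold ep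
        have h6 : (1 / 2 : ℝ) ^ (j + 15) / (sD p j : ℝ) ^ 4 ≤ (1 / 2 : ℝ) ^ (j + 15) / (sD p j : ℝ) ^ 2 := by
          have h7 : (sD p j : ℝ) ^ 2 ≤ (sD p j : ℝ) ^ 4 := pow_le_pow_right₀ hD (by norm_num)
          gcongr
        have h8 : (0 : ℝ) ≤ (1 / 2 : ℝ) ^ (j + 15) / (sD p j : ℝ) ^ 4 := by positivity
        linarith

lemma ep_le {k j : ℕ} (h : k ≤ j) : ep p j ≤ (1 / 2) ^ (j + 15) / (sD p k : ℝ) ^ 2 := by
  unfold ep
  have h1 : (0 : ℝ) < (sD p k : ℝ) := by exact_mod_cast sD_pos (p := p) k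
  have h2 : (sD p k : ℝ) ≤ (sD p j : ℝ) := by exact_mod_cast sD_le (p := p) h
  gcongr

lemma sum_ep (k n : ℕ) : ∑ i ∈ Finset.range n, ep p (k + i) ≤ (1 / 2) ^ (k + 14) / (sD p k : ℝ) ^ 2 := by
  have h1 : (0 : ℝ) < (sD p k : ℝ) := by exact_mod_cast sD_pos (p := p) k
  calc ∑ i ∈ Finset.range n, ep p (k + i)
      ≤ ∑ i ∈ Finset.range n, (1 / 2) ^ i * ((1 / 2) ^ (k + 15) / (sD p k : ℝ) ^ 2) := by
        refine Finset.sum_le_sum fun i _ => (ep_le (Nat.le_add_right k i)).trans (le_of_eq ?_)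
        rw [show k + i + 15 = i + (k + 15) by ring, pow_add]
        ring
    _ = (∑ i ∈ Finset.range n, (1 / 2 : ℝ) ^ i) * ((1 / 2) ^ (k + 15) / (sD p k : ℝ) ^ 2) := by
        rw [Finset.sum_mul]
    _ ≤ 2 * ((1 / 2) ^ (k + 15) / (sD p k : ℝ) ^ 2) := by
        gcongr
        exact sum_geometric_two_le n
    _ = (1 / 2) ^ (k + 14) / (sD p k : ℝ) ^ 2 := by
        rw [pow_succ (1 / 2 : ℝ) (k + 14)]
        ring

end Pool.Agent.Y319.MR
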