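import Mathlib
import Pool.Agent.Y319.MR.Normal
import Pool.Agent.Y319.MR.Seq

/-! Estimates for matrices and convergence of the infinite products -/

set_option autoImplicit false
set_option linter.unusedSectionVars false

namespace Pool.Agent.Y319.MR

open Matrix Filter Topology

section norm

variable {K : Type} [NormedField K]

lemma co_one : ((1 : SL3 K) : Matrix (Fin 3) (Fin 3) K) = 1 := rfl

lemma co_mul (A B : SL3 K) : ((A * B : SL3 K) : Matrix (Fin 3) (Fin 3) K) =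
    (A : Matrix (Fin 3) (Fin 3) K) * (B : Matrix (Fin 3) (Fin 3) K) := rfl

/-- the largest norm of an entry -/
noncomputable def nn (A : Matrix (Fin 3) (Fin 3) K) : ℝ := ‖ent A‖

lemma nn_nonneg (A : Matrix (Fin 3) (Fin 3) K) : 0 ≤ nn A := norm_nonneg _

lemma entry_le (A : Matrix (Fin 3) (Fin 3) K) (i j : Fin 3) : ‖A i j‖ ≤ nn A :=
  norm_le_pi_norm (ent A) (i, j)

lemma nn_le_iff {A : Matrix (Fin 3) (Fin 3) K} {c : ℝ} (hc : 0 ≤ c) :
    nn A ≤ c ↔ ∀ i j, ‖A i j‖ ≤ c := by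
  unfold nn
  rw [pi_norm_le_iff_of_nonneg hc]
  exact ⟨fun h i j => h (i, j), fun h ij => h ij.1 ij.2⟩

lemma nn_add (A B : Matrix (Fin 3) (Fin 3) K) : nn (A + B) ≤ nn A + nn B :=
  norm_add_le (ent A) (ent B)

lemma nn_sub (A B : Matrix (Fin 3) (Fin 3) K) : nn (A - B) ≤ nn A + nn B :=
  norm_sub_le (ent A) (ent B)

lemma nn_neg (A : Matrix (Fin 3) (Fin 3) K) : nn (-A) = nn A :=
  norm_neg (ent A)

lemma nn_sub_comm (A B : Matrix (Fin 3) (Fin 3) K) : nn (A - B) = nn (B - A) :=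
  norm_sub_rev (ent A) (ent B)

lemma nn_one : nn (1 : Matrix (Fin 3) (Fin 3) K) = 1 := by
  refine le_antisymm ((nn_le_iff zero_le_one).2 fun i j => ?_) ?_
  · rw [one_apply]
    split_ifs <;> simp
  · have h := entry_le (1 : Matrix (Fin 3) (Fin 3) K) 0 0
    simpa using h

lemma nn_eq_zero {A : Matrix (Fin 3) (Fin 3) K} : nn A = 0 ↔ A = 0 := by
  unfold nn
  rw [norm_eq_zero]
  constructor
  · intro h
    ext i j
    exact congrFun h (i, j)
  · intro h
    rw [h]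
    rfl

lemma nn_mul (A B : Matrix (Fin 3) (Fin 3) K) : nn (A * B) ≤ 3 * (nn A * nn B) := by
  have h0 : 0 ≤ nn A * nn B := mul_nonneg (nn_nonneg A) (nn_nonneg B)
  rw [nn_le_iff (by positivity)]
  intro i j
  rw [mul_apply]
  calc ‖∑ k, A i k * B k j‖ ≤ ∑ k, ‖A i k * B k j‖ := norm_sum_le _ _
    _ ≤ ∑ _k : Fin 3, nn A * nn B := by
        refine Finset.sum_le_sum fun k _ => ?_
        rw [norm_mul]
        exact mul_le_mul (entry_le A i k) (entry_le B k j) (norm_nonneg _) (nn_nonneg A)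
    _ = 3 * (nn A * nn B) := by simp

lemma continuous_nn : Continuous (nn : Matrix (Fin 3) (Fin 3) K → ℝ) := by
  unfold nn
  refine continuous_norm.comp ?_
  refine continuous_pi fun ij => ?_
  exact (continuous_apply_apply ij.1 ij.2)

lemma continuous_nn_sl : Continuous fun g : SL3 K => nn ((g : Matrix (Fin 3) (Fin 3) K) - 1) :=
  continuous_nn.comp (continuous_subtype_val.sub continuous_const)

lemma nn_sl_eq_zero {g : SL3 K} (h : nn ((g : Matrix (Fin 3) (Fin 3) K) - 1) = 0) : g = 1 := by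
  rw [nn_eq_zero, sub_eq_zero] at h
  exact Subtype.ext h

section ultra

variable [IsUltrametricDist K]

lemma nn_add_le_max (A B : Matrix (Fin 3) (Fin 3) K) : nn (A + B) ≤ max (nn A) (nn B) := by
  rw [nn_le_iff (le_max_of_le_left (nn_nonneg A))]
  intro i j
  exact (IsUltrametricDist.norm_add_le_max _ _).trans (max_le_max (entry_le A i j) (entry_le B i j))

lemma nn_sub_le_max (A B : Matrix (Fin 3) (Fin 3) K) : nn (A - B) ≤ max (nn A) (nn B) := by
  rw [sub_eq_add_neg, ← nn_neg B]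
  exact nn_add_le_max _ _

lemma nn_mul_ultra (A B : Matrix (Fin 3) (Fin 3) K) : nn (A * B) ≤ nn A * nn B := by
  have h0 : 0 ≤ nn A * nn B := mul_nonneg (nn_nonneg A) (nn_nonneg B)
  rw [nn_le_iff h0]
  intro i j
  rw [mul_apply]
  refine IsUltrametricDist.norm_sum_le_of_forall_le_of_nonneg h0 fun k _ => ?_
  rw [norm_mul]
  exact mul_le_mul (entry_le A i k) (entry_le B k j) (norm_nonneg _) (nn_nonneg A)

end ultra

/-- the bound for products of small elementary matrices -/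
lemma pr_bound (β : ℕ → Root) (t : ℕ → K) (k : ℕ) {S : ℝ} (hS : S ≤ 1 / 2)
    (h : ∀ n, ∑ i ∈ Finset.range n, ‖t (k + i)‖ ≤ S) (n : ℕ) :
    nn ((pr β t k n : Matrix (Fin 3) (Fin 3) K) - 1) ≤
      2 * ∑ i ∈ Finset.range n, ‖t (k + i)‖ := by
  induction n with
  | zero =>
    rw [pr_zero, co_one, sub_self]
    simp [nn_eq_zero.2 rfl]
  | succ n ih =>
    have h0 : ∀ m, 0 ≤ ∑ i ∈ Finset.range m, ‖t (k + i)‖ := fun m =>
      Finset.sum_nonneg fun _ _ => norm_nonneg _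
    have h1 := h0 n
    have h2 := h n
    rw [nn_le_iff (by have := h0 (n + 1); linarith)]
    intro i j
    rw [pr_succ, Finset.sum_range_succ, co_mul, Matrix.sub_apply, U_mul_apply]
    set g : Matrix (Fin 3) (Fin 3) K := (pr β t k n : Matrix (Fin 3) (Fin 3) K) with hg
    have h3 : ‖g i j - (1 : Matrix (Fin 3) (Fin 3) K) i j‖ ≤ 2 * ∑ i ∈ Finset.range n, ‖t (k + i)‖ :=
      (entry_le (g - 1) i j).trans ih
    have h4 : ‖g (β (k + n)).1.2 j‖ ≤ 2 := by
      have h5 : ‖g (β (k + n)).1.2 j - (1 : Matrix (Fin 3) (Fin 3) K) (β (k + n)).1.2 j‖ ≤ 1 := by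
        refine ((entry_le (g - 1) _ j).trans ih).trans ?_
        linarith
      have h6 : ‖(1 : Matrix (Fin 3) (Fin 3) K) (β (k + n)).1.2 j‖ ≤ 1 := by
        have := entry_le (1 : Matrix (Fin 3) (Fin 3) K) (β (k + n)).1.2 j
        rwa [nn_one] at this
      calc ‖g (β (k + n)).1.2 j‖ = ‖(g (β (k + n)).1.2 j - (1 : Matrix (Fin 3) (Fin 3) K) (β (k + n)).1.2 j)
            + (1 : Matrix (Fin 3) (Fin 3) K) (β (k + n)).1.2 j‖ := by rw [sub_add_cancel]
        _ ≤ 1 + 1 := (norm_add_le _ _).trans (add_le_add h5 h6)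
        _ = 2 := by norm_num
    have h7 : ‖(if (β (k + n)).1.1 = i then t (k + n) * g (β (k + n)).1.2 j else 0)‖ ≤
        2 * ‖t (k + n)‖ := by
      split_ifs
      · rw [norm_mul]
        have := norm_nonneg (t (k + n))
        nlinarith
      · rw [norm_zero]
        positivity
    calc ‖g i j + (if (β (k + n)).1.1 = i then t (k + n) * g (β (k + n)).1.2 j else 0) -
          (1 : Matrix (Fin 3) (Fin 3) K) i j‖
        = ‖(g i j - (1 : Matrix (Fin 3) (Fin 3) K) i j) +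
          (if (β (k + n)).1.1 = i then t (k + n) * g (β (k + n)).1.2 j else 0)‖ := by
          congr 1; ring
      _ ≤ _ := (norm_add_le _ _).trans (by linarith)

/-- convergence of products -/
lemma exists_limit [CompleteSpace K] (β : ℕ → Root) (t : ℕ → K) (k : ℕ) {S : ℝ} (hS : S ≤ 1 / 2)
    (h : ∀ n, ∑ i ∈ Finset.range n, ‖t (k + i)‖ ≤ S) :
    ∃ g : SL3 K, Tendsto (fun n => pr β t 0 n) atTop (𝓝 g) := by
  have hsum : Summable fun i => 2 * ‖t (k + i)‖ :=
    (summable_of_sum_range_le (fun _ => norm_nonneg _) h).mul_left 2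
  have h0 : ∀ i j : Fin 3, ∃ a : K, Tendsto (fun n => (pr β t k n : Matrix (Fin 3) (Fin 3) K) i j)
      atTop (𝓝 a) := by
    intro i j
    refine cauchySeq_tendsto_of_complete ?_
    refine cauchySeq_of_dist_le_of_summable _ (fun n => ?_) hsum
    rw [dist_comm, dist_eq_norm, pr_succ, co_mul, U_mul_apply, add_sub_cancel_left]
    split_ifs
    · rw [norm_mul]
      set g : Matrix (Fin 3) (Fin 3) K := (pr β t k n : Matrix (Fin 3) (Fin 3) K) with hg
      have h4 : ‖g (β (k + n)).1.2 j‖ ≤ 2 := by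
        have h5 : ‖g (β (k + n)).1.2 j - (1 : Matrix (Fin 3) (Fin 3) K) (β (k + n)).1.2 j‖ ≤ 1 := by
          refine ((entry_le (g - 1) _ j).trans (pr_bound β t k hS h n)).trans ?_
          linarith [h n]
        have h6 : ‖(1 : Matrix (Fin 3) (Fin 3) K) (β (k + n)).1.2 j‖ ≤ 1 := by
          have := entry_le (1 : Matrix (Fin 3) (Fin 3) K) (β (k + n)).1.2 j
          rwa [nn_one] at this
        calc ‖g (β (k + n)).1.2 j‖ = ‖(g (β (k + n)).1.2 j - (1 : Matrix (Fin 3) (Fin 3) K) (β (k + n)).1.2 j)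
              + (1 : Matrix (Fin 3) (Fin 3) K) (β (k + n)).1.2 j‖ := by rw [sub_add_cancel]
          _ ≤ 1 + 1 := (norm_add_le _ _).trans (add_le_add h5 h6)
          _ = 2 := by norm_num
      have := norm_nonneg (t (k + n))
      nlinarith
    · rw [norm_zero]
      positivity
  choose a ha using h0
  have h1 : Tendsto (fun n => (pr β t k n : Matrix (Fin 3) (Fin 3) K)) atTop (𝓝 (Matrix.of a)) := by
    refine tendsto_pi_nhds.2 fun i => tendsto_pi_nhds.2 fun j => ha i j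
  have hdet : (Matrix.of a).det = 1 := by
    have h2 : Tendsto (fun n => (pr β t k n : Matrix (Fin 3) (Fin 3) K).det) atTop
        (𝓝 (Matrix.of a).det) := (continuous_id.matrix_det.tendsto _).comp h1
    have h3 : (fun n => (pr β t k n : Matrix (Fin 3) (Fin 3) K).det) = fun _ => 1 := by
      funext n
      exact (pr β t k n).2
    rw [h3] at h2
    exact tendsto_nhds_unique h2 tendsto_const_nhds
  have h4 : Tendsto (fun n => pr β t k n) atTop (𝓝 (⟨Matrix.of a, hdet⟩ : SL3 K)) :=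
    tendsto_subtype_rng.2 h1
  refine ⟨⟨Matrix.of a, hdet⟩ * pr β t 0 k, ?_⟩
  rw [← tendsto_add_atTop_iff_nat k]
  have h5 : (fun n => pr β t 0 (n + k)) = fun n => pr β t k n * pr β t 0 k := by
    funext n
    rw [add_comm n k, pr_add, zero_add]
  rw [h5]
  exact h4.mul_const _

/-- the tail of a convergent product -/
lemma limit_near (β : ℕ → Root) (t : ℕ → K) (k : ℕ) {S : ℝ} (hS : S ≤ 1 / 2)
    (h : ∀ n, ∑ i ∈ Finset.range n, ‖t (k + i)‖ ≤ S) {g : SL3 K}
    (hg : Tendsto (fun n => pr β t 0 n) atTop (𝓝 g)) :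
    nn (((g * (pr β t 0 k)⁻¹ : SL3 K) : Matrix (Fin 3) (Fin 3) K) - 1) ≤ 2 * S := by
  have h1 : Tendsto (fun n => pr β t k n) atTop (𝓝 (g * (pr β t 0 k)⁻¹)) := by
    have h2 : Tendsto (fun n => pr β t 0 (n + k)) atTop (𝓝 g) := (tendsto_add_atTop_iff_nat k).2 hg
    have h3 := h2.mul_const (pr β t 0 k)⁻¹
    refine h3.congr fun n => ?_
    rw [add_comm n k, pr_add, zero_add, mul_inv_cancel_right]
  refine le_of_tendsto ((continuous_nn_sl.tendsto _).comp h1) (Eventually.of_forall fun n => ?_)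
  exact (pr_bound β t k hS h n).trans (by linarith [h n])

end norm

section G

variable (p : ℕ) [hp : Fact p.Prime]

/-- the diagonal embedding of the rational points -/
noncomputable def io : SL3 ℚ →* G p :=
  (SpecialLinearGroup.map (algebraMap ℚ ℝ)).prod (SpecialLinearGroup.map (algebraMap ℚ ℚ_[p]))

lemma io_fst (q : SL3 ℚ) : (io p q).1 = rat ℝ q := rfl

lemma io_snd (q : SL3 ℚ) : (io p q).2 = rat ℚ_[p] q := rfl

lemma io_injective : Function.Injective (io p) := by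
  intro a b h
  have h1 : (io p a).1 = (io p b).1 := by rw [h]
  apply Subtype.ext
  ext i j
  have h2 : ((io p a).1 : Matrix (Fin 3) (Fin 3) ℝ) i j = ((io p b).1 : Matrix (Fin 3) (Fin 3) ℝ) i j := by
    rw [h1]
  exact (algebraMap ℚ ℝ).injective h2

lemma io_pr_fst (β : ℕ → Root) (t : ℕ → ℚ) (k n : ℕ) :
    (io p (pr β t k n)).1 = pr β (fun j => (t j : ℝ)) k n := map_pr _ _ _ _ _

lemma io_pr_snd (β : ℕ → Root) (t : ℕ → ℚ) (k n : ℕ) :
    (io p (pr β t k n)).2 = pr β (fun j => (t j : ℚ_[p])) k n := map_pr _ _ _ _ _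

variable {p}

lemma half_bound (k : ℕ) : (1 / 2 : ℝ) ^ (k + 14) / (sD p k : ℝ) ^ 2 ≤ 1 / 2 := by
  have h1 : (1 : ℝ) ≤ (sD p k : ℝ) := by exact_mod_cast sD_pos (p := p) k
  calc (1 / 2 : ℝ) ^ (k + 14) / (sD p k : ℝ) ^ 2 ≤ (1 / 2 : ℝ) ^ (k + 14) / 1 := by
        gcongr
        exact one_le_pow₀ h1
    _ ≤ (1 / 2) ^ 1 := by
        rw [div_one]
        exact pow_le_pow_of_le_one (by norm_num) (by norm_num) (by omega)
    _ = 1 / 2 := by norm_num

lemma sum_real {n : ℕ → ℤ} {k : ℕ} (h : ∀ j, k ≤ j → good p j (n j)) (m : ℕ) :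
    ∑ i ∈ Finset.range m, ‖((tau p n (k + i) : ℚ) : ℝ)‖ ≤ (1 / 2) ^ (k + 14) / (sD p k : ℝ) ^ 2 :=
  (Finset.sum_le_sum fun i _ => tau_real (h (k + i) (Nat.le_add_right k i))).trans (sum_ep k m)

lemma sum_padic {n : ℕ → ℤ} {k : ℕ} (h : ∀ j, k ≤ j → good p j (n j)) (m : ℕ) :
    ∑ i ∈ Finset.range m, ‖((tau p n (k + i) : ℚ) : ℚ_[p])‖ ≤ (1 / 2) ^ (k + 14) / (sD p k : ℝ) ^ 2 :=
  (Finset.sum_le_sum fun i _ => tau_padic (h (k + i) (Nat.le_add_right k i))).trans (sum_ep k m)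

/-- convergence in `G` -/
lemma exists_limit_G (β : ℕ → Root) {n : ℕ → ℤ} {k : ℕ} (h : ∀ j, k ≤ j → good p j (n j)) :
    ∃ g : G p, Tendsto (fun m => io p (pr β (tau p n) 0 m)) atTop (𝓝 g) := by
  obtain ⟨g1, h1⟩ := exists_limit β (fun j => ((tau p n j : ℚ) : ℝ)) k (half_bound (p := p) k)
    (sum_real h)
  obtain ⟨g2, h2⟩ := exists_limit β (fun j => ((tau p n j : ℚ) : ℚ_[p])) k (half_bound (p := p) k)
    (sum_padic h)
  refine ⟨(g1, g2), ?_⟩
  rw [Prod.tendsto_iff]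
  constructor
  · simpa only [io_pr_fst] using h1
  · simpa only [io_pr_snd] using h2

/-- the tail is close to `1` -/
lemma limit_near_G (β : ℕ → Root) {n : ℕ → ℤ} {k : ℕ} (h : ∀ j, k ≤ j → good p j (n j)) {g : G p}
    (hg : Tendsto (fun m => io p (pr β (tau p n) 0 m)) atTop (𝓝 g)) :
    nn (((g * (io p (pr β (tau p n) 0 k))⁻¹).1 : Matrix (Fin 3) (Fin 3) ℝ) - 1) ≤
        (1 / 2) ^ (k + 13) / (sD p k : ℝ) ^ 2 ∧
      nn (((g * (io p (pr β (tau p n) 0 k))⁻¹).2 : Matrix (Fin 3) (Fin 3) ℚ_[p]) - 1) ≤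
        (1 / 2) ^ (k + 13) / (sD p k : ℝ) ^ 2 := by
  have e : (1 / 2 : ℝ) ^ (k + 13) / (sD p k : ℝ) ^ 2 = 2 * ((1 / 2) ^ (k + 14) / (sD p k : ℝ) ^ 2) := by
    rw [pow_succ (1 / 2 : ℝ) (k + 13)]
    ring
  rw [Prod.tendsto_iff] at hg
  rw [e]
  constructor
  · have h1 : Tendsto (fun m => pr β (fun j => ((tau p n j : ℚ) : ℝ)) 0 m) atTop (𝓝 g.1) := by
      simpa only [io_pr_fst] using hg.1
    have h2 := limit_near β (fun j => ((tau p n j : ℚ) : ℝ)) k (half_bound (p := p) k)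
      (sum_real h) h1
    rw [← io_pr_fst p] at h2
    exact h2
  · have h1 : Tendsto (fun m => pr β (fun j => ((tau p n j : ℚ) : ℚ_[p])) 0 m) atTop (𝓝 g.2) := by
      simpa only [io_pr_snd] using hg.2
    have h2 := limit_near β (fun j => ((tau p n j : ℚ) : ℚ_[p])) k (half_bound (p := p) k)
      (sum_padic h) h1
    rw [← io_pr_snd p] at h2
    exact h2

end G

end Pool.Agent.Y319.MR
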