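import Mathlib
import Pool.Agent.Y319.MR.Conv

/-! Integrality of the products, the lattice, equivariance -/

set_option autoImplicit false
set_option linter.unusedSectionVars false

namespace Pool.Agent.Y319.MR

open Matrix Filter Topology

section integrality

variable {p : ℕ}

/-- all entries in `ℤ[1/p]` -/
def IntM (p : ℕ) (A : Matrix (Fin 3) (Fin 3) ℚ) : Prop := ∀ i j, A i j ∈ ZInv p

lemma IntM.add {A B : Matrix (Fin 3) (Fin 3) ℚ} (hA : IntM p A) (hB : IntM p B) : IntM p (A + B) :=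
  fun i j => add_mem (hA i j) (hB i j)

lemma IntM.sub {A B : Matrix (Fin 3) (Fin 3) ℚ} (hA : IntM p A) (hB : IntM p B) : IntM p (A - B) :=
  fun i j => sub_mem (hA i j) (hB i j)

lemma IntM.mul {A B : Matrix (Fin 3) (Fin 3) ℚ} (hA : IntM p A) (hB : IntM p B) :
    IntM p (A * B) := fun i j => by
  rw [mul_apply]
  exact sum_mem fun k _ => mul_mem (hA i k) (hB k j)

lemma IntM.smul {A : Matrix (Fin 3) (Fin 3) ℚ} {r : ℚ} (hr : r ∈ ZInv p) (hA : IntM p A) :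
    IntM p (r • A) := fun i j => mul_mem hr (hA i j)

lemma intM_one : IntM p 1 := fun i j => by
  rw [one_apply]
  split_ifs
  · exact one_mem _
  · exact zero_mem _

lemma intM_single (i j : Fin 3) {r : ℚ} (hr : r ∈ ZInv p) : IntM p (single i j r) := fun k l => by
  rw [single_apply]
  split_ifs
  · exact hr
  · exact zero_mem _

lemma nat_mem (n : ℕ) : (n : ℚ) ∈ ZInv p := natCast_mem _ n

lemma int_mem (n : ℤ) : (n : ℚ) ∈ ZInv p := intCast_mem _ n

lemma pinv_mem : (p : ℚ)⁻¹ ∈ ZInv p := Subring.subset_closure rfl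

lemma zpow_mem (n : ℤ) : (p : ℚ) ^ n ∈ ZInv p := by
  rcases n with n | n
  · rw [Int.ofNat_eq_natCast, zpow_natCast]
    exact pow_mem (nat_mem p) n
  · rw [zpow_negSucc, ← inv_pow]
    exact pow_mem pinv_mem _

variable [hp : Fact p.Prime]

/-- elements of `ℤ[1/p]` have denominators powers of `p` -/
lemma exists_pow_mul {x : ℚ} (hx : x ∈ ZInv p) : ∃ (k : ℕ) (z : ℤ), (p : ℚ) ^ k * x = z := by
  have hp0 : (p : ℚ) ≠ 0 := by exact_mod_cast hp.out.ne_zero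
  unfold ZInv at hx
  induction hx using Subring.closure_induction with
  | mem x hx =>
    rw [Set.mem_singleton_iff] at hx
    exact ⟨1, 1, by rw [hx, pow_one, mul_inv_cancel₀ hp0, Int.cast_one]⟩
  | zero => exact ⟨0, 0, by simp⟩
  | one => exact ⟨0, 1, by simp⟩
  | add x y _ _ hx hy =>
    obtain ⟨k, z, h1⟩ := hx
    obtain ⟨l, w, h2⟩ := hy
    refine ⟨k + l, (p : ℤ) ^ l * z + (p : ℤ) ^ k * w, ?_⟩
    push_cast
    rw [← h1, ← h2]
    ring
  | neg x _ hx =>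
    obtain ⟨k, z, h1⟩ := hx
    exact ⟨k, -z, by rw [Int.cast_neg, ← h1]; ring⟩
  | mul x y _ _ hx hy =>
    obtain ⟨k, z, h1⟩ := hx
    obtain ⟨l, w, h2⟩ := hy
    exact ⟨k + l, z * w, by rw [Int.cast_mul, ← h1, ← h2]; ring⟩

/-- the product formula -/
lemma prod_formula {x : ℚ} (hx : x ∈ ZInv p) (h : ‖(x : ℝ)‖ * ‖(x : ℚ_[p])‖ < 1) : x = 0 := by
  obtain ⟨k, z, hz⟩ := exists_pow_mul hx
  have hp0 : (p : ℚ) ≠ 0 := by exact_mod_cast hp.out.ne_zero
  have hpR : (0 : ℝ) < p := by exact_mod_cast hp.out.pos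
  by_contra hx0
  have hz0 : z ≠ 0 := by
    intro h0
    rw [h0, Int.cast_zero, mul_eq_zero] at hz
    rcases hz with hz | hz
    · exact pow_ne_zero k hp0 hz
    · exact hx0 hz
  have hzR : (z : ℝ) = (p : ℝ) ^ k * (x : ℝ) := by
    have := congrArg (fun q : ℚ => (q : ℝ)) hz
    push_cast at this
    exact this.symm
  have hzp : (z : ℚ_[p]) = (p : ℚ_[p]) ^ k * (x : ℚ_[p]) := by
    have := congrArg (fun q : ℚ => (q : ℚ_[p])) hz
    push_cast at this
    exact this.symm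
  have h1 : ‖(x : ℝ)‖ * ‖(x : ℚ_[p])‖ = ‖(z : ℝ)‖ * ‖(z : ℚ_[p])‖ := by
    rw [hzR, hzp, norm_mul, norm_mul, Padic.norm_p_pow, norm_pow, Real.norm_of_nonneg hpR.le,
      _root_.zpow_neg, zpow_natCast]
    field_simp
  have h2 : (1 : ℝ) ≤ ‖(z : ℝ)‖ * ‖(z : ℚ_[p])‖ := by
    have h3 : ‖(z : ℚ_[p])‖ = (p : ℝ) ^ (-(padicValInt p z : ℤ)) := by
      have := Padic.norm_eq_zpow_neg_valuation (p := p) (x := (z : ℚ_[p])) (by exact_mod_cast hz0)
      rw [this, Padic.valuation_intCast]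
    have h4 : (p : ℤ) ^ padicValInt p z ∣ z := padicValInt_dvd z
    have h5 : (p : ℤ) ^ padicValInt p z ≤ |z| := Int.le_of_dvd (abs_pos.2 hz0) ((dvd_abs _ _).2 h4)
    have h6 : (p : ℝ) ^ padicValInt p z ≤ ‖(z : ℝ)‖ := by
      rw [Real.norm_eq_abs]
      exact_mod_cast h5
    rw [h3, _root_.zpow_neg, zpow_natCast, ← div_eq_mul_inv, one_le_div (by positivity)]
    exact h6
  rw [h1] at h
  linarith

/-- the difference of two translation lengths for congruent exponents -/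
lemma tau_diff {n n' : ℕ → ℤ} {j : ℕ} (h : (n j : ZMod (sM p j)) = n' j) :
    ∃ r ∈ ZInv p, tau p n' j - tau p n j = (sD p j : ℚ) ^ 2 * r := by
  have hp0 : (p : ℚ) ≠ 0 := by exact_mod_cast hp.out.ne_zero
  wlog hle : n j ≤ n' j generalizing n n'
  · obtain ⟨r, hr, e⟩ := this h.symm (by omega)
    exact ⟨-r, neg_mem hr, by rw [mul_neg, ← e]; ring⟩
  have h1 : ((sM p j : ℕ) : ℤ) ∣ n' j - n j := by
    rw [← ZMod.intCast_zmod_eq_zero_iff_dvd, Int.cast_sub, h, sub_self]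
  obtain ⟨c, hc⟩ := h1
  have hc0 : 0 ≤ c := by
    by_contra hneg
    have h2 : (0 : ℤ) < (sM p j : ℤ) := by exact_mod_cast sM_pos p j
    nlinarith
  obtain ⟨m, rfl⟩ := Int.eq_ofNat_of_zero_le hc0
  have e1 : n' j = n j + (sM p j : ℤ) * (m : ℤ) := by linarith
  have e2 : (p : ℚ) ^ (n' j) = (p : ℚ) ^ (n j) * ((p : ℚ) ^ sM p j) ^ m := by
    rw [e1, zpow_add₀ hp0, _root_.zpow_mul, zpow_natCast, zpow_natCast]
  have e3 : ((p : ℚ) ^ sM p j) ^ m - 1 =
      (∑ i ∈ Finset.range m, ((p : ℚ) ^ sM p j) ^ i) * ((p : ℚ) ^ sM p j - 1) :=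
    (geom_sum_mul ((p : ℚ) ^ sM p j) m).symm
  refine ⟨(p : ℚ) ^ (n j) * ∑ i ∈ Finset.range m, ((p : ℚ) ^ sM p j) ^ i, ?_, ?_⟩
  · refine mul_mem (zpow_mem _) (sum_mem fun i _ => ?_)
    rw [← pow_mul]
    exact pow_mem (nat_mem p) _
  · have hN : (sN p j : ℚ) ≠ 0 := by exact_mod_cast (sN_pos (p := p) j).ne'
    unfold tau th
    rw [e2]
    have e4 : (p : ℚ) ^ n j * ((p : ℚ) ^ sM p j) ^ m * ((sD p j : ℚ) ^ 2 / (sN p j : ℚ)) -
        (p : ℚ) ^ n j * ((sD p j : ℚ) ^ 2 / (sN p j : ℚ)) =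
        (p : ℚ) ^ n j * (((p : ℚ) ^ sM p j) ^ m - 1) * ((sD p j : ℚ) ^ 2 / (sN p j : ℚ)) := by ring
    rw [e4, e3, ← sN_cast]
    field_simp

lemma sN_tau (n : ℕ → ℤ) (j : ℕ) : (sN p j : ℚ) * tau p n j = (sD p j : ℚ) ^ 2 * (p : ℚ) ^ (n j) := by
  have hN : (sN p j : ℚ) ≠ 0 := by exact_mod_cast (sN_pos (p := p) j).ne'
  unfold tau th
  field_simp

lemma coQ_mul (A B : SL3 ℚ) : ((A * B : SL3 ℚ) : Matrix (Fin 3) (Fin 3) ℚ) =
    (A : Matrix (Fin 3) (Fin 3) ℚ) * (B : Matrix (Fin 3) (Fin 3) ℚ) := rfl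

lemma coQ_one : ((1 : SL3 ℚ) : Matrix (Fin 3) (Fin 3) ℚ) = 1 := rfl

lemma coQ_U (β : Root) (t : ℚ) : (U β t : Matrix (Fin 3) (Fin 3) ℚ) = 1 + t • single β.1.1 β.1.2 1 := by
  rw [U_coe, Matrix.smul_single, smul_eq_mul, mul_one]

lemma int_D (β : ℕ → Root) (n : ℕ → ℤ) (k : ℕ) :
    IntM p ((sD p k : ℚ) • (pr β (tau p n) 0 k : Matrix (Fin 3) (Fin 3) ℚ)) := by
  induction k with
  | zero =>
    rw [pr_zero, coQ_one]
    exact intM_one.smul (nat_mem _)
  | succ k ih =>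
    rw [pr_succ, coQ_mul, zero_add, coQ_U, sD_succ]
    have e : (((sD p k * sN p k : ℕ) : ℚ)) • ((1 + tau p n k • single (β k).1.1 (β k).1.2 1) *
        (pr β (tau p n) 0 k : Matrix (Fin 3) (Fin 3) ℚ)) =
        (sN p k : ℚ) • ((sD p k : ℚ) • (pr β (tau p n) 0 k : Matrix (Fin 3) (Fin 3) ℚ)) +
        ((sD p k : ℚ) ^ 2 * (p : ℚ) ^ (n k)) • (single (β k).1.1 (β k).1.2 1 *
          ((sD p k : ℚ) • (pr β (tau p n) 0 k : Matrix (Fin 3) (Fin 3) ℚ))) := by
      rw [← sN_tau, add_mul, one_mul, smul_add]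
      simp only [smul_mul_assoc, mul_smul_comm, smul_smul]
      push_cast
      congr 2 <;> ring
    rw [e]
    refine (ih.smul (nat_mem _)).add (IntM.smul (mul_mem (pow_mem (nat_mem _) 2) (zpow_mem _)) ?_)
    exact (intM_single _ _ (one_mem _)).mul ih

lemma int_D_inv (β : ℕ → Root) (n : ℕ → ℤ) (k : ℕ) :
    IntM p ((sD p k : ℚ) • (((pr β (tau p n) 0 k)⁻¹ : SL3 ℚ) : Matrix (Fin 3) (Fin 3) ℚ)) := by
  induction k with
  | zero =>
    rw [pr_zero, inv_one, coQ_one]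
    exact intM_one.smul (nat_mem _)
  | succ k ih =>
    rw [pr_succ, _root_.mul_inv_rev, coQ_mul, zero_add, ← U_neg, coQ_U, sD_succ]
    have e : (((sD p k * sN p k : ℕ) : ℚ)) • ((((pr β (tau p n) 0 k)⁻¹ : SL3 ℚ) : Matrix (Fin 3) (Fin 3) ℚ)
        * (1 + (-tau p n k) • single (β k).1.1 (β k).1.2 1)) =
        (sN p k : ℚ) • ((sD p k : ℚ) • (((pr β (tau p n) 0 k)⁻¹ : SL3 ℚ) : Matrix (Fin 3) (Fin 3) ℚ)) +
        (-((sD p k : ℚ) ^ 2 * (p : ℚ) ^ (n k))) • (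
          ((sD p k : ℚ) • (((pr β (tau p n) 0 k)⁻¹ : SL3 ℚ) : Matrix (Fin 3) (Fin 3) ℚ)) *
            single (β k).1.1 (β k).1.2 1) := by
      rw [← sN_tau, mul_add, mul_one, smul_add]
      simp only [smul_mul_assoc, mul_smul_comm, smul_smul]
      push_cast
      congr 2 <;> ring
    rw [e]
    refine (ih.smul (nat_mem _)).add (IntM.smul (neg_mem (mul_mem (pow_mem (nat_mem _) 2) (zpow_mem _))) ?_)
    exact ih.mul (intM_single _ _ (one_mem _))

lemma int_diff (β : ℕ → Root) {n n' : ℕ → ℤ} (h : ∀ j, (n j : ZMod (sM p j)) = n' j) (k : ℕ) :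
    IntM p (((pr β (tau p n) 0 k)⁻¹ * pr β (tau p n') 0 k : SL3 ℚ) : Matrix (Fin 3) (Fin 3) ℚ) := by
  induction k with
  | zero =>
    rw [pr_zero, pr_zero, inv_one, one_mul, coQ_one]
    exact intM_one
  | succ k ih =>
    obtain ⟨r, hr, e1⟩ := tau_diff (h k)
    rw [pr_succ, pr_succ, zero_add, _root_.mul_inv_rev, mul_assoc, ← mul_assoc (U _ _)⁻¹, ← U_neg, ← U_add,
      neg_add_eq_sub, e1, coQ_mul, coQ_mul, coQ_U, add_mul, one_mul, mul_add]
    refine IntM.add ih ?_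
    have e2 : (((pr β (tau p n) 0 k)⁻¹ : SL3 ℚ) : Matrix (Fin 3) (Fin 3) ℚ) *
        ((((sD p k : ℚ) ^ 2 * r) • single (β k).1.1 (β k).1.2 1) *
        (pr β (tau p n') 0 k : Matrix (Fin 3) (Fin 3) ℚ)) =
        r • (((sD p k : ℚ) • (((pr β (tau p n) 0 k)⁻¹ : SL3 ℚ) : Matrix (Fin 3) (Fin 3) ℚ)) *
          (single (β k).1.1 (β k).1.2 1 *
          ((sD p k : ℚ) • (pr β (tau p n') 0 k : Matrix (Fin 3) (Fin 3) ℚ)))) := by
      simp only [smul_mul_assoc, mul_smul_comm, smul_smul]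
      congr 1
      ring
    rw [e2]
    exact IntM.smul hr ((int_D_inv β n k).mul ((intM_single _ _ (one_mem _)).mul (int_D β n' k)))

end integrality

section lattice

variable {p : ℕ} [hp : Fact p.Prime]

lemma mem_Gam_of_int (q : SL3 ℚ) (h : IntM p (q : Matrix (Fin 3) (Fin 3) ℚ)) : io p q ∈ Gam p := by
  have hdet : (Matrix.of fun i j => (⟨q i j, h i j⟩ : ZInv p)).det = 1 := by
    apply (ZInv p).subtype_injective
    rw [RingHom.map_det, map_one]
    exact q.2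
  refine ⟨⟨Matrix.of fun i j => (⟨q i j, h i j⟩ : ZInv p), hdet⟩, ?_⟩
  refine Prod.ext ?_ ?_
  · apply Subtype.ext
    rfl
  · apply Subtype.ext
    rfl

lemma exists_of_mem_Gam {g : G p} (h : g ∈ Gam p) :
    ∃ q : SL3 ℚ, IntM p (q : Matrix (Fin 3) (Fin 3) ℚ) ∧ io p q = g := by
  obtain ⟨γ, rfl⟩ := h
  refine ⟨SpecialLinearGroup.map (ZInv p).subtype γ, fun i j => (γ i j).2, ?_⟩
  refine Prod.ext ?_ ?_
  · apply Subtype.ext
    rfl
  · apply Subtype.ext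
    rfl

/-- the elements of `Γ` near `1` -/
lemma Gam_near {g : G p} (h : g ∈ Gam p) (h1 : nn ((g.1 : Matrix (Fin 3) (Fin 3) ℝ) - 1) < 1)
    (h2 : nn ((g.2 : Matrix (Fin 3) (Fin 3) ℚ_[p]) - 1) ≤ 1) : g = 1 := by
  obtain ⟨q, hq, rfl⟩ := exists_of_mem_Gam h
  have h3 : q = 1 := by
    apply Subtype.ext
    ext i j
    have h4 : (q i j - (1 : Matrix (Fin 3) (Fin 3) ℚ) i j) = 0 := by
      refine prod_formula (p := p) (sub_mem (hq i j) (intM_one i j)) ?_
      have h5 : ‖((q i j - (1 : Matrix (Fin 3) (Fin 3) ℚ) i j : ℚ) : ℝ)‖ < 1 := by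
        refine lt_of_le_of_lt (le_of_eq ?_)
          (lt_of_le_of_lt (entry_le (((io p q).1 : Matrix (Fin 3) (Fin 3) ℝ) - 1) i j) h1)
        congr 1
        rw [Matrix.sub_apply, Rat.cast_sub]
        congr 1
        rw [one_apply, one_apply]
        split_ifs <;> simp
      have h6 : ‖((q i j - (1 : Matrix (Fin 3) (Fin 3) ℚ) i j : ℚ) : ℚ_[p])‖ ≤ 1 := by
        refine le_trans (le_of_eq ?_) ((entry_le (((io p q).2 : Matrix (Fin 3) (Fin 3) ℚ_[p]) - 1) i j).trans h2)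
        congr 1
        rw [Matrix.sub_apply, Rat.cast_sub]
        congr 1
        rw [one_apply, one_apply]
        split_ifs <;> simp
      calc _ ≤ ‖((q i j - (1 : Matrix (Fin 3) (Fin 3) ℚ) i j : ℚ) : ℝ)‖ * 1 :=
            mul_le_mul_of_nonneg_left h6 (norm_nonneg _)
        _ < 1 := by rw [mul_one]; exact h5
    exact sub_eq_zero.1 h4
  rw [h3, map_one]

instance : IsTopologicalGroup (G p) := inferInstance

lemma Gam_discrete : DiscreteTopology (Gam p) := by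
  refine discreteTopology_of_isOpen_singleton_one ?_
  have ho : IsOpen {g : Gam p | nn (((g : G p).1 : Matrix (Fin 3) (Fin 3) ℝ) - 1) < 1 ∧
      nn (((g : G p).2 : Matrix (Fin 3) (Fin 3) ℚ_[p]) - 1) < 1} := by
    refine IsOpen.inter ?_ ?_
    · exact isOpen_lt (continuous_nn_sl.comp (continuous_fst.comp continuous_subtype_val))
        continuous_const
    · exact isOpen_lt (continuous_nn_sl.comp (continuous_snd.comp continuous_subtype_val))
        continuous_const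
  convert ho using 1
  ext g
  rw [Set.mem_singleton_iff, Set.mem_ofPred_eq]
  constructor
  · rintro rfl
    have e1 : nn ((((1 : Gam p) : G p).1 : Matrix (Fin 3) (Fin 3) ℝ) - 1) = 0 := by
      rw [nn_eq_zero, sub_eq_zero]
      rfl
    have e2 : nn ((((1 : Gam p) : G p).2 : Matrix (Fin 3) (Fin 3) ℚ_[p]) - 1) = 0 := by
      rw [nn_eq_zero, sub_eq_zero]
      rfl
    rw [e1, e2]
    norm_num
  · rintro ⟨h1, h2⟩
    exact Subtype.ext (Gam_near g.2 h1 h2.le)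

lemma Gam_closed : IsClosed (Gam p : Set (G p)) :=
  haveI := Gam_discrete (p := p)
  Subgroup.isClosed_of_discrete

instance : Countable (Gam p) := by
  have : (Gam p : Set (G p)) ⊆ Set.range (io p) := by
    intro g hg
    obtain ⟨q, -, rfl⟩ := exists_of_mem_Gam hg
    exact ⟨q, rfl⟩
  have h1 : Countable (SL3 ℚ) := by
    have h2 : Countable (Matrix (Fin 3) (Fin 3) ℚ) :=
      inferInstanceAs (Countable (Fin 3 → Fin 3 → ℚ))
    exact Subtype.countable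
  exact ((Set.countable_range (io p)).mono this).to_subtype

/-- well definedness of the limit points -/
lemma mk_eq_of_lim (β : ℕ → Root) {n n' : ℕ → ℤ} (h : ∀ j, (n j : ZMod (sM p j)) = n' j)
    {g g' : G p} (hg : Tendsto (fun m => io p (pr β (tau p n) 0 m)) atTop (𝓝 g))
    (hg' : Tendsto (fun m => io p (pr β (tau p n') 0 m)) atTop (𝓝 g')) :
    (QuotientGroup.mk g : X p) = QuotientGroup.mk g' := by
  rw [QuotientGroup.eq]
  refine Gam_closed.mem_of_tendsto (hg.inv.mul hg') (Eventually.of_forall fun m => ?_)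
  show (io p (pr β (tau p n) 0 m))⁻¹ * io p (pr β (tau p n') 0 m) ∈ Gam p
  rw [← map_inv, ← map_mul]
  exact mem_Gam_of_int _ (int_diff β h m)

end lattice

section torus

variable (p : ℕ) [hp : Fact p.Prime]

/-- the exponents -/
def ex (x : ℤ × ℤ) : Fin 3 → ℤ := ![x.1, x.2, -(x.1 + x.2)]

lemma ex_add (x y : ℤ × ℤ) (i : Fin 3) : ex (x + y) i = ex x i + ex y i := by
  fin_cases i
  · rfl
  · rfl
  · show -(x.1 + y.1 + (x.2 + y.2)) = -(x.1 + x.2) + -(y.1 + y.2)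
    ring

lemma ex_sum (x : ℤ × ℤ) : ∑ i, ex x i = 0 := by
  simp [ex, Fin.sum_univ_three]

lemma dq_det (x : ℤ × ℤ) : (diagonal fun i => (p : ℚ) ^ ex x i : Matrix (Fin 3) (Fin 3) ℚ).det = 1 := by
  have hp0 : (p : ℚ) ≠ 0 := by exact_mod_cast hp.out.ne_zero
  rw [det_diagonal, Fin.prod_univ_three, ← zpow_add₀ hp0, ← zpow_add₀ hp0]
  have := ex_sum x
  rw [Fin.sum_univ_three] at this
  rw [this, zpow_zero]

/-- `diag(p^a, p^b, p^(-a-b))` -/
noncomputable def dq (x : ℤ × ℤ) : SL3 ℚ := ⟨diagonal fun i => (p : ℚ) ^ ex x i, dq_det p x⟩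

/-- as a homomorphism -/
noncomputable def dqHom : Multiplicative (ℤ × ℤ) →* SL3 ℚ where
  toFun x := dq p x.toAdd
  map_one' := by
    apply Subtype.ext
    show diagonal (fun i => (p : ℚ) ^ ex 0 i) = 1
    rw [← diagonal_one]
    congr 1
    funext i
    fin_cases i <;> simp [ex]
  map_mul' x y := by
    have hp0 : (p : ℚ) ≠ 0 := by exact_mod_cast hp.out.ne_zero
    apply Subtype.ext
    show diagonal (fun i => (p : ℚ) ^ ex (x.toAdd + y.toAdd) i) =
      diagonal (fun i => (p : ℚ) ^ ex x.toAdd i) * diagonal (fun i => (p : ℚ) ^ ex y.toAdd i)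
    rw [diagonal_mul_diagonal]
    congr 1
    funext i
    rw [ex_add, zpow_add₀ hp0]

lemma dqHom_apply (x : Multiplicative (ℤ × ℤ)) : dqHom p x = dq p x.toAdd := rfl

/-- the homomorphism `ℤ² → G` with image `A` -/
noncomputable def aHom : Multiplicative (ℤ × ℤ) →* G p := (io p).comp (dqHom p)

/-- the shifts -/
def chi (β : ℕ → Root) (x : ℤ × ℤ) (j : ℕ) : ℤ := ex x (β j).1.1 - ex x (β j).1.2

variable {p}

lemma dq_intM (x : ℤ × ℤ) : IntM p (dq p x : Matrix (Fin 3) (Fin 3) ℚ) := by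
  intro i j
  show (diagonal (fun i => (p : ℚ) ^ ex x i) : Matrix (Fin 3) (Fin 3) ℚ) i j ∈ ZInv p
  rw [diagonal_apply]
  split_ifs
  · exact zpow_mem _
  · exact zero_mem _

lemma aHom_mem (x : Multiplicative (ℤ × ℤ)) : aHom p x ∈ Gam p := mem_Gam_of_int _ (dq_intM _)

lemma dq_conj_U (x : ℤ × ℤ) (β : Root) (t : ℚ) :
    dq p x * U β t = U β ((p : ℚ) ^ (ex x β.1.1 - ex x β.1.2) * t) * dq p x := by
  have hp0 : (p : ℚ) ≠ 0 := by exact_mod_cast hp.out.ne_zero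
  apply Subtype.ext
  show (diagonal fun i => (p : ℚ) ^ ex x i) * (1 + single β.1.1 β.1.2 t) =
    (1 + single β.1.1 β.1.2 ((p : ℚ) ^ (ex x β.1.1 - ex x β.1.2) * t)) * (diagonal fun i => (p : ℚ) ^ ex x i)
  rw [mul_add, add_mul, mul_one, one_mul]
  congr 1
  ext i j
  rw [diagonal_mul, mul_diagonal, single_apply, single_apply]
  split_ifs with h
  · obtain ⟨rfl, rfl⟩ := h
    rw [zpow_sub₀ hp0]
    have : (p : ℚ) ^ ex x β.1.2 ≠ 0 := zpow_ne_zero _ hp0
    field_simp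
  · simp

lemma dq_conj_pr (β : ℕ → Root) (n : ℕ → ℤ) (x : ℤ × ℤ) (k : ℕ) :
    dq p x * pr β (tau p n) 0 k = pr β (tau p (fun j => n j + chi β x j)) 0 k * dq p x := by
  have hp0 : (p : ℚ) ≠ 0 := by exact_mod_cast hp.out.ne_zero
  induction k with
  | zero => rw [pr_zero, pr_zero, mul_one, one_mul]
  | succ k ih =>
    rw [pr_succ, pr_succ, ← mul_assoc, dq_conj_U, mul_assoc, ih, ← mul_assoc]
    congr 3
    rw [zero_add]
    unfold tau chi
    rw [zpow_add₀ hp0]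
    ring

/-- equivariance -/
lemma smul_mk_of_lim (β : ℕ → Root) {n n' : ℕ → ℤ} (x : Multiplicative (ℤ × ℤ))
    (h : ∀ j, (((n j + chi β x.toAdd j : ℤ)) : ZMod (sM p j)) = n' j)
    {g g' : G p} (hg : Tendsto (fun m => io p (pr β (tau p n) 0 m)) atTop (𝓝 g))
    (hg' : Tendsto (fun m => io p (pr β (tau p n') 0 m)) atTop (𝓝 g')) :
    aHom p x • (QuotientGroup.mk g : X p) = QuotientGroup.mk g' := by
  have h1 : Tendsto (fun m => io p (pr β (tau p (fun j => n j + chi β x.toAdd j)) 0 m)) atTop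
      (𝓝 (aHom p x * g * (aHom p x)⁻¹)) := by
    have h2 := (hg.const_mul (aHom p x)).mul_const (aHom p x)⁻¹
    refine h2.congr fun m => ?_
    show io p (dq p x.toAdd) * _ * (io p (dq p x.toAdd))⁻¹ = _
    rw [← map_mul, dq_conj_pr, map_mul, mul_inv_cancel_right]
  have h3 := mk_eq_of_lim β h h1 hg'
  rw [← h3]
  show (QuotientGroup.mk (aHom p x * g) : X p) = _
  rw [QuotientGroup.eq]
  have : (aHom p x * g)⁻¹ * (aHom p x * g * (aHom p x)⁻¹) = (aHom p x)⁻¹ := by group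
  rw [this]
  exact inv_mem (aHom_mem x)

end torus

end Pool.Agent.Y319.MR
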