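import Mathlib
import Pool.Agent.Y319.MR.Conv
import Pool.Agent.Y319.MR.Wd

/-! The nontrivial elements of the acting group are of class-`𝒜` -/

set_option autoImplicit false
set_option linter.unusedSectionVars false

namespace Pool.Agent.Y319.MR

open Matrix Topology Filter

section expsum

variable {K : Type} [NormedField K] (π : K)

/-- a family of characters of `ℤ` -/
noncomputable def pw (hπ : π ≠ 0) (n : ℤ) : Multiplicative ℤ →* K where
  toFun s := π ^ (s.toAdd * n)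
  map_one' := by simp
  map_mul' x y := by
    show π ^ ((x.toAdd + y.toAdd) * n) = _
    rw [add_mul, zpow_add₀ hπ]

/-- evaluation of exponential sums -/
noncomputable def Evl (hπ : π ≠ 0) (n : ℤ) : MonoidAlgebra K (Multiplicative ℤ) →ₐ[K] K :=
  MonoidAlgebra.lift K K (Multiplicative ℤ) (pw π hπ n)

/-- exponential sums -/
def ES (hπ : π ≠ 0) (f : ℤ → K) : Prop := ∃ c : MonoidAlgebra K (Multiplicative ℤ), ∀ n, f n = Evl π hπ n c

variable {π} {hπ : π ≠ 0}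

lemma ES_congr {f g : ℤ → K} (h : ∀ n, f n = g n) (hg : ES π hπ g) : ES π hπ f := by
  have : f = g := funext h
  rwa [this]

lemma ES_exp (s : ℤ) : ES π hπ fun n => π ^ (s * n) := by
  refine ⟨MonoidAlgebra.single (Multiplicative.ofAdd s) 1, fun n => ?_⟩
  unfold Evl
  rw [MonoidAlgebra.lift_single, one_smul]
  rfl

lemma ES_const (a : K) : ES π hπ fun _ => a :=
  ⟨algebraMap K _ a, fun n => by rw [AlgHom.commutes]; rfl⟩

lemma ES_add {f g : ℤ → K} (hf : ES π hπ f) (hg : ES π hπ g) : ES π hπ fun n => f n + g n := by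
  obtain ⟨c, hc⟩ := hf
  obtain ⟨d, hd⟩ := hg
  refine ⟨c + d, fun n => ?_⟩
  show f n + g n = Evl π hπ n (c + d)
  rw [map_add, hc, hd]

lemma ES_mul {f g : ℤ → K} (hf : ES π hπ f) (hg : ES π hπ g) : ES π hπ fun n => f n * g n := by
  obtain ⟨c, hc⟩ := hf
  obtain ⟨d, hd⟩ := hg
  refine ⟨c * d, fun n => ?_⟩
  show f n * g n = Evl π hπ n (c * d)
  rw [map_mul, hc, hd]

lemma ES_sum {ι : Type*} (s : Finset ι) {f : ι → ℤ → K} (hf : ∀ i, ES π hπ (f i)) :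
    ES π hπ fun n => ∑ i ∈ s, f i n := by
  choose c hc using hf
  refine ⟨∑ i ∈ s, c i, fun n => ?_⟩
  show ∑ i ∈ s, f i n = Evl π hπ n (∑ i ∈ s, c i)
  rw [map_sum]
  exact Finset.sum_congr rfl fun i _ => hc i n

lemma ES_poly {σ : Type*} (q : MvPolynomial σ K) {f : σ → ℤ → K} (hf : ∀ i, ES π hπ (f i)) :
    ES π hπ fun n => MvPolynomial.eval (fun i => f i n) q := by
  induction q using MvPolynomial.induction_on with
  | C a => exact ES_congr (fun n => by rw [MvPolynomial.eval_C]) (ES_const a)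
  | add p q hp hq => exact ES_congr (fun n => by rw [map_add]) (ES_add hp hq)
  | mul_X p i hp => exact ES_congr (fun n => by rw [map_mul, MvPolynomial.eval_X]) (ES_mul hp (hf i))

/-- dominated term -/
lemma tend_exp {s s0 : ℤ} (h : ‖π ^ s‖ < ‖π ^ s0‖) :
    Tendsto (fun n : ℤ => (π ^ s / π ^ s0) ^ n) atTop (𝓝 0) := by
  rw [tendsto_zero_iff_norm_tendsto_zero]
  have h0 : 0 < ‖π ^ s0‖ := lt_of_le_of_lt (norm_nonneg _) h
  have h1 : ‖π ^ s / π ^ s0‖ < 1 := by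
    rw [norm_div, div_lt_one h0]
    exact h
  have h2 : Tendsto (fun n : ℕ => ‖π ^ s / π ^ s0‖ ^ n) atTop (𝓝 0) :=
    tendsto_pow_atTop_nhds_zero_of_lt_one (norm_nonneg _) h1
  have h3 : Tendsto (fun n : ℤ => n.toNat) atTop atTop := by
    refine tendsto_atTop.2 fun b => ?_
    filter_upwards [eventually_ge_atTop (b : ℤ)] with n hn
    omega
  refine (h2.comp h3).congr' ?_
  filter_upwards [eventually_ge_atTop (0 : ℤ)] with n hn
  show ‖π ^ s / π ^ s0‖ ^ n.toNat = ‖(π ^ s / π ^ s0) ^ n‖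
  rw [norm_zpow, ← zpow_natCast, Int.toNat_of_nonneg hn]

lemma eigen_of_top (hπ : π ≠ 0) (hπ1 : ‖π‖ ≠ 1) {m : ℕ} (f : ℤ → Fin m → K) (Λ : Finset ℤ) (u : ℤ → Fin m → K)
    (hf : ∀ n i, f n i = ∑ s ∈ Λ, u s i * π ^ (s * n)) (h0 : f 0 ≠ 0)
    (T : Matrix (Fin m) (Fin m) K) (hT : ∀ n, T *ᵥ f n = f (n + 1))
    (𝒰 : Filter ℕ) [𝒰.NeBot] (n : ℕ → ℤ) (hn : Tendsto n 𝒰 atTop) (c : ℕ → K) (w : Fin m → K)
    (hw : Tendsto (fun k => c k • f (n k)) 𝒰 (𝓝 w)) : ∃ r : K, r ≠ 0 ∧ T *ᵥ w = r • w := by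
  classical
  set Λ' := Λ.filter (fun x => u x ≠ 0) with hΛ'
  have hf' : ∀ n i, f n i = ∑ x ∈ Λ', u x i * π ^ (x * n) := by
    intro n i
    rw [hf, hΛ', Finset.sum_filter]
    refine Finset.sum_congr rfl fun x _ => ?_
    split_ifs with h
    · rfl
    · push Not at h
      rw [h]; simp
  have hne : Λ'.Nonempty := by
    by_contra hcon
    rw [Finset.not_nonempty_iff_eq_empty] at hcon
    apply h0
    ext i
    rw [hf', hcon]; simp
  obtain ⟨x0, hx0mem, hx0⟩ := Λ'.exists_max_image (fun s => ‖π ^ s‖) hne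
  have hu0 : u x0 ≠ 0 := (Finset.mem_filter.1 hx0mem).2
  obtain ⟨i0, hi0⟩ : ∃ i, u x0 i ≠ 0 := by
    by_contra hcon
    push Not at hcon
    exact hu0 (funext hcon)
  have hxpos : π ^ x0 ≠ 0 := zpow_ne_zero _ hπ
  have hinj : ∀ s : ℤ, ‖π ^ s‖ = ‖π ^ x0‖ → s = x0 := by
    intro s hs
    rw [norm_zpow, norm_zpow] at hs
    exact zpow_right_injective₀ (norm_pos_iff.2 hπ) hπ1 hs
  let e : ℤ → Fin m → K := fun n i => ∑ x ∈ Λ', u x i * (π ^ x / π ^ x0) ^ n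
  have he : ∀ n i, f n i = (π ^ x0) ^ n * e n i := by
    intro n i
    rw [hf', Finset.mul_sum]
    refine Finset.sum_congr rfl fun x _ => ?_
    rw [div_zpow, _root_.zpow_mul]
    have : (π ^ x0) ^ n ≠ 0 := zpow_ne_zero _ hxpos
    field_simp
  have helim : ∀ i, Tendsto (fun n => e n i) atTop (𝓝 (u x0 i)) := by
    intro i
    have h1 : u x0 i = ∑ x ∈ Λ', (if x = x0 then u x i else 0) := by
      rw [Finset.sum_ite_eq' Λ' x0 (fun x => u x i), if_pos hx0mem]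
    rw [h1]
    refine tendsto_finsetSum _ fun x hx => ?_
    split_ifs with hxx
    · have : ∀ n : ℤ, u x i * (π ^ x / π ^ x0) ^ n = u x i := fun n => by
        rw [hxx, div_self hxpos, _root_.one_zpow, mul_one]
      simp_rw [this]
      exact tendsto_const_nhds
    · have hlt : ‖π ^ x‖ < ‖π ^ x0‖ := lt_of_le_of_ne (hx0 x hx) fun h => hxx (hinj x h)
      have := (tendsto_const_nhds (x := u x i)).mul (tend_exp hlt)
      rwa [mul_zero] at this
  -- the coefficient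
  let b : ℕ → K := fun k => c k * (π ^ x0) ^ (n k)
  have hb1 : ∀ i, Tendsto (fun k => b k * e (n k) i) 𝒰 (𝓝 (w i)) := by
    intro i
    have h1 := (tendsto_pi_nhds.1 hw) i
    refine h1.congr fun k => ?_
    show c k * f (n k) i = b k * e (n k) i
    rw [he]
    show _ = c k * (π ^ x0) ^ (n k) * e (n k) i
    ring
  have hb : Tendsto b 𝒰 (𝓝 (w i0 / u x0 i0)) := by
    have h1 := (hb1 i0).div ((helim i0).comp hn) hi0
    refine h1.congr' ?_
    have h2 : ∀ᶠ k in 𝒰, e (n k) i0 ≠ 0 :=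
      ((helim i0).comp hn).eventually_ne hi0
    filter_upwards [h2] with k hk
    show b k * e (n k) i0 / e (n k) i0 = b k
    rw [mul_div_cancel_right₀ _ hk]
  set β := w i0 / u x0 i0
  have hwβ : ∀ i, w i = β * u x0 i := by
    intro i
    exact tendsto_nhds_unique (hb1 i) (hb.mul ((helim i).comp hn))
  refine ⟨π ^ x0, hxpos, ?_⟩
  have hTc : Continuous fun z : Fin m → K => T *ᵥ z := continuous_const.matrix_mulVec continuous_id
  have h1 : Tendsto (fun k => T *ᵥ (c k • f (n k))) 𝒰 (𝓝 (T *ᵥ w)) := (hTc.tendsto w).comp hw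
  have h2 : Tendsto (fun k => T *ᵥ (c k • f (n k))) 𝒰 (𝓝 (π ^ x0 • w)) := by
    refine tendsto_pi_nhds.2 fun i => ?_
    have hn1 : Tendsto (fun k => n k + 1) 𝒰 atTop := tendsto_atTop_add_const_right _ _ hn
    have h3 := (hb.mul ((helim i).comp hn1)).const_mul (π ^ x0)
    have h4 : π ^ x0 * (β * u x0 i) = (π ^ x0 • w) i := by
      rw [Pi.smul_apply, smul_eq_mul, hwβ]
    rw [h4] at h3
    refine h3.congr fun k => ?_
    rw [Matrix.mulVec_smul, hT, Pi.smul_apply, smul_eq_mul, he, zpow_add_one₀ hxpos]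
    show π ^ x0 * (c k * (π ^ x0) ^ (n k) * e (n k + 1) i) = _
    ring
  exact tendsto_nhds_unique h1 h2

lemma orbit_ES (hπ : π ≠ 0) {m : ℕ} (ρ : SL3 K →* GL (Fin m) K) (hρ : IsAlgebraicRep ρ) (g : ℤ → SL3 K)
    (hg : ∀ i j, ES π hπ fun n => (g n : Matrix (Fin 3) (Fin 3) K) i j) (v : Fin m → K) :
    ∃ (Λ : Finset ℤ) (u : ℤ → Fin m → K), ∀ (n : ℤ) (i : Fin m),
      ((ρ (g n) : Matrix (Fin m) (Fin m) K) *ᵥ v) i = ∑ s ∈ Λ, u s i * π ^ (s * n) := by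
  classical
  have h1 : ∀ i, ES π hπ fun n => ((ρ (g n) : Matrix (Fin m) (Fin m) K) *ᵥ v) i := by
    intro i
    have h2 : ∀ j, ES π hπ fun n => (ρ (g n) : Matrix (Fin m) (Fin m) K) i j := by
      intro j
      obtain ⟨q, hq⟩ := hρ i j
      refine ES_congr (fun n => hq _) ?_
      exact ES_poly q (f := fun kl n => (g n : Matrix (Fin 3) (Fin 3) K) kl.1 kl.2) fun kl => hg kl.1 kl.2
    exact ES_congr (fun n => rfl) (ES_sum Finset.univ fun j => ES_mul (h2 j) (ES_const (v j)))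
  choose c hc using h1
  refine ⟨(Finset.univ.biUnion fun i => (c i).coeff.support).map
    ⟨Multiplicative.toAdd, Multiplicative.toAdd.injective⟩, fun s i => (c i).coeff (Multiplicative.ofAdd s),
    fun n i => ?_⟩
  have hci := hc i n
  beta_reduce at hci
  rw [hci, Finset.sum_map]
  unfold Evl
  rw [MonoidAlgebra.lift_apply]
  rw [Finsupp.sum_of_support_subset (s := Finset.univ.biUnion fun i => (c i).coeff.support)]
  · rfl
  · exact Finset.subset_biUnion_of_mem (fun i => (c i).coeff.support) (Finset.mem_univ i)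
  · intro x _
    simp

end expsum

section diag

variable (p : ℕ) [hp : Fact p.Prime] (K : Type) [NormedField K] [Algebra ℚ K]

/-- the diagonal elements over `K` -/
noncomputable def dKHom : Multiplicative (ℤ × ℤ) →* SL3 K :=
  (SpecialLinearGroup.map (algebraMap ℚ K)).comp (dqHom p)

variable {p} {K}

lemma dK_apply (x : Multiplicative (ℤ × ℤ)) (i j : Fin 3) :
    (dKHom p K x : Matrix (Fin 3) (Fin 3) K) i j = if i = j then (p : K) ^ ex x.toAdd i else 0 := by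
  show algebraMap ℚ K ((diagonal (fun i => (p : ℚ) ^ ex x.toAdd i) : Matrix (Fin 3) (Fin 3) ℚ) i j) = _
  rw [diagonal_apply]
  split_ifs
  · rw [map_zpow₀, map_natCast]
  · rw [map_zero]

lemma dK_eq (x : Multiplicative (ℤ × ℤ)) :
    (dKHom p K x : Matrix (Fin 3) (Fin 3) K) = diagonal fun i => (p : K) ^ ex x.toAdd i := by
  ext i j
  rw [dK_apply, diagonal_apply]

lemma ex_zsmul (n : ℤ) (x : ℤ × ℤ) (i : Fin 3) : ex (n • x) i = ex x i * n := by
  fin_cases i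
  · show n • x.1 = x.1 * n
    rw [smul_eq_mul, mul_comm]
  · show n • x.2 = x.2 * n
    rw [smul_eq_mul, mul_comm]
  · show -(n • x.1 + n • x.2) = -(x.1 + x.2) * n
    rw [smul_eq_mul, smul_eq_mul]
    ring

lemma dK_zpow (x : Multiplicative (ℤ × ℤ)) (n : ℤ) (i j : Fin 3) :
    ((dKHom p K x ^ n : SL3 K) : Matrix (Fin 3) (Fin 3) K) i j =
      if i = j then (p : K) ^ (ex x.toAdd i * n) else 0 := by
  rw [← map_zpow, dK_apply, toAdd_zpow, ex_zsmul]

lemma ES_dK (hπ : (p : K) ≠ 0) (x : Multiplicative (ℤ × ℤ)) (i j : Fin 3) :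
    ES (p : K) hπ fun n => ((dKHom p K x ^ n : SL3 K) : Matrix (Fin 3) (Fin 3) K) i j := by
  by_cases h : i = j
  · refine ES_congr (fun n => ?_) (ES_exp (ex x.toAdd i))
    rw [dK_zpow, if_pos h]
  · refine ES_congr (fun n => ?_) (ES_const 0)
    rw [dK_zpow, if_neg h]

lemma limit_pos (hπ : (p : K) ≠ 0) (hπ1 : ‖(p : K)‖ ≠ 1) {m : ℕ} (ρ : SL3 K →* GL (Fin m) K)
    (hρ : IsAlgebraicRep ρ) (x : Multiplicative (ℤ × ℤ))
    (v w : Fin m → K) (hv : v ≠ 0) (𝒰 : Filter ℕ) [𝒰.NeBot] (n : ℕ → ℤ) (hn : Tendsto n 𝒰 atTop)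
    (c : ℕ → K)
    (hw : Tendsto (fun k => c k • ((ρ (dKHom p K x ^ n k) : Matrix (Fin m) (Fin m) K) *ᵥ v)) 𝒰 (𝓝 w)) :
    ∃ r : K, r ≠ 0 ∧ (ρ (dKHom p K x) : Matrix (Fin m) (Fin m) K) *ᵥ w = r • w := by
  obtain ⟨Λ, u, hu⟩ := orbit_ES hπ ρ hρ (fun n => dKHom p K x ^ n) (ES_dK hπ x) v
  refine eigen_of_top hπ hπ1 (fun n => (ρ (dKHom p K x ^ n) : Matrix (Fin m) (Fin m) K) *ᵥ v) Λ u hu ?_ _ ?_
    𝒰 n hn c w hw
  · simpa using hv
  · intro n
    show (ρ (dKHom p K x) : Matrix (Fin m) (Fin m) K) *ᵥ ((ρ (dKHom p K x ^ n) : Matrix (Fin m) (Fin m) K) *ᵥ v) =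
      (ρ (dKHom p K x ^ (n + 1)) : Matrix (Fin m) (Fin m) K) *ᵥ v
    rw [Matrix.mulVec_mulVec, add_comm n 1, _root_.zpow_one_add, map_mul]
    rfl

lemma limit_fixed' (hπ : (p : K) ≠ 0) (hπ1 : ‖(p : K)‖ ≠ 1) (x : Multiplicative (ℤ × ℤ)) (m : ℕ)
    (ρ : SL3 K →* GL (Fin m) K) (hρ : IsAlgebraicRep ρ)
    (v w : Fin m → K) (n : ℕ → ℤ) (c : ℕ → K) (hv : v ≠ 0) (hn : Tendsto n atTop cofinite)
    (hw : Tendsto (fun k => c k • ((ρ (dKHom p K x ^ n k) : Matrix (Fin m) (Fin m) K) *ᵥ v)) atTop (𝓝 w)) :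
    ∃ r : K, (ρ (dKHom p K x) : Matrix (Fin m) (Fin m) K) *ᵥ w = r • w := by
  let 𝒰 : Ultrafilter ℕ := Ultrafilter.of atTop
  have hle : (𝒰 : Filter ℕ) ≤ atTop := Ultrafilter.of_le _
  have h1 : Tendsto n 𝒰 (atBot ⊔ atTop) := by
    rw [← Int.cofinite_eq]
    exact hn.mono_left hle
  have h2 : (𝒰.map n : Filter ℤ) ≤ atBot ⊔ atTop := h1
  rcases Ultrafilter.le_sup_iff.1 h2 with hb | ht
  · -- the case of `-∞`
    have h3 : Tendsto (fun k => -n k) (𝒰 : Filter ℕ) atTop := tendsto_neg_atBot_atTop.comp hb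
    have h4 : ∀ k, (dKHom p K x⁻¹) ^ (-n k) = (dKHom p K x) ^ n k := by
      intro k
      rw [map_inv, _root_.inv_zpow', neg_neg]
    have h5 : Tendsto (fun k => c k • ((ρ ((dKHom p K x⁻¹) ^ (-n k)) : Matrix (Fin m) (Fin m) K) *ᵥ v))
        𝒰 (𝓝 w) := by
      simp_rw [h4]
      exact hw.mono_left hle
    obtain ⟨r, hr, h6⟩ := limit_pos hπ hπ1 ρ hρ x⁻¹ v w hv 𝒰 (fun k => -n k) h3 c h5
    refine ⟨r⁻¹, ?_⟩
    have h7 : (ρ (dKHom p K x) : Matrix (Fin m) (Fin m) K) *ᵥ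
        ((ρ (dKHom p K x⁻¹) : Matrix (Fin m) (Fin m) K) *ᵥ w) = w := by
      rw [Matrix.mulVec_mulVec]
      have : (ρ (dKHom p K x) : Matrix (Fin m) (Fin m) K) * (ρ (dKHom p K x⁻¹) : Matrix (Fin m) (Fin m) K) = 1 := by
        have h8 : ρ (dKHom p K x) * ρ (dKHom p K x⁻¹) = 1 := by
          rw [← map_mul, ← map_mul, mul_inv_cancel, map_one, map_one]
        exact congrArg Units.val h8
      rw [this, Matrix.one_mulVec]
    rw [h6, Matrix.mulVec_smul] at h7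
    have h9 : r⁻¹ • (r • ((ρ (dKHom p K x) : Matrix (Fin m) (Fin m) K) *ᵥ w)) = r⁻¹ • w := congrArg _ h7
    rw [smul_smul, inv_mul_cancel₀ hr, one_smul] at h9
    exact h9
  · obtain ⟨r, hr, h6⟩ := limit_pos hπ hπ1 ρ hρ x v w hv 𝒰 n ht c (hw.mono_left hle)
    exact ⟨r, h6⟩

lemma ex_eq_zero {x : ℤ × ℤ} (h : ∀ i, ex x i = 0) : x = 0 := by
  have h0 : x.1 = 0 := h 0
  have h1 : x.2 = 0 := h 1
  exact Prod.ext h0 h1

lemma dK_unbounded (hπ : (p : K) ≠ 0) (hπ1 : ‖(p : K)‖ ≠ 1) {x : Multiplicative (ℤ × ℤ)} (hx : x ≠ 1) :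
    ¬ ∃ C : Set (SL3 K), IsCompact C ∧ ∀ n : ℤ, dKHom p K x ^ n ∈ C := by
  rintro ⟨C, hC, hn⟩
  have hcont : Continuous fun g : SL3 K => nn (g : Matrix (Fin 3) (Fin 3) K) :=
    continuous_nn.comp continuous_subtype_val
  obtain ⟨R, hR⟩ := (hC.image hcont).isBounded.subset_closedBall 0
  obtain ⟨i, hi⟩ : ∃ i, ex x.toAdd i ≠ 0 := by
    by_contra hcon
    push Not at hcon
    exact hx (ex_eq_zero hcon)
  set y : ℝ := ‖(p : K)‖ ^ ex x.toAdd i with hy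
  have hp0 : 0 < ‖(p : K)‖ := norm_pos_iff.2 hπ
  have hy0 : 0 < y := zpow_pos hp0 _
  have hy1 : y ≠ 1 := by
    intro h
    apply hi
    apply zpow_right_injective₀ hp0 hπ1
    show ‖(p : K)‖ ^ ex x.toAdd i = ‖(p : K)‖ ^ (0 : ℤ)
    rw [zpow_zero, ← hy, h]
  have hbd : ∀ n : ℤ, y ^ n ≤ R := by
    intro n
    have h2 := hR ⟨_, hn n, rfl⟩
    rw [mem_closedBall_zero_iff, Real.norm_of_nonneg (nn_nonneg _)] at h2
    have h3 := (entry_le _ i i).trans h2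
    rw [dK_zpow, if_pos rfl, norm_zpow, _root_.zpow_mul] at h3
    exact h3
  rcases lt_or_gt_of_ne hy1 with h | h
  · have h1 : 1 < y⁻¹ := (one_lt_inv₀ hy0).2 h
    obtain ⟨n, hn⟩ := pow_unbounded_of_one_lt R h1
    have h2 := hbd (-(n : ℤ))
    rw [_root_.zpow_neg, zpow_natCast, ← inv_pow] at h2
    linarith
  · obtain ⟨n, hn⟩ := pow_unbounded_of_one_lt R h
    have h2 := hbd (n : ℤ)
    rw [zpow_natCast] at h2
    linarith

theorem dK_classA (hπ : (p : K) ≠ 0) (hπ1 : ‖(p : K)‖ ≠ 1) {x : Multiplicative (ℤ × ℤ)} (hx : x ≠ 1) :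
    IsClassA (dKHom p K x) := by
  refine ⟨⟨1, fun i => (p : K) ^ ex x.toAdd i, ?_⟩, dK_unbounded hπ hπ1 hx, ?_⟩
  · rw [dK_eq, inv_one]
    show _ = 1 * _ * 1
    rw [one_mul, mul_one]
  · intro m ρ hρ v w n c hv _ hn hw
    exact limit_fixed' hπ hπ1 x m ρ hρ v w n c hv hn hw

end diag

section components

variable {p : ℕ} [hp : Fact p.Prime]

lemma norm_p_real : ‖(p : ℝ)‖ ≠ 1 := by
  rw [Real.norm_of_nonneg (by positivity)]
  exact_mod_cast hp.out.one_lt.ne'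

lemma norm_p_padic : ‖(p : ℚ_[p])‖ ≠ 1 := by
  rw [Padic.norm_p]
  have h : (1 : ℝ) < p := by exact_mod_cast hp.out.one_lt
  have h1 : (p : ℝ)⁻¹ < 1 := inv_lt_one_of_one_lt₀ h
  exact h1.ne

theorem aHom_classA {x : Multiplicative (ℤ × ℤ)} (hx : x ≠ 1) :
    IsClassA (aHom p x).1 ∧ IsClassA (aHom p x).2 :=
  ⟨dK_classA (K := ℝ) (by exact_mod_cast hp.out.ne_zero) norm_p_real hx,
    dK_classA (K := ℚ_[p]) (by exact_mod_cast hp.out.ne_zero) norm_p_padic hx⟩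

end components

end Pool.Agent.Y319.MR
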