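import Mathlib
import Pool.Agent.Y319.MR.Omega

/-! The measure `μ` -/

set_option autoImplicit false
set_option linter.unusedSectionVars false

namespace Pool.Agent.Y319.MR

open MeasureTheory Filter Topology Matrix
open scoped ENNReal

section topology

variable (K : Type) [NormedField K]

lemma isEmbedding_sl : IsEmbedding (Subtype.val : SL3 K → Matrix (Fin 3) (Fin 3) K) :=
  Topology.IsEmbedding.subtypeVal

lemma isClosedEmbedding_sl : IsClosedEmbedding (Subtype.val : SL3 K → Matrix (Fin 3) (Fin 3) K) := by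
  refine ⟨isEmbedding_sl K, ?_⟩
  have h1 : Set.range (Subtype.val : SL3 K → Matrix (Fin 3) (Fin 3) K) = {A | A.det = 1} := by
    ext A
    exact ⟨fun ⟨g, hg⟩ => hg ▸ g.2, fun h => ⟨⟨A, h⟩, rfl⟩⟩
  rw [h1]
  exact isClosed_eq continuous_id.matrix_det continuous_const

instance : TopologicalSpace.MetrizableSpace (SL3 K) := by
  have : TopologicalSpace.MetrizableSpace (Matrix (Fin 3) (Fin 3) K) :=
    inferInstanceAs (TopologicalSpace.MetrizableSpace (Fin 3 → Fin 3 → K))
  exact (isEmbedding_sl K).metrizableSpace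

instance [SecondCountableTopology K] : SecondCountableTopology (SL3 K) := by
  have : SecondCountableTopology (Matrix (Fin 3) (Fin 3) K) :=
    inferInstanceAs (SecondCountableTopology (Fin 3 → Fin 3 → K))
  exact (isEmbedding_sl K).secondCountableTopology

instance [SigmaCompactSpace K] : SigmaCompactSpace (SL3 K) := by
  have : SigmaCompactSpace (Matrix (Fin 3) (Fin 3) K) :=
    inferInstanceAs (SigmaCompactSpace (Fin 3 → Fin 3 → K))
  exact (isClosedEmbedding_sl K).sigmaCompactSpace

end topology

section basics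

variable (p : ℕ) [hp : Fact p.Prime]

instance : SecondCountableTopology (G p) := inferInstance

instance : SigmaCompactSpace (G p) := inferInstance

instance : T2Space (X p) := by
  have ho : IsOpenQuotientMap (QuotientGroup.mk : G p → X p) := QuotientGroup.isOpenQuotientMap_mk
  rw [t2Space_iff_of_isOpenQuotientMap ho]
  have h1 : {q : G p × G p | (QuotientGroup.mk q.1 : X p) = QuotientGroup.mk q.2} =
      (fun q : G p × G p => q.1⁻¹ * q.2) ⁻¹' (Gam p : Set (G p)) := by
    ext q
    exact QuotientGroup.eq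
  rw [h1]
  exact Gam_closed.preimage (continuous_fst.inv.mul continuous_snd)

/-- the Borel structure on `G` -/
noncomputable local instance : MeasurableSpace (G p) := borel (G p)

local instance : BorelSpace (G p) := ⟨rfl⟩

variable {p}

lemma measurable_mk : Measurable (QuotientGroup.mk : G p → X p) :=
  (QuotientGroup.isOpenQuotientMap_mk.continuous).measurable

/-- the image of a closed set is measurable -/
lemma measurableSet_image_mk {F : Set (G p)} (hF : IsClosed F) :
    MeasurableSet ((QuotientGroup.mk : G p → X p) '' F) := by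
  have h1 : IsSigmaCompact F := (isSigmaCompact_univ (X := G p)).of_isClosed_subset hF (Set.subset_univ _)
  obtain ⟨C, hC, h2⟩ := h1
  rw [← h2, Set.image_iUnion]
  exact MeasurableSet.iUnion fun n =>
    ((hC n).image QuotientGroup.isOpenQuotientMap_mk.continuous).isClosed.measurableSet

/-- the finite products depend on finitely many coordinates -/
lemma locConst_pr (β : ℕ → Root) (m : ℕ) :
    IsLocallyConstant fun ω : Om p => pr β (tau p (iv ω)) 0 m := by
  induction m with
  | zero =>
    simp only [pr_zero]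
    exact IsLocallyConstant.const _
  | succ m ih =>
    simp only [pr_succ]
    have h1 : IsLocallyConstant fun ω : Om p => ω m :=
      (IsLocallyConstant.iff_continuous _).2 (continuous_apply m)
    have h2 := h1.comp₂ ih (fun a g => U (β (0 + m)) ((p : ℚ) ^ ((a.val : ℕ) : ℤ) * th p m) * g)
    convert h2 using 3
    rw [zero_add]
    rfl

lemma continuous_pr (β : ℕ → Root) (m : ℕ) :
    Continuous fun ω : Om p => io p (pr β (tau p (iv ω)) 0 m) :=
  ((locConst_pr β m).comp (io p)).continuous

lemma exists_gm (β : ℕ → Root) : ∃ g : Om p → G p, Measurable g ∧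
    ∀ᵐ ω ∂(hm p), Tendsto (fun m => io p (pr β (tau p (iv ω)) 0 m)) atTop (𝓝 (g ω)) := by
  refine measurable_limit_of_tendsto_metrizable_ae
    (fun m => ((continuous_pr β m).measurable).aemeasurable) ?_
  refine (ae_good p).mono fun ω hω => ?_
  obtain ⟨k, hk⟩ := eventually_atTop.1 hω
  exact exists_limit_G β fun j hj => hk j hj

/-- the limit of the products -/
noncomputable def gm (β : ℕ → Root) : Om p → G p := Classical.choose (exists_gm β)

lemma measurable_gm (β : ℕ → Root) : Measurable (gm (p := p) β) := (Classical.choose_spec (exists_gm β)).1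

/-- convergence at a point -/
def Cv (β : ℕ → Root) (ω : Om p) : Prop :=
  Tendsto (fun m => io p (pr β (tau p (iv ω)) 0 m)) atTop (𝓝 (gm β ω))

lemma ae_Cv (β : ℕ → Root) : ∀ᵐ ω ∂(hm p), Cv β ω := (Classical.choose_spec (exists_gm β)).2

lemma ae_Cv_add (β : ℕ → Root) (v : Om p) : ∀ᵐ ω ∂(hm p), Cv β (v + ω) :=
  (quasiMeasurePreserving_add_left (hm p) v).ae (ae_Cv β)

/-- the factor map -/
noncomputable def Ph (β : ℕ → Root) (ω : Om p) : X p := QuotientGroup.mk (gm β ω)

lemma measurable_Ph (β : ℕ → Root) : Measurable (Ph (p := p) β) := measurable_mk.comp (measurable_gm β)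

lemma iv_cast (ω : Om p) (j : ℕ) : ((iv ω j : ℤ) : ZMod (sM p j)) = ω j := by
  unfold iv
  rw [Int.cast_natCast, ZMod.natCast_val, ZMod.cast_id]

/-- equivariance -/
lemma Ph_equiv (β : ℕ → Root) (x : Multiplicative (ℤ × ℤ)) :
    ∀ᵐ ω ∂(hm p), aHom p x • Ph β ω = Ph β (sh p β x.toAdd + ω) := by
  filter_upwards [ae_Cv (p := p) β, ae_Cv_add β (sh p β x.toAdd)] with ω h1 h2
  refine smul_mk_of_lim β x (fun j => ?_) h1 h2
  rw [Int.cast_add, iv_cast, iv_cast]
  show ω j + _ = _ + ω j
  rw [add_comm]
  rfl

variable (p) in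
/-- the measure -/
noncomputable def mu (β : ℕ → Root) : Measure (X p) := (hm p).map (Ph β)

instance (β : ℕ → Root) : IsProbabilityMeasure (mu p β) :=
  Measure.isProbabilityMeasure_map (measurable_Ph β).aemeasurable

variable (p) in
/-- the acting group -/
noncomputable def Agrp : Subgroup (G p) := (aHom p).range

lemma mu_apply (β : ℕ → Root) {s : Set (X p)} (hs : MeasurableSet s) :
    mu p β s = hm p (Ph β ⁻¹' s) := Measure.map_apply (measurable_Ph β) hs

lemma Ph_preimage (β : ℕ → Root) (x : Multiplicative (ℤ × ℤ)) (s : Set (X p)) :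
    Ph β ⁻¹' ((fun y => aHom p x • y) ⁻¹' s) =ᵐ[hm p]
      (fun ω => sh p β x.toAdd + ω) ⁻¹' (Ph β ⁻¹' s) := by
  filter_upwards [Ph_equiv (p := p) β x] with ω hω
  show (aHom p x • Ph β ω ∈ s) = (Ph β (sh p β x.toAdd + ω) ∈ s)
  rw [hω]

instance ergodic_mu (β : ℕ → Root) : ErgodicSMul (Agrp p) (X p) (mu p β) where
  measure_preimage_smul := by
    rintro ⟨_, x, rfl⟩ s hs
    have h0 : MeasurableSet ((fun y : X p => aHom p x • y) ⁻¹' s) := measurable_smul' _ hs
    show mu p β ((fun y => aHom p x • y) ⁻¹' s) = mu p β s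
    rw [mu_apply β h0, mu_apply β hs, measure_congr (Ph_preimage β x s), measure_preimage_add]
  aeconst_of_forall_preimage_smul_ae_eq := by
    intro s hs h
    have h1 : EventuallyConst (Ph β ⁻¹' s) (ae (hm p)) := by
      refine ergodic_core β (measurable_Ph β hs) fun x => ?_
      have h2 : ((fun y => aHom p (Multiplicative.ofAdd x) • y) ⁻¹' s : Set (X p)) =ᵐ[mu p β] s :=
        h ⟨aHom p (Multiplicative.ofAdd x), Multiplicative.ofAdd x, rfl⟩
      have h3 : Ph β ⁻¹' ((fun y => aHom p (Multiplicative.ofAdd x) • y) ⁻¹' s) =ᵐ[hm p] Ph β ⁻¹' s :=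
        ((measurable_Ph β).quasiMeasurePreserving (hm p)).preimage_ae_eq h2
      exact (Ph_preimage β (Multiplicative.ofAdd x) s).symm.trans h3
    rw [eventuallyConst_set] at h1 ⊢
    rcases h1 with h1 | h1
    · left
      exact (ae_map_iff (measurable_Ph β).aemeasurable hs).2 h1
    · right
      exact (ae_map_iff (measurable_Ph β).aemeasurable hs.compl).2 h1

end basics

end Pool.Agent.Y319.MR
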