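import Mathlib
import Pool.Agent.Y319.MR.ClassA
import Pool.Agent.Y319.MR.Mu

/-! The acting group is closed and of higher rank, also modulo proper normal subgroups -/

set_option autoImplicit false
set_option linter.unusedSectionVars false

namespace Pool.Agent.Y319.MR

open Matrix Topology Filter

variable {p : ℕ} [hp : Fact p.Prime]

lemma aHom_fst (x : Multiplicative (ℤ × ℤ)) : (aHom p x).1 = dKHom p ℝ x := rfl

/-- finitely many elements have bounded real component -/
lemma finite_bdd (R : ℝ) :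
    {x : Multiplicative (ℤ × ℤ) | nn ((aHom p x).1 : Matrix (Fin 3) (Fin 3) ℝ) ≤ R}.Finite := by
  have hp2 : (2 : ℝ) ≤ p := by exact_mod_cast two_le_p (p := p)
  have hp1 : (1 : ℝ) < p := by linarith
  obtain ⟨B, hB⟩ := pow_unbounded_of_one_lt R hp1
  have h1 : ∀ x : Multiplicative (ℤ × ℤ), nn ((aHom p x).1 : Matrix (Fin 3) (Fin 3) ℝ) ≤ R →
      ∀ i, ex x.toAdd i ≤ B := by
    intro x hx i
    have h2 := (entry_le _ i i).trans hx
    rw [aHom_fst, dK_apply, if_pos rfl, Real.norm_of_nonneg (by positivity)] at h2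
    by_contra h3
    push Not at h3
    have h4 : (p : ℝ) ^ (B : ℤ) ≤ (p : ℝ) ^ ex x.toAdd i := zpow_le_zpow_right₀ hp1.le h3.le
    rw [zpow_natCast] at h4
    linarith
  have h2 : (Set.Icc (-(2 * (B : ℤ))) (2 * B) ×ˢ Set.Icc (-(2 * (B : ℤ))) (2 * B) : Set (ℤ × ℤ)).Finite :=
    (Set.finite_Icc _ _).prod (Set.finite_Icc _ _)
  refine (h2.preimage (f := fun x : Multiplicative (ℤ × ℤ) => x.toAdd)
    (Multiplicative.toAdd.injective.injOn)).subset ?_
  intro x hx
  have h3 := h1 x hx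
  have e0 : x.toAdd.1 ≤ B := h3 0
  have e1 : x.toAdd.2 ≤ B := h3 1
  have e2 : -(x.toAdd.1 + x.toAdd.2) ≤ B := h3 2
  have e3 : -(2 * (B : ℤ)) ≤ x.toAdd.1 := by omega
  have e4 : x.toAdd.1 ≤ 2 * B := by omega
  have e5 : -(2 * (B : ℤ)) ≤ x.toAdd.2 := by omega
  have e6 : x.toAdd.2 ≤ 2 * B := by omega
  exact ⟨⟨e3, e4⟩, ⟨e5, e6⟩⟩

lemma continuous_nnR : Continuous fun g : SL3 ℝ => nn (g : Matrix (Fin 3) (Fin 3) ℝ) :=
  continuous_nn.comp continuous_subtype_val

/-- the real components of the acting group form a proper image of `ℤ²` -/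
lemma finite_preimage {C : Set (SL3 ℝ)} (hC : IsCompact C) :
    {x : Multiplicative (ℤ × ℤ) | (aHom p x).1 ∈ C}.Finite := by
  obtain ⟨R, hR⟩ := (hC.image continuous_nnR).isBounded.subset_closedBall 0
  refine (finite_bdd (p := p) R).subset fun x hx => ?_
  have h2 := hR ⟨_, hx, rfl⟩
  rw [mem_closedBall_zero_iff, Real.norm_of_nonneg (nn_nonneg _)] at h2
  exact h2

variable (p) in
/-- the acting group is of higher rank -/
theorem A_higherRank : IsHigherRank (Agrp p) := by
  refine ⟨(aHom p).rangeRestrict, fun C hC => ?_⟩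
  have h1 : IsCompact ((fun a : Agrp p => (a : G p).1) '' C) :=
    hC.image (continuous_fst.comp continuous_subtype_val)
  refine (finite_preimage (p := p) h1).subset fun x hx => ?_
  exact ⟨_, hx, rfl⟩

variable (p) in
/-- the acting group is closed -/
theorem A_closed : IsClosed (Agrp p : Set (G p)) := by
  have hp2 : (2 : ℝ) ≤ p := by exact_mod_cast two_le_p (p := p)
  have hp1 : (1 : ℝ) ≤ p := by linarith
  have hdisc : DiscreteTopology (Agrp p) := by
    refine discreteTopology_of_isOpen_singleton_one ?_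
    have ho : IsOpen {g : Agrp p | nn (((g : G p).1 : Matrix (Fin 3) (Fin 3) ℝ) - 1) < 1 / 2} :=
      isOpen_lt (continuous_nn_sl.comp (continuous_fst.comp continuous_subtype_val))
          continuous_const
    convert ho using 1
    ext g
    rw [Set.mem_singleton_iff, Set.mem_ofPred_eq]
    constructor
    · rintro rfl
      have e1 : nn ((((1 : Agrp p) : G p).1 : Matrix (Fin 3) (Fin 3) ℝ) - 1) = 0 := by
        rw [nn_eq_zero, sub_eq_zero]
        rfl
      rw [e1]
      norm_num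
    · intro h
      obtain ⟨_, x, rfl⟩ := g
      have h1 : ∀ i, ex x.toAdd i = 0 := by
        intro i
        have h2 := lt_of_le_of_lt (entry_le (((aHom p x).1 : Matrix (Fin 3) (Fin 3) ℝ) - 1) i i) h
        rw [Matrix.sub_apply, aHom_fst, dK_apply, if_pos rfl, one_apply_eq, Real.norm_eq_abs, abs_lt] at h2
        by_contra h3
        rcases lt_or_gt_of_ne h3 with h4 | h4
        · have h5 : (p : ℝ) ^ ex x.toAdd i ≤ (p : ℝ) ^ (-1 : ℤ) := zpow_le_zpow_right₀ hp1 (by omega)
          rw [_root_.zpow_neg, zpow_one] at h5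
          have h6 : (p : ℝ)⁻¹ ≤ 2⁻¹ := inv_anti₀ (by norm_num) hp2
          have h7 : (2 : ℝ)⁻¹ = 1 / 2 := by norm_num
          linarith [h2.1]
        · have h5 : (p : ℝ) ^ (1 : ℤ) ≤ (p : ℝ) ^ ex x.toAdd i := zpow_le_zpow_right₀ hp1 (by omega)
          rw [zpow_one] at h5
          linarith [h2.2]
      have hx : x = 1 := ex_eq_zero h1
      apply Subtype.ext
      show aHom p x = 1
      rw [hx, map_one]
  exact Subgroup.isClosed_of_discrete

/-- the center of `SL(3, ℝ)` is trivial -/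
lemma center_trivial {g : SL3 ℝ} (h : g ∈ Subgroup.center (SL3 ℝ)) : g = 1 := by
  obtain ⟨c, hc, hg⟩ := Matrix.SpecialLinearGroup.mem_center_iff.1 h
  have hc1 : c = 1 := by
    rw [Fintype.card_fin] at hc
    have h1 : (c - 1) * (c ^ 2 + c + 1) = 0 := by ring_nf; linarith
    rcases mul_eq_zero.1 h1 with h2 | h2
    · linarith
    · nlinarith [sq_nonneg (c + 1 / 2)]
  apply Subtype.ext
  rw [← hg, hc1]
  simp

/-- all points -/
lemma pts_top_of_rat (L : QSubgroup)
    (h : ∀ f ∈ L.eqs, ∀ q : SL3 ℚ, MvPolynomial.eval (ent (q : Matrix (Fin 3) (Fin 3) ℚ)) f = 0)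
    (K : Type) [Field K] [Algebra ℚ K] : L.pts K = ⊤ := by
  rw [eq_top_iff]
  intro g _
  rw [L.mem_pts]
  intro f hf
  exact aeval_eq_zero_of_rat f (h f hf) g

lemma rat_of_pts_top (L : QSubgroup) {K : Type} [Field K] [Algebra ℚ K] (h : L.pts K = ⊤) :
    ∀ f ∈ L.eqs, ∀ q : SL3 ℚ, MvPolynomial.eval (ent (q : Matrix (Fin 3) (Fin 3) ℚ)) f = 0 := by
  intro f hf q
  refine eval_rat_of_aeval (K := K) f (fun x => ?_) q
  have h1 : x ∈ L.pts K := by rw [h]; trivial
  exact (L.mem_pts K x).1 h1 f hf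

/-- the points of a `ℚ`-subgroup are closed -/
lemma isClosed_pts (L : QSubgroup) (K : Type) [NormedField K] [Algebra ℚ K] :
    IsClosed (L.pts K : Set (SL3 K)) := by
  have h1 : (L.pts K : Set (SL3 K)) = ⋂ f ∈ L.eqs, {g : SL3 K |
      MvPolynomial.aeval (fun ij : Fin 3 × Fin 3 => (g : Matrix (Fin 3) (Fin 3) K) ij.1 ij.2) f = 0} := by
    ext g
    rw [Set.mem_iInter₂]
    exact L.mem_pts K g
  rw [h1]
  refine isClosed_biInter fun f _ => isClosed_eq ?_ continuous_const
  have h2 : Continuous fun g : SL3 K => (fun ij : Fin 3 × Fin 3 => (g : Matrix (Fin 3) (Fin 3) K) ij.1 ij.2) := by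
    refine continuous_pi fun ij => ?_
    exact (continuous_apply_apply ij.1 ij.2).comp continuous_subtype_val
  have h3 : (fun g : SL3 K => MvPolynomial.aeval (fun ij : Fin 3 × Fin 3 => (g : Matrix (Fin 3) (Fin 3) K) ij.1 ij.2) f)
      = fun g : SL3 K => MvPolynomial.eval (fun ij : Fin 3 × Fin 3 => (g : Matrix (Fin 3) (Fin 3) K) ij.1 ij.2)
        (MvPolynomial.map (algebraMap ℚ K) f) := by
    funext g
    rw [MvPolynomial.eval_map, MvPolynomial.aeval_def]
  rw [h3]
  exact (MvPolynomial.continuous_eval _).comp h2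

lemma isClosed_adic (L : QSubgroup) : IsClosed (L.adic p : Set (G p)) := by
  have h1 : (L.adic p : Set (G p)) = (L.pts ℝ : Set (SL3 ℝ)) ×ˢ (L.pts ℚ_[p] : Set (SL3 ℚ_[p])) := by
    ext g
    exact Iff.rfl
  rw [h1]
  exact (isClosed_pts L ℝ).prod (isClosed_pts L ℚ_[p])

/-- higher rank modulo proper normal subgroups -/
theorem image_higherRank {L H : QSubgroup} (hH : H.IsNormalIn L) (hL : ∀ (K : Type) [Field K] [Algebra ℚ K],
    L.pts K = ⊤) (hne : H.pts ℂ ≠ L.pts ℂ) (g : G p) :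
    HigherRankImage (conjBy g (Agrp p)) hH := by
  have hHR : H.pts ℝ ≠ ⊤ := by
    intro h
    apply hne
    rw [hL ℂ]
    exact pts_top_of_rat H (rat_of_pts_top H h) ℂ
  have hnorm : (H.pts ℝ).Normal := ⟨fun n hn x => hH.conj_mem ℝ x (by rw [hL]; trivial) n hn⟩
  have htriv : ∀ x ∈ H.pts ℝ, x = 1 := by
    rcases sl_normal (H.pts ℝ) hnorm with h | h
    · exact absurd h hHR
    · exact fun x hx => center_trivial (h hx)
  have _ := hH.normal p
  unfold HigherRankImage HigherRankMod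
  have hLtop : ∀ x : G p, x ∈ L.adic p := by
    intro x
    refine ⟨?_, ?_⟩
    · show x.1 ∈ L.pts ℝ
      rw [hL]; trivial
    · show x.2 ∈ L.pts ℚ_[p]
      rw [hL]; trivial
  -- the homomorphism from `ℤ²`
  let ψ : Multiplicative (ℤ × ℤ) →* L.adic p :=
    ((MulAut.conj g).toMonoidHom.comp (aHom p)).codRestrict (L.adic p) (fun x => hLtop _)
  let φ0 : Multiplicative (ℤ × ℤ) →* (L.adic p ⧸ (H.adic p).subgroupOf (L.adic p)) :=
    (QuotientGroup.mk' ((H.adic p).subgroupOf (L.adic p))).comp ψ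
  have hφ0 : ∀ x, φ0 x ∈ imageMod (conjBy g (Agrp p)) (L.adic p) (H.adic p) := by
    intro x
    refine ⟨ψ x, ?_, rfl⟩
    exact ⟨aHom p x, ⟨x, rfl⟩, rfl⟩
  -- the real component
  let r0 : L.adic p →* SL3 ℝ := (MonoidHom.fst (SL3 ℝ) (SL3 ℚ_[p])).comp (L.adic p).subtype
  have hr0 : (H.adic p).subgroupOf (L.adic p) ≤ r0.ker := by
    intro x hx
    exact htriv _ hx.1
  let r : (L.adic p ⧸ (H.adic p).subgroupOf (L.adic p)) →* SL3 ℝ := QuotientGroup.lift _ r0 hr0
  have hr : Continuous r := by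
    refine QuotientGroup.isOpenQuotientMap_mk.isQuotientMap.continuous_iff.2 ?_
    exact (continuous_fst.comp continuous_subtype_val)
  refine ⟨φ0.codRestrict _ hφ0, fun C hC => ?_⟩
  have h1 : IsCompact ((fun y => g.1⁻¹ * r y.1 * g.1) '' C) := by
    refine hC.image ?_
    exact (continuous_const.mul (hr.comp continuous_subtype_val)).mul continuous_const
  refine (finite_preimage (p := p) h1).subset fun x hx => ?_
  refine ⟨_, hx, ?_⟩
  show g.1⁻¹ * (g.1 * (aHom p x).1 * g.1⁻¹) * g.1 = (aHom p x).1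
  group

end Pool.Agent.Y319.MR
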