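import Mathlib
import Pool.Agent.Y319.MR.Mu

/-! Null sets of the measure `μ` -/

set_option autoImplicit false
set_option linter.unusedSectionVars false

namespace Pool.Agent.Y319.MR

open MeasureTheory Filter Topology Matrix
open scoped ENNReal

variable {p : ℕ} [hp : Fact p.Prime]

/-- the value of a real polynomial at a matrix -/
noncomputable def ev (F : MvPolynomial (Fin 3 × Fin 3) ℝ) (A : SL3 ℝ) : ℝ :=
  MvPolynomial.eval (ent (A : Matrix (Fin 3) (Fin 3) ℝ)) F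

lemma continuous_ent : Continuous fun A : SL3 ℝ => ent (A : Matrix (Fin 3) (Fin 3) ℝ) := by
  refine continuous_pi fun ij => ?_
  exact (continuous_apply_apply ij.1 ij.2).comp continuous_subtype_val

lemma continuous_ev (F : MvPolynomial (Fin 3 × Fin 3) ℝ) : Continuous (ev F) :=
  (MvPolynomial.continuous_eval F).comp continuous_ent

/-- the finite products -/
noncomputable def gk (β : ℕ → Root) (k : ℕ) (ω : Om p) : SL3 ℚ := pr β (tau p (iv ω)) 0 k

lemma gk_succ (β : ℕ → Root) (k : ℕ) (ω : Om p) :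
    gk β (k + 1) ω = U (β k) (tau p (iv ω) k) * gk β k ω := by
  unfold gk
  rw [pr_succ, zero_add]

lemma gk_add_cemb (β : ℕ → Root) (k : ℕ) (ω : Om p) (b : ZMod (sM p k)) :
    gk β k (ω + cemb p k b) = gk β k ω := by
  unfold gk
  refine pr_congr β fun j _ hj => ?_
  have h1 : iv (ω + cemb p k b) j = iv ω j := by
    unfold iv
    rw [Pi.add_apply, cemb_ne (by omega), add_zero]
  unfold tau
  rw [h1]

/-- the real component of the limit -/
noncomputable def gR (β : ℕ → Root) (ω : Om p) : SL3 ℝ := (gm β ω).1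

lemma Cv.tendsto {β : ℕ → Root} {ω : Om p} (h : Cv β ω) :
    Tendsto (fun k => rat ℝ (gk β k ω)) atTop (𝓝 (gR β ω)) :=
  (continuous_fst.tendsto _).comp h

/-- the tail does not depend on the `k`-th coordinate -/
lemma tail_indep {β : ℕ → Root} {ω : Om p} {k : ℕ} {b : ZMod (sM p k)} (h1 : Cv β ω)
    (h2 : Cv β (ω + cemb p k b)) :
    gR β (ω + cemb p k b) * (rat ℝ (gk β (k + 1) (ω + cemb p k b)))⁻¹ =
      gR β ω * (rat ℝ (gk β (k + 1) ω))⁻¹ := by
  have h3 : ∀ ω' : Om p, Cv β ω' → Tendsto (fun m => rat ℝ (pr β (tau p (iv ω')) (k + 1) m)) atTop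
      (𝓝 (gR β ω' * (rat ℝ (gk β (k + 1) ω'))⁻¹)) := by
    intro ω' h
    have h4 := ((tendsto_add_atTop_iff_nat (k + 1)).2 h.tendsto).mul_const (rat ℝ (gk β (k + 1) ω'))⁻¹
    refine h4.congr fun m => ?_
    unfold gk
    rw [add_comm m (k + 1), pr_add β _ 0 (k + 1) m, rat_mul, zero_add, mul_inv_cancel_right]
  refine tendsto_nhds_unique (h3 _ h2) ?_
  refine (h3 _ h1).congr fun m => ?_
  congr 1
  refine pr_congr β fun j hj _ => ?_
  have h1 : iv (ω + cemb p k b) j = iv ω j := by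
    unfold iv
    rw [Pi.add_apply, cemb_ne (by omega), add_zero]
  unfold tau
  rw [h1]

/-- the exceptional events -/
def Ev (β : ℕ → Root) (r : Root) (t : ℝ) (F : MvPolynomial (Fin 3 × Fin 3) ℝ) (j : ℕ) : Set (Om p) :=
  {ω | β j = r ∧ ev F (gR β ω) = 0 ∧
    ev F (gR β ω * (rat ℝ (gk β (j + 1) ω))⁻¹ * U r t * rat ℝ (gk β (j + 1) ω)) ≠ 0}

instance : Countable (SL3 ℚ) := by
  have h2 : Countable (Matrix (Fin 3) (Fin 3) ℚ) :=
    inferInstanceAs (Countable (Fin 3 → Fin 3 → ℚ))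
  exact Subtype.countable

lemma measurable_Ev (β : ℕ → Root) (r : Root) (t : ℝ) (F : MvPolynomial (Fin 3 × Fin 3) ℝ) (j : ℕ) :
    MeasurableSet (Ev (p := p) β r t F j) := by
  by_cases hr : β j = r
  · have h1 : Ev (p := p) β r t F j = ⋃ q : SL3 ℚ, ({ω | gk β (j + 1) ω = q} ∩
        (gm β ⁻¹' ({g | ev F g.1 = 0} ∩
          {g | ev F (g.1 * (rat ℝ q)⁻¹ * U r t * rat ℝ q) = 0}ᶜ))) := by
      ext ω
      rw [Set.mem_iUnion]
      constructor
      · rintro ⟨-, h2, h3⟩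
        exact ⟨gk β (j + 1) ω, rfl, h2, h3⟩
      · rintro ⟨q, hq, h2, h3⟩
        rw [Set.mem_ofPred_eq] at hq
        subst hq
        exact ⟨hr, h2, h3⟩
    rw [h1]
    refine MeasurableSet.iUnion fun q => MeasurableSet.inter ?_ ?_
    · have h2 : IsOpen {ω : Om p | gk β (j + 1) ω = q} := locConst_pr (p := p) β (j + 1) {q}
      exact h2.measurableSet
    · let _ : MeasurableSpace (G p) := borel (G p)
      have _ : BorelSpace (G p) := ⟨rfl⟩
      refine measurable_gm β (MeasurableSet.inter ?_ (MeasurableSet.compl ?_))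
      · exact (isClosed_eq ((continuous_ev F).comp continuous_fst) continuous_const).measurableSet
      · refine (isClosed_eq ((continuous_ev F).comp ?_) continuous_const).measurableSet
        exact ((continuous_fst.mul continuous_const).mul continuous_const).mul continuous_const
  · have h1 : Ev (p := p) β r t F j = ∅ := by
      ext ω
      exact ⟨fun h => (hr h.1).elim, fun h => h.elim⟩
    rw [h1]
    exact MeasurableSet.empty

lemma zpow_inj {a b : ℤ} (h : (p : ℚ) ^ a = (p : ℚ) ^ b) : a = b :=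
  zpow_right_injective₀ (by exact_mod_cast hp.out.pos) (by exact_mod_cast hp.out.one_lt.ne') h

lemma ncard_Ev (β : ℕ → Root) (r : Root) (t : ℝ) (F : MvPolynomial (Fin 3 × Fin 3) ℝ) (j : ℕ)
    {ω : Om p} (h : ∀ b, Cv β (ω + cemb p j b)) :
    {b : ZMod (sM p j) | ω + cemb p j b ∈ Ev β r t F j}.ncard ≤ F.totalDegree := by
  rcases Set.eq_empty_or_nonempty {b : ZMod (sM p j) | ω + cemb p j b ∈ Ev β r t F j} with h0 | ⟨b0, hb0⟩
  · rw [h0]
    simp
  have hr : β j = r := hb0.1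
  have hω : Cv β ω := by
    have := h 0
    have e : cemb p j 0 = 0 := Pi.single_zero _
    rwa [e, add_zero] at this
  obtain ⟨q, hq1, hq2⟩ := exists_univ F
    ((gR β ω * (rat ℝ (gk β (j + 1) ω))⁻¹ : SL3 ℝ) : Matrix (Fin 3) (Fin 3) ℝ)
    ((rat ℝ (gk β j ω) : SL3 ℝ) : Matrix (Fin 3) (Fin 3) ℝ) r
  have e1 : ∀ b, rat ℝ (gk β (j + 1) (ω + cemb p j b)) =
      U r ((tau p (iv (ω + cemb p j b)) j : ℚ) : ℝ) * rat ℝ (gk β j ω) := by
    intro b
    rw [gk_succ, gk_add_cemb, rat_mul, rat_U, hr]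
    rfl
  have e2 : ∀ b, gR β (ω + cemb p j b) = (gR β ω * (rat ℝ (gk β (j + 1) ω))⁻¹) *
      U r ((tau p (iv (ω + cemb p j b)) j : ℚ) : ℝ) * rat ℝ (gk β j ω) := by
    intro b
    rw [mul_assoc, ← e1, ← tail_indep hω (h b), inv_mul_cancel_right]
  have hq0 : q ≠ 0 := by
    intro h0
    apply hb0.2.2
    rw [tail_indep hω (h b0), e1, mul_assoc _ (U r t), ← mul_assoc (U r t), ← U_add, ← mul_assoc]
    have h5 := hq2 (t + ((tau p (iv (ω + cemb p j b0)) j : ℚ) : ℝ))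
    rw [h0, Polynomial.eval_zero] at h5
    exact h5.symm
  have hroot : ∀ b ∈ {b : ZMod (sM p j) | ω + cemb p j b ∈ Ev β r t F j},
      ((tau p (iv (ω + cemb p j b)) j : ℚ) : ℝ) ∈ (q.roots.toFinset : Set ℝ) := by
    intro b hb
    rw [Finset.mem_coe, Multiset.mem_toFinset, Polynomial.mem_roots hq0, Polynomial.IsRoot, hq2]
    have h6 := hb.2.1
    rw [e2] at h6
    exact h6
  have hinj : Set.InjOn (fun b : ZMod (sM p j) => ((tau p (iv (ω + cemb p j b)) j : ℚ) : ℝ))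
      {b : ZMod (sM p j) | ω + cemb p j b ∈ Ev β r t F j} := by
    intro b _ b' _ hbb
    have h7' : ((tau p (iv (ω + cemb p j b)) j : ℚ) : ℝ) = ((tau p (iv (ω + cemb p j b')) j : ℚ) : ℝ) := hbb
    have h7 : tau p (iv (ω + cemb p j b)) j = tau p (iv (ω + cemb p j b')) j := by
      exact_mod_cast h7'
    unfold tau at h7
    have h8 := mul_right_cancel₀ (th_pos (p := p) j).ne' h7
    have h9 : iv (ω + cemb p j b) j = iv (ω + cemb p j b') j := by
      exact zpow_inj (p := p) h8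
    unfold iv at h9
    rw [Pi.add_apply, Pi.add_apply, cemb_same, cemb_same] at h9
    have h10 : (ω j + b).val = (ω j + b').val := by exact_mod_cast h9
    exact add_left_cancel (ZMod.val_injective _ h10)
  calc {b : ZMod (sM p j) | ω + cemb p j b ∈ Ev β r t F j}.ncard
      = ((fun b : ZMod (sM p j) => ((tau p (iv (ω + cemb p j b)) j : ℚ) : ℝ)) ''
        {b : ZMod (sM p j) | ω + cemb p j b ∈ Ev β r t F j}).ncard := hinj.ncard_image.symm
    _ ≤ (q.roots.toFinset : Set ℝ).ncard := by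
        refine Set.ncard_le_ncard ?_ (Finset.finite_toSet _)
        rintro _ ⟨b, hb, rfl⟩
        exact hroot b hb
    _ ≤ F.totalDegree := by
        rw [Set.ncard_coe_finset]
        exact (Multiset.toFinset_card_le _).trans ((Polynomial.card_roots' q).trans hq1)

lemma hm_Ev (β : ℕ → Root) (r : Root) (t : ℝ) (F : MvPolynomial (Fin 3 × Fin 3) ℝ) (j : ℕ) :
    hm p (Ev β r t F j) ≤ (F.totalDegree : ℝ≥0∞) * (1 / 2) ^ j := by
  have h1 := count_lemma (p := p) (fun b : ZMod (sM p j) => cemb p j b) (measurable_Ev β r t F j)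
    F.totalDegree ?_
  · rw [ZMod.card] at h1
    have hM0 : ((sM p j : ℕ) : ℝ≥0∞) ≠ 0 := by exact_mod_cast (sM_pos p j).ne'
    have hMt : ((sM p j : ℕ) : ℝ≥0∞) ≠ ⊤ := ENNReal.natCast_ne_top _
    have h2 : hm p (Ev β r t F j) ≤ (F.totalDegree : ℝ≥0∞) / (sM p j : ℝ≥0∞) := by
      rw [ENNReal.le_div_iff_mul_le (Or.inl hM0) (Or.inl hMt), mul_comm]
      exact h1
    refine h2.trans ?_
    rw [div_eq_mul_inv]
    gcongr
    rw [one_div, ← ENNReal.inv_pow, ENNReal.inv_le_inv]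
    have h3 : 2 ^ j ≤ sM p j := by
      have h4 := K_le_M (p := p) j
      have h5 := sK_pos (p := p) j
      calc 2 ^ j ≤ 2 ^ (j + 2) * 1 := by
            rw [mul_one]
            exact Nat.pow_le_pow_right (by norm_num) (by omega)
        _ ≤ 2 ^ (j + 2) * sK p j := Nat.mul_le_mul_left _ h5
        _ ≤ sM p j := h4
    exact_mod_cast h3
  · have h6 : ∀ᵐ ω ∂(hm p), ∀ b : ZMod (sM p j), Cv β (ω + cemb p j b) := by
      rw [ae_all_iff]
      intro b
      filter_upwards [ae_Cv_add β (cemb p j b)] with ω hω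
      rwa [add_comm]
    filter_upwards [h6] with ω hω
    exact ncard_Ev β r t F j hω

/-- moving along a root direction -/
lemma one_root (β : ℕ → Root) (r : Root) (hr : ∃ᶠ j in atTop, β j = r) (t : ℝ)
    (F : MvPolynomial (Fin 3 × Fin 3) ℝ) :
    ∀ᵐ ω ∂(hm p), ev F (gR β ω) = 0 → ev F (U r t * gR β ω) = 0 := by
  have h1 : ∑' j, hm p (Ev β r t F j) ≠ ⊤ := by
    refine ne_top_of_le_ne_top ?_ (ENNReal.tsum_le_tsum fun j => hm_Ev β r t F j)
    rw [ENNReal.tsum_mul_left, one_div, ENNReal.tsum_geometric, ENNReal.one_sub_inv_two, inv_inv]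
    exact ENNReal.mul_ne_top (ENNReal.natCast_ne_top _) ENNReal.ofNat_ne_top
  filter_upwards [ae_eventually_notMem h1, ae_Cv (p := p) β] with ω h2 h3 h4
  have h5 : Tendsto (fun j => ev F (gR β ω * (rat ℝ (gk β (j + 1) ω))⁻¹ * U r t *
      rat ℝ (gk β (j + 1) ω))) atTop (𝓝 (ev F (gR β ω * (gR β ω)⁻¹ * U r t * gR β ω))) := by
    refine ((continuous_ev F).tendsto _).comp ?_
    have h6 : Tendsto (fun j => rat ℝ (gk β (j + 1) ω)) atTop (𝓝 (gR β ω)) :=
      (tendsto_add_atTop_iff_nat 1).2 h3.tendsto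
    exact ((h6.inv.const_mul _).mul_const _).mul h6
  rw [mul_inv_cancel, one_mul] at h5
  have h7 : ∃ᶠ j in atTop, ev F (gR β ω * (rat ℝ (gk β (j + 1) ω))⁻¹ * U r t *
      rat ℝ (gk β (j + 1) ω)) ∈ ({0} : Set ℝ) := by
    refine (hr.and_eventually h2).mono ?_
    rintro j ⟨hj, h8⟩
    rw [Set.mem_singleton_iff]
    by_contra h9
    exact h8 ⟨hj, h4, h9⟩
  exact isClosed_singleton.mem_of_frequently_of_tendsto h7 h5

/-- moving by rational matrices -/
lemma move_rat (β : ℕ → Root) (hβ : ∀ r : Root, ∃ᶠ j in atTop, β j = r) (w : SL3 ℚ) :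
    ∀ F : MvPolynomial (Fin 3 × Fin 3) ℝ,
      ∀ᵐ ω ∂(hm p), ev F (gR β ω) = 0 → ev F (rat ℝ w * gR β ω) = 0 := by
  refine U_induction (fun w => ∀ F : MvPolynomial (Fin 3 × Fin 3) ℝ,
      ∀ᵐ ω ∂(hm p), ev F (gR β ω) = 0 → ev F (rat ℝ w * gR β ω) = 0) ?_ ?_ w
  · intro r a F
    rw [rat_U]
    exact one_root β r (hβ r) _ F
  · intro A B hA hB F
    obtain ⟨F', hF'⟩ := exists_translate F ((rat ℝ A : SL3 ℝ) : Matrix (Fin 3) (Fin 3) ℝ) 1
    have h1 : ∀ x : SL3 ℝ, ev F' x = ev F (rat ℝ A * x) := by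
      intro x
      unfold ev
      rw [hF', mul_one]
      rfl
    filter_upwards [hA F, hB F'] with ω h2 h3 h4
    have h5 := h3 (by rw [h1]; exact h2 h4)
    rw [h1] at h5
    rw [rat_mul, mul_assoc]
    exact h5

/-- the main statement on null sets -/
theorem ae_ne (β : ℕ → Root) (hβ : ∀ r : Root, ∃ᶠ j in atTop, β j = r)
    (F : MvPolynomial (Fin 3 × Fin 3) ℝ) (x : SL3 ℝ) (hx : ev F x ≠ 0) :
    ∀ᵐ ω ∂(hm p), ev F (gR β ω) ≠ 0 := by
  have h1 : ∀ᵐ ω ∂(hm p), ∀ w : SL3 ℚ, ev F (gR β ω) = 0 → ev F (rat ℝ w * gR β ω) = 0 := by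
    rw [ae_all_iff]
    exact fun w => move_rat β hβ w F
  filter_upwards [h1] with ω h2 h3
  apply hx
  obtain ⟨F', hF'⟩ := exists_translate F 1 ((gR β ω : SL3 ℝ) : Matrix (Fin 3) (Fin 3) ℝ)
  have h4 := zariski_dense F' (fun w => ?_) (x * (gR β ω)⁻¹)
  · rw [hF', one_mul] at h4
    have h5 : (((x * (gR β ω)⁻¹ : SL3 ℝ) : Matrix (Fin 3) (Fin 3) ℝ) *
        ((gR β ω : SL3 ℝ) : Matrix (Fin 3) (Fin 3) ℝ)) = (x : Matrix (Fin 3) (Fin 3) ℝ) := by
      rw [← co_mul, inv_mul_cancel_right]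
    rw [h5] at h4
    exact h4
  · rw [hF', one_mul]
    exact h2 w h3

/-- a rational equation which is nontrivial on `SL(3, ℚ)` has a null solution set in each translate
of a `ℚ`-subgroup -/
lemma mu_coset (β : ℕ → Root) (hβ : ∀ r : Root, ∃ᶠ j in atTop, β j = r) (L : QSubgroup)
    {f : MvPolynomial (Fin 3 × Fin 3) ℚ} (hf : f ∈ L.eqs) {q : SL3 ℚ}
    (hq : MvPolynomial.eval (ent (q : Matrix (Fin 3) (Fin 3) ℚ)) f ≠ 0)
    (hcl : IsClosed (L.adic p : Set (G p))) (g : G p) : mu p β (coset g L) = 0 := by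
  have h1 : coset g L = (QuotientGroup.mk : G p → X p) '' ((fun x => g * x) '' (L.adic p : Set (G p))) := by
    ext y
    constructor
    · rintro ⟨l, hl, rfl⟩
      exact ⟨g * l, ⟨l, hl, rfl⟩, rfl⟩
    · rintro ⟨_, ⟨l, hl, rfl⟩, rfl⟩
      exact ⟨l, hl, rfl⟩
  have h2 : MeasurableSet (coset g L) := by
    rw [h1]
    exact measurableSet_image_mk ((isClosedMap_mul_left g) _ hcl)
  rw [mu_apply β h2]
  have h3 : ∀ᵐ ω ∂(hm p), ∀ γ : Gam p,
      MvPolynomial.aeval (ent ((g.1⁻¹ * gR β ω * (γ : G p).1 : SL3 ℝ) : Matrix (Fin 3) (Fin 3) ℝ)) f ≠ 0 := by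
    rw [ae_all_iff]
    intro γ
    obtain ⟨F, hF⟩ := exists_translate (MvPolynomial.map (algebraMap ℚ ℝ) f)
      ((g.1⁻¹ : SL3 ℝ) : Matrix (Fin 3) (Fin 3) ℝ) (((γ : G p).1 : SL3 ℝ) : Matrix (Fin 3) (Fin 3) ℝ)
    have h4 : ∀ x : SL3 ℝ, ev F x =
        MvPolynomial.aeval (ent ((g.1⁻¹ * x * (γ : G p).1 : SL3 ℝ) : Matrix (Fin 3) (Fin 3) ℝ)) f := by
      intro x
      unfold ev
      rw [hF, MvPolynomial.eval_map, ← MvPolynomial.aeval_def]
      rfl
    have h5 := ae_ne (p := p) β hβ F (g.1 * rat ℝ q * (γ : G p).1⁻¹) ?_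
    · filter_upwards [h5] with ω hω
      rwa [h4] at hω
    · rw [h4]
      have e : g.1⁻¹ * (g.1 * rat ℝ q * (γ : G p).1⁻¹) * (γ : G p).1 = rat ℝ q := by group
      rw [e, aeval_rat]
      exact fun h6 => hq ((algebraMap ℚ ℝ).injective (by rw [h6, map_zero]))
  have h6 : ∀ᵐ ω ∂(hm p), ω ∉ Ph β ⁻¹' (coset g L) := by
    filter_upwards [h3] with ω hω hmem
    obtain ⟨l, hl, h7⟩ := hmem
    have h8 : (gm β ω)⁻¹ * (g * l) ∈ Gam p := QuotientGroup.eq.1 h7
    apply hω ⟨_, h8⟩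
    have h9 : g.1⁻¹ * gR β ω * ((gm β ω)⁻¹ * (g * l)).1 = l.1 := by
      show g.1⁻¹ * (gm β ω).1 * ((gm β ω).1⁻¹ * (g.1 * l.1)) = l.1
      group
    show MvPolynomial.aeval (ent ((g.1⁻¹ * gR β ω * ((gm β ω)⁻¹ * (g * l)).1 : SL3 ℝ) :
      Matrix (Fin 3) (Fin 3) ℝ)) f = 0
    rw [h9]
    exact (L.mem_pts ℝ l.1).1 hl.1 f hf
  exact measure_eq_zero_iff_ae_notMem.2 h6

/-- the measure has no atoms -/
lemma mu_singleton (β : ℕ → Root) (hβ : ∀ r : Root, ∃ᶠ j in atTop, β j = r) (y : X p) :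
    mu p β {y} = 0 := by
  rw [mu_apply β (measurableSet_singleton y)]
  obtain ⟨g, rfl⟩ := QuotientGroup.mk_surjective y
  have h3 : ∀ᵐ ω ∂(hm p), ∀ γ : Gam p,
      gR β ω 0 1 ≠ ((g * (γ : G p)).1 : Matrix (Fin 3) (Fin 3) ℝ) 0 1 := by
    rw [ae_all_iff]
    intro γ
    set c : ℝ := ((g * (γ : G p)).1 : Matrix (Fin 3) (Fin 3) ℝ) 0 1 with hc
    have h5 := ae_ne (p := p) β hβ (MvPolynomial.X (0, 1) - MvPolynomial.C c)
      (U ⟨(0, 1), by decide⟩ (c + 1)) ?_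
    · filter_upwards [h5] with ω hω h6
      apply hω
      unfold ev
      rw [map_sub, MvPolynomial.eval_X, MvPolynomial.eval_C]
      show (gR β ω : Matrix (Fin 3) (Fin 3) ℝ) 0 1 - c = 0
      rw [h6, sub_self]
    · unfold ev
      rw [map_sub, MvPolynomial.eval_X, MvPolynomial.eval_C]
      show (U ⟨(0, 1), by decide⟩ (c + 1) : Matrix (Fin 3) (Fin 3) ℝ) 0 1 - c ≠ 0
      rw [U_apply]
      simp
  have h6 : ∀ᵐ ω ∂(hm p), ω ∉ Ph β ⁻¹' {(QuotientGroup.mk g : X p)} := by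
    filter_upwards [h3] with ω hω hmem
    have h7 : (QuotientGroup.mk g : X p) = QuotientGroup.mk (gm β ω) := (hmem : Ph β ω = _).symm
    have h8 : g⁻¹ * gm β ω ∈ Gam p := QuotientGroup.eq.1 h7
    apply hω ⟨_, h8⟩
    show ((gm β ω).1 : Matrix (Fin 3) (Fin 3) ℝ) 0 1 = ((g * (g⁻¹ * gm β ω)).1 : Matrix (Fin 3) (Fin 3) ℝ) 0 1
    rw [mul_inv_cancel_left]
  exact measure_eq_zero_iff_ae_notMem.2 h6

end Pool.Agent.Y319.MR
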