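import Mathlib
import Pool.Agent.Y319.MR.Null

/-! The measure `μ` is not virtually homogeneous -/

set_option autoImplicit false
set_option linter.unusedSectionVars false

namespace Pool.Agent.Y319.MR

open MeasureTheory Filter Topology Matrix
open scoped ENNReal

section estimates

variable {K : Type} [NormedField K]

lemma nn_real1 {δ : ℝ} {u w w' g : SL3 K} (h : u * w = w' * g)
    (hw : nn ((w : Matrix (Fin 3) (Fin 3) K) - 1) ≤ δ) (hw' : nn ((w' : Matrix (Fin 3) (Fin 3) K) - 1) ≤ δ)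
    (hδ : δ ≤ 1 / 12) : nn ((g : Matrix (Fin 3) (Fin 3) K) - 1) ≤
      2 * (4 * nn ((u : Matrix (Fin 3) (Fin 3) K) - 1) + 2 * δ) := by
  have hm : (u : Matrix (Fin 3) (Fin 3) K) * (w : Matrix (Fin 3) (Fin 3) K) =
      (w' : Matrix (Fin 3) (Fin 3) K) * (g : Matrix (Fin 3) (Fin 3) K) := by
    rw [← co_mul, ← co_mul, h]
  set A : Matrix (Fin 3) (Fin 3) K := (u : Matrix (Fin 3) (Fin 3) K)
  set W : Matrix (Fin 3) (Fin 3) K := (w : Matrix (Fin 3) (Fin 3) K)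
  set W' : Matrix (Fin 3) (Fin 3) K := (w' : Matrix (Fin 3) (Fin 3) K)
  set B : Matrix (Fin 3) (Fin 3) K := (g : Matrix (Fin 3) (Fin 3) K)
  have e : B - 1 = (((A - 1) * W + (W - 1)) - (W' - 1)) - (W' - 1) * (B - 1) := by
    have : (W' - 1) * (B - 1) = W' * B - W' - B + 1 := by noncomm_ring
    rw [this, ← hm]
    noncomm_ring
  have hW : nn W ≤ 1 + δ := by
    have h1 : nn W ≤ nn (W - 1) + nn (1 : Matrix (Fin 3) (Fin 3) K) := by
      have := nn_add (W - 1) 1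
      rwa [sub_add_cancel] at this
    rw [nn_one] at h1
    linarith
  have h1 := nn_nonneg (A - 1)
  have h2 := nn_nonneg (B - 1)
  have h3 := nn_nonneg (W - 1)
  have h4 := nn_nonneg (W' - 1)
  have h5 : nn ((A - 1) * W) ≤ 3 * (nn (A - 1) * (1 + δ)) :=
    (nn_mul _ _).trans (by gcongr)
  have h6 : nn ((W' - 1) * (B - 1)) ≤ 3 * (δ * nn (B - 1)) :=
    (nn_mul _ _).trans (by gcongr)
  have h7 : nn (B - 1) ≤ (3 * (nn (A - 1) * (1 + δ)) + δ + δ) + 3 * (δ * nn (B - 1)) := by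
    calc nn (B - 1) = nn ((((A - 1) * W + (W - 1)) - (W' - 1)) - (W' - 1) * (B - 1)) := by rw [← e]
      _ ≤ nn (((A - 1) * W + (W - 1)) - (W' - 1)) + nn ((W' - 1) * (B - 1)) := nn_sub _ _
      _ ≤ (nn ((A - 1) * W + (W - 1)) + nn (W' - 1)) + nn ((W' - 1) * (B - 1)) := by
          gcongr
          exact nn_sub _ _
      _ ≤ (nn ((A - 1) * W) + nn (W - 1) + nn (W' - 1)) + nn ((W' - 1) * (B - 1)) := by
          gcongr
          exact nn_add _ _
      _ ≤ _ := by gcongr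
  nlinarith

lemma nn_real2 {δ : ℝ} {u w w' : SL3 K} (h : u * w = w')
    (hw : nn ((w : Matrix (Fin 3) (Fin 3) K) - 1) ≤ δ) (hw' : nn ((w' : Matrix (Fin 3) (Fin 3) K) - 1) ≤ δ)
    (hδ : δ ≤ 1 / 12) : nn ((u : Matrix (Fin 3) (Fin 3) K) - 1) ≤ 4 * δ := by
  have hm : (u : Matrix (Fin 3) (Fin 3) K) * (w : Matrix (Fin 3) (Fin 3) K) =
      (w' : Matrix (Fin 3) (Fin 3) K) := by
    rw [← co_mul, h]
  set A : Matrix (Fin 3) (Fin 3) K := (u : Matrix (Fin 3) (Fin 3) K)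
  set W : Matrix (Fin 3) (Fin 3) K := (w : Matrix (Fin 3) (Fin 3) K)
  set W' : Matrix (Fin 3) (Fin 3) K := (w' : Matrix (Fin 3) (Fin 3) K)
  have e : A - 1 = ((W' - 1) - (W - 1)) - (A - 1) * (W - 1) := by
    rw [← hm]
    noncomm_ring
  have h1 := nn_nonneg (A - 1)
  have h3 := nn_nonneg (W - 1)
  have h4 := nn_nonneg (W' - 1)
  have h5 : nn ((A - 1) * (W - 1)) ≤ 3 * (nn (A - 1) * δ) :=
    (nn_mul _ _).trans (by gcongr)
  have h7 : nn (A - 1) ≤ (δ + δ) + 3 * (nn (A - 1) * δ) := by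
    calc nn (A - 1) = nn (((W' - 1) - (W - 1)) - (A - 1) * (W - 1)) := by rw [← e]
      _ ≤ nn ((W' - 1) - (W - 1)) + nn ((A - 1) * (W - 1)) := nn_sub _ _
      _ ≤ (nn (W' - 1) + nn (W - 1)) + nn ((A - 1) * (W - 1)) := by
          gcongr
          exact nn_sub _ _
      _ ≤ _ := by gcongr
  nlinarith

variable [IsUltrametricDist K]

lemma nn_ultra_le_one {A : Matrix (Fin 3) (Fin 3) K} (h : nn (A - 1) ≤ 1) : nn A ≤ 1 := by
  have h1 := nn_add_le_max (A - 1) 1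
  rw [sub_add_cancel, nn_one] at h1
  exact h1.trans (max_le h le_rfl)

lemma nn_ultra1 {δ b : ℝ} {u w w' g : SL3 K} (h : u * w = w' * g)
    (hw : nn ((w : Matrix (Fin 3) (Fin 3) K) - 1) ≤ δ) (hw' : nn ((w' : Matrix (Fin 3) (Fin 3) K) - 1) ≤ δ)
    (hδ : δ ≤ 1 / 12) (hb : δ ≤ b) (hu : nn ((u : Matrix (Fin 3) (Fin 3) K) - 1) ≤ b) :
    nn ((g : Matrix (Fin 3) (Fin 3) K) - 1) ≤ b := by
  have hm : (u : Matrix (Fin 3) (Fin 3) K) * (w : Matrix (Fin 3) (Fin 3) K) =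
      (w' : Matrix (Fin 3) (Fin 3) K) * (g : Matrix (Fin 3) (Fin 3) K) := by
    rw [← co_mul, ← co_mul, h]
  set A : Matrix (Fin 3) (Fin 3) K := (u : Matrix (Fin 3) (Fin 3) K)
  set W : Matrix (Fin 3) (Fin 3) K := (w : Matrix (Fin 3) (Fin 3) K)
  set W' : Matrix (Fin 3) (Fin 3) K := (w' : Matrix (Fin 3) (Fin 3) K)
  set B : Matrix (Fin 3) (Fin 3) K := (g : Matrix (Fin 3) (Fin 3) K)
  have e : B - 1 = (((A - 1) * W + (W - 1)) - (W' - 1)) - (W' - 1) * (B - 1) := by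
    have : (W' - 1) * (B - 1) = W' * B - W' - B + 1 := by noncomm_ring
    rw [this, ← hm]
    noncomm_ring
  have hW : nn W ≤ 1 := nn_ultra_le_one (by linarith)
  have h1 := nn_nonneg (A - 1)
  have h2 := nn_nonneg (B - 1)
  have h3 := nn_nonneg (W - 1)
  have h4 := nn_nonneg (W' - 1)
  have h5 : nn ((A - 1) * W) ≤ b :=
    (nn_mul_ultra _ _).trans (by nlinarith [nn_nonneg W])
  have h6 : nn ((W' - 1) * (B - 1)) ≤ δ * nn (B - 1) :=
    (nn_mul_ultra _ _).trans (by gcongr)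
  have h7 : nn (B - 1) ≤ max b (δ * nn (B - 1)) := by
    calc nn (B - 1) = nn ((((A - 1) * W + (W - 1)) - (W' - 1)) - (W' - 1) * (B - 1)) := by rw [← e]
      _ ≤ max (nn (((A - 1) * W + (W - 1)) - (W' - 1))) (nn ((W' - 1) * (B - 1))) := nn_sub_le_max _ _
      _ ≤ max b (δ * nn (B - 1)) := by
          refine max_le_max ?_ h6
          refine (nn_sub_le_max _ _).trans (max_le ?_ (hw'.trans hb))
          exact (nn_add_le_max _ _).trans (max_le h5 (hw.trans hb))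
  rcases le_max_iff.1 h7 with h8 | h8
  · exact h8
  · nlinarith

lemma nn_ultra2 {δ : ℝ} {u w w' : SL3 K} (h : u * w = w')
    (hw : nn ((w : Matrix (Fin 3) (Fin 3) K) - 1) ≤ δ) (hw' : nn ((w' : Matrix (Fin 3) (Fin 3) K) - 1) ≤ δ)
    (hδ : δ ≤ 1 / 12) : nn ((u : Matrix (Fin 3) (Fin 3) K) - 1) ≤ δ := by
  have hm : (u : Matrix (Fin 3) (Fin 3) K) * (w : Matrix (Fin 3) (Fin 3) K) =
      (w' : Matrix (Fin 3) (Fin 3) K) := by
    rw [← co_mul, h]
  set A : Matrix (Fin 3) (Fin 3) K := (u : Matrix (Fin 3) (Fin 3) K)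
  set W : Matrix (Fin 3) (Fin 3) K := (w : Matrix (Fin 3) (Fin 3) K)
  set W' : Matrix (Fin 3) (Fin 3) K := (w' : Matrix (Fin 3) (Fin 3) K)
  have e : A - 1 = ((W' - 1) - (W - 1)) - (A - 1) * (W - 1) := by
    rw [← hm]
    noncomm_ring
  have h1 := nn_nonneg (A - 1)
  have h3 := nn_nonneg (W - 1)
  have h4 := nn_nonneg (W' - 1)
  have h5 : nn ((A - 1) * (W - 1)) ≤ nn (A - 1) * δ :=
    (nn_mul_ultra _ _).trans (by gcongr)
  have h7 : nn (A - 1) ≤ max δ (nn (A - 1) * δ) := by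
    calc nn (A - 1) = nn (((W' - 1) - (W - 1)) - (A - 1) * (W - 1)) := by rw [← e]
      _ ≤ max (nn ((W' - 1) - (W - 1))) (nn ((A - 1) * (W - 1))) := nn_sub_le_max _ _
      _ ≤ _ := by
          refine max_le_max ?_ h5
          exact (nn_sub_le_max _ _).trans (max_le hw' hw)
  rcases le_max_iff.1 h7 with h8 | h8
  · exact h8
  · nlinarith

lemma nn_ultra_pow {v : SL3 K} {b : ℝ} (hb : b ≤ 1) (h : nn ((v : Matrix (Fin 3) (Fin 3) K) - 1) ≤ b)
    (n : ℕ) : nn (((v ^ n : SL3 K) : Matrix (Fin 3) (Fin 3) K) - 1) ≤ b := by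
  have hb0 : 0 ≤ b := (nn_nonneg _).trans h
  induction n with
  | zero =>
    rw [pow_zero, co_one, sub_self, nn_eq_zero.2 rfl]
    exact hb0
  | succ n ih =>
    rw [pow_succ, co_mul]
    set A : Matrix (Fin 3) (Fin 3) K := ((v ^ n : SL3 K) : Matrix (Fin 3) (Fin 3) K)
    set B : Matrix (Fin 3) (Fin 3) K := (v : Matrix (Fin 3) (Fin 3) K)
    have e : A * B - 1 = (A - 1) * B + (B - 1) := by noncomm_ring
    rw [e]
    have h1 : nn B ≤ 1 := nn_ultra_le_one (h.trans hb)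
    refine (nn_add_le_max _ _).trans (max_le ?_ h)
    refine (nn_mul_ultra _ _).trans ?_
    nlinarith [nn_nonneg B, nn_nonneg (A - 1)]

end estimates

section doubling

/-- repeated squaring leaves a small neighbourhood of `1` -/
lemma doubling {u : SL3 ℝ} (hu : u ≠ 1) (h : nn ((u : Matrix (Fin 3) (Fin 3) ℝ) - 1) < 1 / 256) :
    ∃ n : ℕ, 1 / 256 ≤ nn (((u ^ n : SL3 ℝ) : Matrix (Fin 3) (Fin 3) ℝ) - 1) ∧
      nn (((u ^ n : SL3 ℝ) : Matrix (Fin 3) (Fin 3) ℝ) - 1) ≤ 1 / 64 := by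
  set x : ℕ → ℝ := fun i => nn (((u ^ (2 ^ i) : SL3 ℝ) : Matrix (Fin 3) (Fin 3) ℝ) - 1) with hx
  have h0 : 0 < x 0 := by
    refine lt_of_le_of_ne (nn_nonneg _) fun h1 => hu ?_
    have h2 : nn (((u ^ (2 ^ 0) : SL3 ℝ) : Matrix (Fin 3) (Fin 3) ℝ) - 1) = 0 := h1.symm
    have h3 := nn_sl_eq_zero h2
    simpa using h3
  have hstep : ∀ i, x (i + 1) ≤ 2 * x i + 3 * (x i * x i) ∧ 2 * x i ≤ x (i + 1) + 3 * (x i * x i) := by
    intro i
    have e1 : ((u ^ (2 ^ (i + 1)) : SL3 ℝ) : Matrix (Fin 3) (Fin 3) ℝ) =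
        ((u ^ (2 ^ i) : SL3 ℝ) : Matrix (Fin 3) (Fin 3) ℝ) * ((u ^ (2 ^ i) : SL3 ℝ) : Matrix (Fin 3) (Fin 3) ℝ) := by
      rw [← co_mul, ← pow_add, pow_succ, mul_two]
    set A : Matrix (Fin 3) (Fin 3) ℝ := ((u ^ (2 ^ i) : SL3 ℝ) : Matrix (Fin 3) (Fin 3) ℝ) with hA
    have e2 : A * A - 1 = ((A - 1) + (A - 1)) + (A - 1) * (A - 1) := by noncomm_ring
    have e3 : (A - 1) + (A - 1) = (A * A - 1) - (A - 1) * (A - 1) := by noncomm_ring
    have hxi : x i = nn (A - 1) := rfl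
    have hxi1 : x (i + 1) = nn (A * A - 1) := by
      show nn (((u ^ (2 ^ (i + 1)) : SL3 ℝ) : Matrix (Fin 3) (Fin 3) ℝ) - 1) = nn (A * A - 1)
      rw [e1]
    have h2A : nn ((A - 1) + (A - 1)) = 2 * nn (A - 1) := by
      have : (A - 1) + (A - 1) = (2 : ℝ) • (A - 1) := by rw [two_smul]
      rw [this]
      unfold nn
      have h4 : ent ((2 : ℝ) • (A - 1)) = (2 : ℝ) • ent (A - 1) := rfl
      rw [h4, norm_smul]
      norm_num
    have hmul := nn_mul (A - 1) (A - 1)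
    rw [hxi, hxi1]
    constructor
    · calc nn (A * A - 1) = nn (((A - 1) + (A - 1)) + (A - 1) * (A - 1)) := by rw [← e2]
        _ ≤ nn ((A - 1) + (A - 1)) + nn ((A - 1) * (A - 1)) := nn_add _ _
        _ ≤ _ := by rw [h2A]; linarith
    · calc 2 * nn (A - 1) = nn ((A - 1) + (A - 1)) := h2A.symm
        _ = nn ((A * A - 1) - (A - 1) * (A - 1)) := by rw [← e3]
        _ ≤ nn (A * A - 1) + nn ((A - 1) * (A - 1)) := nn_sub _ _
        _ ≤ _ := by linarith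
  have hex : ∃ i, 1 / 256 ≤ x i := by
    by_contra hcon
    push Not at hcon
    have hgrow : ∀ i, (3 / 2 : ℝ) ^ i * x 0 ≤ x i := by
      intro i
      induction i with
      | zero => simp
      | succ i ih =>
        have h1 := (hstep i).2
        have h2 := hcon i
        have h3 : 0 ≤ x i := nn_nonneg _
        have h4 : 3 / 2 * x i ≤ x (i + 1) := by nlinarith
        calc (3 / 2 : ℝ) ^ (i + 1) * x 0 = 3 / 2 * ((3 / 2) ^ i * x 0) := by ring
          _ ≤ 3 / 2 * x i := by linarith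
          _ ≤ x (i + 1) := h4
    obtain ⟨i, hi⟩ := pow_unbounded_of_one_lt (1 / 256 / x 0) (by norm_num : (1 : ℝ) < 3 / 2)
    have h5 := hgrow i
    have h6 := hcon i
    rw [div_lt_iff₀ h0] at hi
    linarith
  classical
  have h1 := Nat.find_spec hex
  have h2 : Nat.find hex ≠ 0 := by
    intro h3
    rw [h3] at h1
    have h4 : x 0 = nn ((u : Matrix (Fin 3) (Fin 3) ℝ) - 1) := by
      show nn (((u ^ (2 ^ 0) : SL3 ℝ) : Matrix (Fin 3) (Fin 3) ℝ) - 1) = _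
      rw [pow_zero, pow_one]
    rw [h4] at h1
    linarith
  obtain ⟨i, hi⟩ := Nat.exists_eq_succ_of_ne_zero h2
  have h3 : x i < 1 / 256 := by
    have := Nat.find_min hex (m := i) (by omega)
    push Not at this
    exact this
  refine ⟨2 ^ (i + 1), ?_, ?_⟩
  · rw [hi] at h1
    exact h1
  · have h4 := (hstep i).1
    have h5 : 0 ≤ x i := nn_nonneg _
    show x (i + 1) ≤ 1 / 64
    nlinarith

end doubling

section sets

variable {p : ℕ} [hp : Fact p.Prime]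

/-- the radius -/
noncomputable def dl (p k : ℕ) : ℝ := (1 / 2) ^ (k + 12) / (sD p k : ℝ) ^ 2

lemma dl_pos (k : ℕ) : 0 < dl p k := by
  have h1 : (0 : ℝ) < (sD p k : ℝ) := by exact_mod_cast sD_pos (p := p) k
  unfold dl
  positivity

lemma dl_mul (k : ℕ) : (sD p k : ℝ) ^ 2 * dl p k = (1 / 2) ^ (k + 12) := by
  have h1 : (0 : ℝ) < (sD p k : ℝ) := by exact_mod_cast sD_pos (p := p) k
  unfold dl
  field_simp

lemma dl_le (k : ℕ) : dl p k ≤ (1 / 2) ^ (k + 12) := by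
  have h1 : (1 : ℝ) ≤ (sD p k : ℝ) := by exact_mod_cast sD_pos (p := p) k
  have h2 := dl_pos (p := p) k
  have h3 := dl_mul (p := p) k
  have h4 : 1 ≤ (sD p k : ℝ) ^ 2 := one_le_pow₀ h1
  nlinarith

lemma pow_half_le (k : ℕ) : (1 / 2 : ℝ) ^ (k + 12) ≤ 1 / 4096 := by
  calc (1 / 2 : ℝ) ^ (k + 12) ≤ (1 / 2) ^ 12 :=
        pow_le_pow_of_le_one (by norm_num) (by norm_num) (by omega)
    _ = 1 / 4096 := by norm_num

/-- neighbourhoods of `1` -/
def Wk (p k : ℕ) [Fact p.Prime] : Set (G p) :=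
  {w | nn ((w.1 : Matrix (Fin 3) (Fin 3) ℝ) - 1) < dl p k ∧
    nn ((w.2 : Matrix (Fin 3) (Fin 3) ℚ_[p]) - 1) < dl p k}

lemma isOpen_Wk (k : ℕ) : IsOpen (Wk p k) :=
  IsOpen.inter (isOpen_lt (continuous_nn_sl.comp continuous_fst) continuous_const)
    (isOpen_lt (continuous_nn_sl.comp continuous_snd) continuous_const)

/-- the sets `E k` -/
def Ek (p k : ℕ) [Fact p.Prime] : Set (X p) :=
  {y | ∃ w ∈ Wk p k, ∃ q : SL3 ℚ, IntM p ((sD p k : ℚ) • (q : Matrix (Fin 3) (Fin 3) ℚ)) ∧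
    IntM p ((sD p k : ℚ) • ((q⁻¹ : SL3 ℚ) : Matrix (Fin 3) (Fin 3) ℚ)) ∧
    y = (QuotientGroup.mk (w * io p q) : X p)}

lemma isOpen_Ek (k : ℕ) : IsOpen (Ek p k) := by
  have h1 : Ek p k = ⋃ q : {q : SL3 ℚ // IntM p ((sD p k : ℚ) • (q : Matrix (Fin 3) (Fin 3) ℚ)) ∧
      IntM p ((sD p k : ℚ) • ((q⁻¹ : SL3 ℚ) : Matrix (Fin 3) (Fin 3) ℚ))},
      (QuotientGroup.mk : G p → X p) '' ((fun w => w * io p q.1) '' Wk p k) := by
    ext y
    rw [Set.mem_iUnion]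
    constructor
    · rintro ⟨w, hw, q, h2, h3, rfl⟩
      exact ⟨⟨q, h2, h3⟩, _, ⟨w, hw, rfl⟩, rfl⟩
    · rintro ⟨⟨q, h2, h3⟩, _, ⟨w, hw, rfl⟩, rfl⟩
      exact ⟨w, hw, q, h2, h3, rfl⟩
  rw [h1]
  refine isOpen_iUnion fun q => ?_
  exact QuotientGroup.isOpenQuotientMap_mk.isOpenMap _ ((isOpenMap_mul_right _) _ (isOpen_Wk k))

lemma mu_Ek_compl (β : ℕ → Root) (k : ℕ) : mu p β (Ek p k)ᶜ ≤ (1 / 2 : ℝ≥0∞) ^ k := by
  rw [mu_apply β (isOpen_Ek k).measurableSet.compl]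
  refine le_trans (measure_mono_ae ?_) (hm_goodset_compl (p := p) k)
  filter_upwards [ae_Cv (p := p) β] with ω hω h1 h2
  apply h1
  obtain ⟨h3, h4⟩ := limit_near_G β h2 hω
  have h5 : (1 / 2 : ℝ) ^ (k + 13) / (sD p k : ℝ) ^ 2 < dl p k := by
    have h6 : (0 : ℝ) < (sD p k : ℝ) := by exact_mod_cast sD_pos (p := p) k
    unfold dl
    rw [pow_succ (1 / 2 : ℝ) (k + 12)]
    have h7 : (0 : ℝ) < (1 / 2) ^ (k + 12) := by positivity
    gcongr
    linarith
  refine ⟨gm β ω * (io p (gk β k ω))⁻¹, ⟨lt_of_le_of_lt h3 h5, lt_of_le_of_lt h4 h5⟩, gk β k ω,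
    int_D β (iv ω) k, int_D_inv β (iv ω) k, ?_⟩
  rw [inv_mul_cancel_right]
  rfl

/-- two points of `E k` -/
lemma Ek_pair {k : ℕ} {h : G p} {y : X p} (h1 : y ∈ Ek p k) (h2 : h • y ∈ Ek p k) :
    ∃ w ∈ Wk p k, ∃ w' ∈ Wk p k, ∃ g : SL3 ℚ,
      IntM p (((sD p k : ℚ) ^ 2) • (g : Matrix (Fin 3) (Fin 3) ℚ)) ∧ h * w = w' * io p g := by
  obtain ⟨w, hw, q, hq, hq', rfl⟩ := h1
  obtain ⟨w', hw', r, hr, hr', e⟩ := h2
  have e1 : (QuotientGroup.mk (w' * io p r) : X p) = QuotientGroup.mk (h * (w * io p q)) := e.symm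
  obtain ⟨s, hs, e2⟩ := exists_of_mem_Gam (QuotientGroup.eq.1 e1)
  refine ⟨w, hw, w', hw', r * s * q⁻¹, ?_, ?_⟩
  · have e3 : ((sD p k : ℚ) ^ 2) • ((r * s * q⁻¹ : SL3 ℚ) : Matrix (Fin 3) (Fin 3) ℚ) =
        ((sD p k : ℚ) • (r : Matrix (Fin 3) (Fin 3) ℚ)) * (s : Matrix (Fin 3) (Fin 3) ℚ) *
          ((sD p k : ℚ) • ((q⁻¹ : SL3 ℚ) : Matrix (Fin 3) (Fin 3) ℚ)) := by
      rw [coQ_mul, coQ_mul]
      simp only [smul_mul_assoc, mul_smul_comm, smul_smul]
      congr 1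
      ring
    rw [e3]
    exact (hr.mul hs).mul hq'
  · rw [map_mul, map_mul, e2, map_inv]
    group

lemma eq_one_of_small {k : ℕ} {g : SL3 ℚ}
    (hint : IntM p (((sD p k : ℚ) ^ 2) • (g : Matrix (Fin 3) (Fin 3) ℚ))) {a b : ℝ}
    (h1 : nn (((io p g).1 : Matrix (Fin 3) (Fin 3) ℝ) - 1) ≤ a)
    (h2 : nn (((io p g).2 : Matrix (Fin 3) (Fin 3) ℚ_[p]) - 1) ≤ b)
    (hab : (sD p k : ℝ) ^ 2 * (a * b) < 1) : g = 1 := by
  apply Subtype.ext
  ext i j
  have hD : ((sD p k : ℕ) : ℚ) ≠ 0 := by exact_mod_cast (sD_pos (p := p) k).ne'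
  have ha : 0 ≤ a := (nn_nonneg _).trans h1
  have hb : 0 ≤ b := (nn_nonneg _).trans h2
  have h4 : (sD p k : ℚ) ^ 2 * (g i j - (1 : Matrix (Fin 3) (Fin 3) ℚ) i j) = 0 := by
    refine prod_formula (p := p) ?_ ?_
    · rw [mul_sub]
      exact sub_mem (hint i j) (mul_mem (pow_mem (nat_mem _) 2) (intM_one i j))
    · have h5 : ‖(((sD p k : ℚ) ^ 2 * (g i j - (1 : Matrix (Fin 3) (Fin 3) ℚ) i j) : ℚ) : ℝ)‖ ≤
          (sD p k : ℝ) ^ 2 * a := by
        rw [Rat.cast_mul, norm_mul]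
        have h6 : ‖(((sD p k : ℚ) ^ 2 : ℚ) : ℝ)‖ = (sD p k : ℝ) ^ 2 := by
          push_cast
          rw [Real.norm_of_nonneg (by positivity)]
        rw [h6]
        gcongr
        refine le_trans (le_of_eq ?_) ((entry_le (((io p g).1 : Matrix (Fin 3) (Fin 3) ℝ) - 1) i j).trans h1)
        congr 1
        rw [Matrix.sub_apply, Rat.cast_sub]
        congr 1
        rw [one_apply, one_apply]
        split_ifs <;> simp
      have h7 : ‖(((sD p k : ℚ) ^ 2 * (g i j - (1 : Matrix (Fin 3) (Fin 3) ℚ) i j) : ℚ) : ℚ_[p])‖ ≤ b := by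
        rw [Rat.cast_mul, norm_mul]
        have h6 : ‖(((sD p k : ℚ) ^ 2 : ℚ) : ℚ_[p])‖ = 1 := by
          push_cast
          rw [norm_pow, padic_norm_sD, one_pow]
        rw [h6, one_mul]
        refine le_trans (le_of_eq ?_)
          ((entry_le (((io p g).2 : Matrix (Fin 3) (Fin 3) ℚ_[p]) - 1) i j).trans h2)
        congr 1
        rw [Matrix.sub_apply, Rat.cast_sub]
        congr 1
        rw [one_apply, one_apply]
        split_ifs <;> simp
      calc _ ≤ ((sD p k : ℝ) ^ 2 * a) * b := mul_le_mul h5 h7 (norm_nonneg _) (by positivity)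
        _ = (sD p k : ℝ) ^ 2 * (a * b) := by ring
        _ < 1 := hab
  rcases mul_eq_zero.1 h4 with h5 | h5
  · exact absurd h5 (pow_ne_zero 2 hD)
  · exact sub_eq_zero.1 h5

/-- the first case -/
lemma case_real {k : ℕ} {h : G p} {y : X p} (h1 : y ∈ Ek p k) (h2 : h • y ∈ Ek p k)
    (hu : nn ((h.1 : Matrix (Fin 3) (Fin 3) ℝ) - 1) ≤ 1 / 64)
    (hv : nn ((h.2 : Matrix (Fin 3) (Fin 3) ℚ_[p]) - 1) ≤ dl p k) :
    nn ((h.1 : Matrix (Fin 3) (Fin 3) ℝ) - 1) ≤ 4 * dl p k := by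
  obtain ⟨w, hw, w', hw', g, hg, e⟩ := Ek_pair h1 h2
  have e1 : h.1 * w.1 = w'.1 * (io p g).1 := congrArg Prod.fst e
  have e2 : h.2 * w.2 = w'.2 * (io p g).2 := congrArg Prod.snd e
  have hd : dl p k ≤ 1 / 4096 := (dl_le k).trans (pow_half_le k)
  have hd12 : dl p k ≤ 1 / 12 := by linarith
  have h3 := nn_real1 e1 hw.1.le hw'.1.le hd12
  have h4 := nn_ultra1 e2 hw.2.le hw'.2.le hd12 le_rfl hv
  have h5 : g = 1 := by
    refine eq_one_of_small hg (a := 1) (h3.trans ?_) h4 ?_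
    · linarith
    · rw [one_mul, dl_mul]
      linarith [pow_half_le k]
  rw [h5, map_one] at e1
  have e3 : h.1 * w.1 = w'.1 := by rw [e1]; exact mul_one _
  exact nn_real2 e3 hw.1.le hw'.1.le hd12

/-- the second case -/
lemma case_padic {k : ℕ} {h : G p} {y : X p} (h1 : y ∈ Ek p k) (h2 : h • y ∈ Ek p k)
    (hu : h.1 = 1) (hv : nn ((h.2 : Matrix (Fin 3) (Fin 3) ℚ_[p]) - 1) ≤ 1) :
    nn ((h.2 : Matrix (Fin 3) (Fin 3) ℚ_[p]) - 1) ≤ dl p k := by
  obtain ⟨w, hw, w', hw', g, hg, e⟩ := Ek_pair h1 h2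
  have e1 : h.1 * w.1 = w'.1 * (io p g).1 := congrArg Prod.fst e
  have e2 : h.2 * w.2 = w'.2 * (io p g).2 := congrArg Prod.snd e
  have hd : dl p k ≤ 1 / 4096 := (dl_le k).trans (pow_half_le k)
  have hd12 : dl p k ≤ 1 / 12 := by linarith
  have h3 := nn_real1 e1 hw.1.le hw'.1.le hd12
  rw [hu, co_one, sub_self, nn_eq_zero.2 rfl] at h3
  have h4 := nn_ultra1 e2 hw.2.le hw'.2.le hd12 (by linarith) hv
  have h5 : g = 1 := by
    refine eq_one_of_small hg (a := 4 * dl p k) (h3.trans (by linarith)) h4 ?_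
    have h6 := dl_mul (p := p) k
    have h7 := pow_half_le k
    calc (sD p k : ℝ) ^ 2 * (4 * dl p k * 1) = 4 * ((sD p k : ℝ) ^ 2 * dl p k) := by ring
      _ < 1 := by rw [h6]; linarith
  rw [h5, map_one] at e2
  have e3 : h.2 * w.2 = w'.2 := by rw [e2]; exact mul_one _
  exact nn_ultra2 e3 hw.2.le hw'.2.le hd12

/-- stabilizers are discrete -/
lemma stab_near (β : ℕ → Root) (m : Measure (X p)) [IsProbabilityMeasure m] (N : ℕ)
    (hm : m ≤ (N : ℝ≥0∞) • mu p β) :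
    ∃ δ : ℝ, 0 < δ ∧ ∀ h ∈ stab (G p) m, nn ((h.1 : Matrix (Fin 3) (Fin 3) ℝ) - 1) < δ →
      nn ((h.2 : Matrix (Fin 3) (Fin 3) ℚ_[p]) - 1) < δ → h = 1 := by
  obtain ⟨k0, hk0⟩ : ∃ k0 : ℕ, ∀ k, k0 ≤ k → m (Ek p k)ᶜ < 1 / 2 := by
    obtain ⟨k0, hk0⟩ : ∃ k0 : ℕ, 2 * N < 2 ^ k0 := ⟨2 * N, Nat.lt_two_pow_self⟩
    refine ⟨k0, fun k hk => ?_⟩
    have h1 : m (Ek p k)ᶜ ≤ (N : ℝ≥0∞) * (1 / 2) ^ k := by
      refine (hm _).trans ?_
      rw [Measure.smul_apply, smul_eq_mul]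
      gcongr
      exact mu_Ek_compl β k
    refine lt_of_le_of_lt h1 ?_
    rw [one_div, ← ENNReal.inv_pow, ← div_eq_mul_inv]
    have h2 : ((2 * N : ℕ) : ℝ≥0∞) < ((2 ^ k : ℕ) : ℝ≥0∞) := by
      exact_mod_cast hk0.trans_le (Nat.pow_le_pow_right (by norm_num) hk)
    push_cast at h2
    refine ENNReal.div_lt_of_lt_mul ?_
    calc (N : ℝ≥0∞) = 2⁻¹ * (2 * N) := by
          rw [← mul_assoc, ENNReal.inv_mul_cancel (by norm_num) (by norm_num), one_mul]
      _ < 2⁻¹ * 2 ^ k := by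
          refine (ENNReal.mul_lt_mul_iff_right ?_ ?_).2 h2
          · norm_num
          · norm_num
  have hint : ∀ h ∈ stab (G p) m, ∀ k, k0 ≤ k → ∃ y, y ∈ Ek p k ∧ h • y ∈ Ek p k := by
    intro h hh k hk
    by_contra hcon
    push Not at hcon
    have h1 : (Set.univ : Set (X p)) ⊆ (Ek p k)ᶜ ∪ (fun x => h • x) ⁻¹' (Ek p k)ᶜ := by
      intro y _
      by_cases hy : y ∈ Ek p k
      · exact Or.inr (hcon y hy)
      · exact Or.inl hy
    have h2 : m ((fun x => h • x) ⁻¹' (Ek p k)ᶜ) = m (Ek p k)ᶜ := by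
      have h3 : m.map (fun x => h • x) = m := hh
      conv_rhs => rw [← h3]
      rw [Measure.map_apply (measurable_smul' h) (isOpen_Ek k).measurableSet.compl]
    have h4 : (1 : ℝ≥0∞) ≤ m (Ek p k)ᶜ + m (Ek p k)ᶜ := by
      calc (1 : ℝ≥0∞) = m Set.univ := measure_univ.symm
        _ ≤ _ := measure_mono h1
        _ ≤ m (Ek p k)ᶜ + m ((fun x => h • x) ⁻¹' (Ek p k)ᶜ) := measure_union_le _ _
        _ = _ := by rw [h2]
    have h5 := hk0 k hk
    have h6 : m (Ek p k)ᶜ + m (Ek p k)ᶜ < 1 / 2 + 1 / 2 := ENNReal.add_lt_add h5 h5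
    rw [ENNReal.add_halves] at h6
    exact absurd h4 (not_le.2 h6)
  refine ⟨min (1 / 256) (dl p k0), lt_min (by norm_num) (dl_pos k0), ?_⟩
  intro h hh hu hv
  have hu1 := lt_of_lt_of_le hu (min_le_left _ _)
  have hv1 := lt_of_lt_of_le hv (min_le_right _ _)
  have hd : dl p k0 ≤ 1 / 4096 := (dl_le k0).trans (pow_half_le k0)
  have h1 : h.1 = 1 := by
    by_contra hne
    obtain ⟨n, h2, h3⟩ := doubling hne hu1
    obtain ⟨y, hy1, hy2⟩ := hint (h ^ n) (pow_mem hh n) k0 le_rfl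
    have h4 := case_real hy1 hy2 h3 (nn_ultra_pow (by linarith) hv1.le n)
    have h5 : nn (((h ^ n).1 : Matrix (Fin 3) (Fin 3) ℝ) - 1) =
      nn (((h.1 ^ n : SL3 ℝ) : Matrix (Fin 3) (Fin 3) ℝ) - 1) := rfl
    rw [h5] at h4
    linarith
  have h2 : h.2 = 1 := by
    apply nn_sl_eq_zero
    refine le_antisymm ?_ (nn_nonneg _)
    have h3 : ∀ k, k0 ≤ k → nn ((h.2 : Matrix (Fin 3) (Fin 3) ℚ_[p]) - 1) ≤ (1 / 2) ^ k := by
      intro k hk
      obtain ⟨y, hy1, hy2⟩ := hint h hh k hk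
      refine ((case_padic hy1 hy2 h1 (by linarith)).trans (dl_le k)).trans ?_
      exact pow_le_pow_of_le_one (by norm_num) (by norm_num) (by omega)
    refine ge_of_tendsto (tendsto_pow_atTop_nhds_zero_of_lt_one (r := (1 / 2 : ℝ)) (by norm_num) (by norm_num)) ?_
    exact eventually_atTop.2 ⟨k0, h3⟩
  exact Prod.ext h1 h2

/-- stabilizers are countable -/
lemma stab_countable (β : ℕ → Root) (m : Measure (X p)) [IsProbabilityMeasure m] (N : ℕ)
    (hm : m ≤ (N : ℝ≥0∞) • mu p β) : Countable (stab (G p) m) := by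
  obtain ⟨δ, hδ, h⟩ := stab_near β m N hm
  have hdisc : DiscreteTopology (stab (G p) m) := by
    refine discreteTopology_of_isOpen_singleton_one ?_
    have ho : IsOpen {g : stab (G p) m | nn (((g : G p).1 : Matrix (Fin 3) (Fin 3) ℝ) - 1) < δ ∧
        nn (((g : G p).2 : Matrix (Fin 3) (Fin 3) ℚ_[p]) - 1) < δ} := by
      refine IsOpen.inter ?_ ?_
      · exact isOpen_lt (continuous_nn_sl.comp (continuous_fst.comp continuous_subtype_val))
          continuous_const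
      · exact isOpen_lt (continuous_nn_sl.comp (continuous_snd.comp continuous_subtype_val))
          continuous_const
    convert ho using 1
    ext g
    rw [Set.mem_singleton_iff, Set.mem_ofPred_eq]
    constructor
    · rintro rfl
      have e1 : nn ((((1 : stab (G p) m) : G p).1 : Matrix (Fin 3) (Fin 3) ℝ) - 1) = 0 := by
        rw [nn_eq_zero, sub_eq_zero]
        rfl
      have e2 : nn ((((1 : stab (G p) m) : G p).2 : Matrix (Fin 3) (Fin 3) ℚ_[p]) - 1) = 0 := by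
        rw [nn_eq_zero, sub_eq_zero]
        rfl
      rw [e1, e2]
      exact ⟨hδ, hδ⟩
    · rintro ⟨h1, h2⟩
      exact Subtype.ext (h g.1 g.2 h1 h2)
  have : SecondCountableTopology (stab (G p) m) := inferInstance
  exact countable_of_Lindelof_of_discrete

/-- the measure is not virtually homogeneous -/
theorem not_vh (β : ℕ → Root) (hβ : ∀ r : Root, ∃ᶠ j in atTop, β j = r) :
    ¬ IsVirtuallyHomogeneous (G p) (mu p β) := by
  rintro ⟨m, L, ⟨x, hx⟩, -, hfin, hmu⟩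
  have hcard : Fintype.card (L ⧸ (stab (G p) m).subgroupOf L) ≠ 0 := Fintype.card_ne_zero
  have hcard' : (Fintype.card (L ⧸ (stab (G p) m).subgroupOf L) : ℝ≥0∞) ≠ 0 := by exact_mod_cast hcard
  have hcardt : (Fintype.card (L ⧸ (stab (G p) m).subgroupOf L) : ℝ≥0∞) ≠ ⊤ := ENNReal.natCast_ne_top _
  have hprob : IsProbabilityMeasure m := by
    constructor
    have h1 : mu p β Set.univ = 1 := measure_univ
    rw [hmu, Measure.smul_apply, Measure.finsetSum_apply] at h1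
    have h2 : ∀ q : L ⧸ (stab (G p) m).subgroupOf L, (m.map (fun x : X p => ((q.out : L) : G p) • x)) Set.univ = m Set.univ := by
      intro q
      rw [Measure.map_apply (measurable_smul' _) MeasurableSet.univ, Set.preimage_univ]
    rw [Finset.sum_congr rfl fun q _ => h2 q, Finset.sum_const, Finset.card_univ, nsmul_eq_mul,
      smul_eq_mul, ← mul_assoc, ENNReal.inv_mul_cancel hcard' hcardt, one_mul] at h1
    exact h1
  have hle : m ≤ ((Fintype.card (L ⧸ (stab (G p) m).subgroupOf L) : ℕ) : ℝ≥0∞) • mu p β := by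
    rw [hmu, smul_smul, ENNReal.mul_inv_cancel hcard' hcardt, one_smul]
    have h3 : (((QuotientGroup.mk 1 : L ⧸ (stab (G p) m).subgroupOf L).out : L) : G p) ∈ stab (G p) m := by
      have h4 : (QuotientGroup.mk (QuotientGroup.mk 1 : L ⧸ (stab (G p) m).subgroupOf L).out : L ⧸ (stab (G p) m).subgroupOf L) = QuotientGroup.mk 1 :=
        Quotient.out_eq' _
      have h5 := QuotientGroup.eq.1 h4
      rw [mul_one] at h5
      have h6 := inv_mem h5
      rw [inv_inv] at h6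
      exact h6
    have h7 : m.map (fun x : X p => (((QuotientGroup.mk 1 : L ⧸ (stab (G p) m).subgroupOf L).out : L) : G p) • x) = m := h3
    conv_lhs => rw [← h7]
    intro s
    rw [Measure.finsetSum_apply]
    exact Finset.single_le_sum (f := fun q : L ⧸ (stab (G p) m).subgroupOf L => (m.map (fun x : X p => ((q.out : L) : G p) • x)) s)
      (fun _ _ => zero_le) (Finset.mem_univ (QuotientGroup.mk 1 : L ⧸ (stab (G p) m).subgroupOf L))
  have hc : Countable (stab (G p) m) := stab_countable β m _ hle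
  have horb : (MulAction.orbit (stab (G p) m) x).Countable := Set.countable_range _
  have h0 : m (MulAction.orbit (stab (G p) m) x) = 0 := by
    rw [← Set.biUnion_of_singleton (MulAction.orbit (stab (G p) m) x)]
    rw [measure_biUnion_null_iff horb]
    intro y _
    refine le_antisymm ((hle {y}).trans ?_) zero_le
    rw [Measure.smul_apply, mu_singleton β hβ, smul_zero]
  have h1 : m Set.univ ≤ m (MulAction.orbit (stab (G p) m) x) + m (MulAction.orbit (stab (G p) m) x)ᶜ := by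
    rw [← Set.union_compl_self (MulAction.orbit (stab (G p) m) x)]
    exact measure_union_le _ _
  have hx' : m (MulAction.orbit (stab (G p) m) x)ᶜ = 0 := hx
  rw [h0, hx', measure_univ, add_zero] at h1
  exact absurd h1 (by norm_num)

end sets

end Pool.Agent.Y319.MR
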